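import Mathlib

/-!
# RGC: real characters of a finite abelian group (Mathlib only)

MODULE Chr. `σ : A → ℝ` is an even function, the matrix is `a, b ↦ σ (b - a)`.
Plan. `∑_b σ(b - a) χ(b) = χ(a) ∑_c σ(c) χ(c)` and `∑_c σ(c) χ(c)` is real because `σ` is even
(`χ(-c)` is the conjugate of `χ(c)`: `AddChar.map_neg_eq_conj`). Take real and imaginary parts.
`odd_zero`: an odd function orthogonal to all `Im χ` is `0`: it is orthogonal to all `Re χ` (which is
even) as well, so `∑_a h(a) χ(a) = 0` for all `χ`; by `AddChar.sum_apply_eq_ite`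
(`∑_χ χ(a) = |A| [a = 0]`), `|A| h(b) = ∑_χ χ(-b) ∑_a h(a) χ(a) = 0`.
-/

set_option autoImplicit false

namespace RGC

open Finset
open scoped Classical

variable {V W : Type}

private theorem chrAux_im {A : Type} [AddCommGroup A] [Fintype A] (χ : AddChar A ℂ) (a : A) :
    (χ (-a)).im = - (χ a).im := by
  rw [AddChar.map_neg_eq_conj, Complex.conj_im]

private theorem chrAux_re {A : Type} [AddCommGroup A] [Fintype A] (χ : AddChar A ℂ) (a : A) :
    (χ (-a)).re = (χ a).re := by
  rw [AddChar.map_neg_eq_conj, Complex.conj_re]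

private theorem chrAux_zero {A : Type} [AddCommGroup A] [Fintype A] (g : A → ℝ)
    (hg : ∀ a, g (-a) = - g a) : ∑ a, g a = 0 := by
  have h1 : ∑ a, g (-a) = ∑ a, g a := Equiv.sum_comp (Equiv.neg A) g
  have h2 : ∑ a, g (-a) = - ∑ a, g a := by
    rw [← Finset.sum_neg_distrib]
    exact Finset.sum_congr rfl fun a _ => hg a
  linarith

private theorem chrAux_odd {A : Type} [AddCommGroup A] [Fintype A] (σ : A → ℝ)
    (hσ : ∀ a, σ (-a) = σ a) (χ : AddChar A ℂ) : ∑ c, σ c * (χ c).im = 0 := by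
  apply chrAux_zero
  intro a
  rw [hσ, chrAux_im]
  ring

private theorem chrAux_shift {A : Type} [AddCommGroup A] [Fintype A] (σ f : A → ℝ) (a : A) :
    ∑ b, σ (b - a) * f b = ∑ c, σ c * f (c + a) := by
  rw [← Equiv.sum_comp (Equiv.addRight a) (fun b => σ (b - a) * f b)]
  refine Finset.sum_congr rfl fun c _ => ?_
  simp

theorem eig_re {A : Type} [AddCommGroup A] [Fintype A] (σ : A → ℝ) (hσ : ∀ a, σ (-a) = σ a)
    (χ : AddChar A ℂ) (a : A) :
    ∑ b, σ (b - a) * (χ b).re = (∑ c, σ c * (χ c).re) * (χ a).re := by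
  have h0 := chrAux_odd σ hσ χ
  rw [chrAux_shift σ (fun b => (χ b).re) a]
  have h1 : ∀ c, σ c * (χ (c + a)).re =
      (σ c * (χ c).re) * (χ a).re - (σ c * (χ c).im) * (χ a).im := by
    intro c
    rw [AddChar.map_add_eq_mul, Complex.mul_re]
    ring
  rw [Finset.sum_congr rfl fun c _ => h1 c, Finset.sum_sub_distrib, ← Finset.sum_mul,
    ← Finset.sum_mul, h0]
  ring

theorem eig_im {A : Type} [AddCommGroup A] [Fintype A] (σ : A → ℝ) (hσ : ∀ a, σ (-a) = σ a)
    (χ : AddChar A ℂ) (a : A) :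
    ∑ b, σ (b - a) * (χ b).im = (∑ c, σ c * (χ c).re) * (χ a).im := by
  have h0 := chrAux_odd σ hσ χ
  rw [chrAux_shift σ (fun b => (χ b).im) a]
  have h1 : ∀ c, σ c * (χ (c + a)).im =
      (σ c * (χ c).re) * (χ a).im + (σ c * (χ c).im) * (χ a).re := by
    intro c
    rw [AddChar.map_add_eq_mul, Complex.mul_im]
    ring
  rw [Finset.sum_congr rfl fun c _ => h1 c, Finset.sum_add_distrib, ← Finset.sum_mul,
    ← Finset.sum_mul, h0]
  ring

theorem odd_zero {A : Type} [AddCommGroup A] [Fintype A] (h : A → ℝ) (hodd : ∀ a, h (-a) = - h a)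
    (horth : ∀ χ : AddChar A ℂ, ∑ a, h a * (χ a).im = 0) : h = 0 := by
  have hre : ∀ χ : AddChar A ℂ, ∑ a, h a * (χ a).re = 0 := by
    intro χ
    apply chrAux_zero
    intro a
    rw [hodd, chrAux_re]
    ring
  have hsum : ∀ χ : AddChar A ℂ, ∑ a, (h a : ℂ) * χ a = 0 := by
    intro χ
    apply Complex.ext
    · rw [Complex.re_sum, Complex.zero_re, ← hre χ]
      refine Finset.sum_congr rfl fun a _ => ?_
      rw [Complex.re_ofReal_mul]
    · rw [Complex.im_sum, Complex.zero_im, ← horth χ]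
      refine Finset.sum_congr rfl fun a _ => ?_
      rw [Complex.im_ofReal_mul]
  funext b
  have h1 : ∑ χ : AddChar A ℂ, χ (-b) * ∑ a, (h a : ℂ) * χ a = 0 := by
    refine Finset.sum_eq_zero fun χ _ => ?_
    rw [hsum χ, mul_zero]
  have h2 : ∑ χ : AddChar A ℂ, χ (-b) * ∑ a, (h a : ℂ) * χ a =
      (h b : ℂ) * (Fintype.card A : ℂ) := by
    have h3 : ∀ χ : AddChar A ℂ, χ (-b) * ∑ a, (h a : ℂ) * χ a =
        ∑ a, (h a : ℂ) * χ (a - b) := by
      intro χ
      rw [Finset.mul_sum]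
      refine Finset.sum_congr rfl fun a _ => ?_
      rw [sub_eq_add_neg, AddChar.map_add_eq_mul]
      ring
    rw [Finset.sum_congr rfl fun χ _ => h3 χ, Finset.sum_comm]
    have h4 : ∀ a, ∑ χ : AddChar A ℂ, (h a : ℂ) * χ (a - b) =
        if a = b then (h b : ℂ) * (Fintype.card A : ℂ) else 0 := by
      intro a
      rw [← Finset.mul_sum, AddChar.sum_apply_eq_ite]
      by_cases hab : a = b
      · subst hab
        simp
      · rw [if_neg hab, if_neg (sub_ne_zero.2 hab), mul_zero]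
    rw [Finset.sum_congr rfl fun a _ => h4 a, Finset.sum_ite_eq' univ b, if_pos (mem_univ b)]
  rw [h1] at h2
  have hcard : (Fintype.card A : ℂ) ≠ 0 := by
    have : Nonempty A := ⟨0⟩
    exact_mod_cast Fintype.card_ne_zero
  have h5 : (h b : ℂ) = 0 := by
    rcases mul_eq_zero.1 h2.symm with h6 | h6
    · exact h6
    · exact absurd h6 hcard
  show h b = 0
  exact_mod_cast h5

end RGC
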