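import Mathlib

/-!
# RGC: the orthogonality lemma (Mathlib only)

MODULE Orth. Plan. `F a = ε a * f a` (so `F v = 0`). For `a ≠ v`:
`(B F) a = ∑_{b ≠ v} ε a ε b A a b ε b f b = ε a (A f) a = θ F a` (`f v = 0`). `(B F) v = κ` with
`κ = ∑ ε a A v a f a`, the number to be shown `0`. So `B F = θ F + κ e_v`. `B` is symmetric:
for `w = A^j e_v = B^j e_v` (`hcol`; column `v`), `⟨F, A w⟩`: `A w = A^(j+1) e_v = B^(j+1) e_v = B w`,
so `⟨F, A w⟩ = ⟨B F, w⟩ = θ ⟨F, w⟩ + κ w v`, i.e. `⟨F, (A - θ) w⟩ = κ w v` for `w = A^j e_v`, hence by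
linearity for `w = P(A) e_v`, `P` any polynomial. Take `P` with `(t - θ) P = minpoly A`
(θ is a root of the minimal polynomial because of `g`); then `(A - θ) P(A) = 0`, so
`κ (P(A)) v v = 0`. Show `(P(A)) v v ≠ 0`: the minimal polynomial of a real symmetric matrix is
squarefree, so `P(θ) ≠ 0`; `P(A) P(A) = P(θ) P(A)` (since `A P(A) = θ P(A)`), so
`P(θ) (P(A)) v v = ∑_a ((P(A)) v a)²`; if it were `0` then row `v` of `P(A)` is `0`, but
`(P(A) g) v = P(θ) g v ≠ 0`. (Alternative: let `w` be the orthogonal projection of `e_v` onto the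
eigenspace of `θ`; it is a polynomial in `A` applied to `e_v`, `(A - θ) w = 0` and
`w v = ‖w‖² ≠ 0` because `⟨w, g⟩ = g v ≠ 0`.)
-/

set_option autoImplicit false

namespace RGC

open Finset
open scoped Classical

variable {V W : Type}

private theorem or_sym [Fintype V] {B : Matrix V V ℝ} (hB : B.IsSymm) (x y : V → ℝ) :
    B.mulVec x ⬝ᵥ y = x ⬝ᵥ B.mulVec y := by
  rw [Matrix.dotProduct_mulVec, ← Matrix.mulVec_transpose, hB.eq]

private theorem or_inner [Fintype V] (x y : EuclideanSpace ℝ V) :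
    inner ℝ x y = x.ofLp ⬝ᵥ y.ofLp := by
  rw [PiLp.inner_apply]
  refine Finset.sum_congr rfl fun i _ => ?_
  simp [mul_comm]

/-- the vectors `A ^ j e_v` -/
private noncomputable def orW [Fintype V] (A : Matrix V V ℝ) (v : V) :
    Submodule ℝ (EuclideanSpace ℝ V) :=
  Submodule.span ℝ (Set.range fun j : ℕ => WithLp.toLp 2 (fun a => (A ^ j) a v))

private theorem or_mul [Fintype V] (A : Matrix V V ℝ) (v : V) (j : ℕ) :
    A.mulVec (fun a => (A ^ j) a v) = fun a => (A ^ (j + 1)) a v := by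
  funext a
  rw [pow_succ', Matrix.mul_apply]
  rfl

private theorem or_inv [Fintype V] (A : Matrix V V ℝ) (v : V) {w : EuclideanSpace ℝ V}
    (hw : w ∈ orW A v) : WithLp.toLp 2 (A.mulVec w.ofLp) ∈ orW A v := by
  unfold orW at hw
  induction hw using Submodule.span_induction with
  | mem x hx =>
    obtain ⟨j, rfl⟩ := hx
    refine Submodule.subset_span ⟨j + 1, ?_⟩
    show WithLp.toLp 2 (fun a => (A ^ (j + 1)) a v) =
      WithLp.toLp 2 (A.mulVec (fun a => (A ^ j) a v))
    rw [or_mul]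
  | zero =>
    have e : A.mulVec (0 : EuclideanSpace ℝ V).ofLp = 0 := by
      rw [WithLp.ofLp_zero, Matrix.mulVec_zero]
    rw [e, WithLp.toLp_zero]
    exact Submodule.zero_mem _
  | add x y _ _ hx hy =>
    rw [WithLp.ofLp_add, Matrix.mulVec_add, WithLp.toLp_add]
    exact Submodule.add_mem _ hx hy
  | smul c x _ hx =>
    rw [WithLp.ofLp_smul, Matrix.mulVec_smul, WithLp.toLp_smul]
    exact Submodule.smul_mem _ c hx

private theorem or_agree [Fintype V] {A B : Matrix V V ℝ} {v : V}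
    (hcol : ∀ (j : ℕ) (a : V), (B ^ j) a v = (A ^ j) a v) {w : EuclideanSpace ℝ V}
    (hw : w ∈ orW A v) : B.mulVec w.ofLp = A.mulVec w.ofLp := by
  unfold orW at hw
  induction hw using Submodule.span_induction with
  | mem x hx =>
    obtain ⟨j, rfl⟩ := hx
    show B.mulVec (fun a => (A ^ j) a v) = A.mulVec (fun a => (A ^ j) a v)
    rw [or_mul]
    have e : (fun a => (A ^ j) a v) = fun a => (B ^ j) a v := funext fun a => (hcol j a).symm
    rw [e, or_mul]
    exact funext fun a => hcol (j + 1) a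
  | zero => simp
  | add x y _ _ hx hy =>
    rw [WithLp.ofLp_add, Matrix.mulVec_add, Matrix.mulVec_add, hx, hy]
  | smul c x _ hx =>
    rw [WithLp.ofLp_smul, Matrix.mulVec_smul, Matrix.mulVec_smul, hx]

theorem orth [Fintype V] {A B : Matrix V V ℝ} (hA : A.IsSymm) (hB : B.IsSymm) (v : V)
    {ε : V → ℝ} (hε : ∀ a, ε a * ε a = 1)
    (hoff : ∀ a b, a ≠ v → b ≠ v → B a b = ε a * ε b * A a b)
    (hv : ∀ a, B v a = A v a) (hcol : ∀ (j : ℕ) (a : V), (B ^ j) a v = (A ^ j) a v)
    {θ : ℝ} {f g : V → ℝ} (hf : A.mulVec f = θ • f) (hfv : f v = 0)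
    (hg : A.mulVec g = θ • g) (hgv : g v ≠ 0) :
    ∑ a, ε a * A v a * f a = 0 := by
  obtain ⟨u, hu, z, hz, hgz⟩ := (orW A v).exists_add_mem_mem_orthogonal (WithLp.toLp 2 g)
  rw [Submodule.mem_orthogonal] at hz
  have hg' : g = u.ofLp + z.ofLp := by
    rw [← WithLp.ofLp_add, ← hgz]
  -- `u` is an eigenvector
  have hAu : WithLp.toLp 2 (A.mulVec u.ofLp - θ • u.ofLp) ∈ orW A v := by
    rw [WithLp.toLp_sub, WithLp.toLp_smul]
    exact Submodule.sub_mem _ (or_inv A v hu) (Submodule.smul_mem _ _ hu)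
  have hneg : A.mulVec u.ofLp - θ • u.ofLp = -(A.mulVec z.ofLp - θ • z.ofLp) := by
    rw [hg', Matrix.mulVec_add, smul_add] at hg
    have := sub_eq_zero.2 hg
    rw [eq_neg_iff_add_eq_zero]
    rw [← this]
    abel
  have hzero : A.mulVec u.ofLp - θ • u.ofLp = 0 := by
    have h1 : (A.mulVec u.ofLp - θ • u.ofLp) ⬝ᵥ (A.mulVec u.ofLp - θ • u.ofLp) = 0 := by
      have h2 := hz _ (or_inv A v hAu)
      have h3 := hz _ hAu
      rw [or_inner] at h2 h3
      rw [WithLp.ofLp_toLp, or_sym hA] at h2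
      rw [WithLp.ofLp_toLp] at h2 h3
      nth_rewrite 2 [hneg]
      rw [dotProduct_neg, dotProduct_sub, dotProduct_smul, h2, h3]
      simp
    exact dotProduct_self_eq_zero.1 h1
  have hu1 : A.mulVec u.ofLp = θ • u.ofLp := sub_eq_zero.1 hzero
  have hu2 : B.mulVec u.ofLp = θ • u.ofLp := (or_agree hcol hu).trans hu1
  have huv : u.ofLp v = g v := by
    have h1 : WithLp.toLp 2 (fun a => (A ^ 0) a v) ∈ orW A v := Submodule.subset_span ⟨0, rfl⟩
    have h2 := hz _ h1
    rw [or_inner, WithLp.ofLp_toLp] at h2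
    have h3 : (fun a => (A ^ 0) a v) = Pi.single v (1 : ℝ) := by
      funext a
      rw [pow_zero, Matrix.one_apply, Pi.single_apply]
    rw [h3, single_dotProduct, one_mul] at h2
    rw [hg', Pi.add_apply, h2, add_zero]
  -- the vector `F`
  have hBF : ∀ a, a ≠ v → B.mulVec (fun b => ε b * f b) a = θ * (ε a * f a) := by
    intro a ha
    have h1 := congrFun hf a
    have h2 : B.mulVec (fun b => ε b * f b) a = ε a * A.mulVec f a := by
      show ∑ b, B a b * (ε b * f b) = ε a * ∑ b, A a b * f b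
      rw [Finset.mul_sum]
      refine Finset.sum_congr rfl fun b _ => ?_
      by_cases hb : b = v
      · rw [hb, hfv]
        ring
      · rw [hoff a b ha hb]
        have := hε b
        linear_combination (ε a * A a b * f b) * this
    rw [h2, h1, Pi.smul_apply, smul_eq_mul]
    ring
  have hBFv : B.mulVec (fun b => ε b * f b) v = ∑ a, ε a * A v a * f a := by
    show ∑ b, B v b * (ε b * f b) = _
    refine Finset.sum_congr rfl fun b _ => ?_
    rw [hv]
    ring
  have key := or_sym hB (fun b => ε b * f b) u.ofLp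
  rw [hu2, dotProduct_smul, smul_eq_mul] at key
  have h5 : B.mulVec (fun b => ε b * f b) ⬝ᵥ u.ofLp =
      (∑ a, ε a * A v a * f a) * u.ofLp v + θ * ((fun b => ε b * f b) ⬝ᵥ u.ofLp) := by
    unfold dotProduct
    rw [← Finset.add_sum_erase _ _ (Finset.mem_univ v),
      ← Finset.add_sum_erase Finset.univ (fun i => ε i * f i * u.ofLp i) (Finset.mem_univ v), hBFv,
      hfv, mul_zero, zero_mul, zero_add, Finset.mul_sum]
    congr 1
    refine Finset.sum_congr rfl fun a ha => ?_
    rw [hBF a (Finset.ne_of_mem_erase ha)]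
    ring
  rw [h5] at key
  have h6 : (∑ a, ε a * A v a * f a) * u.ofLp v = 0 := by linarith
  rcases mul_eq_zero.1 h6 with h | h
  · exact h
  · exact absurd (huv ▸ h) hgv

end RGC
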