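import Pool.Agent.RGC.AblK
import Pool.Agent.RGC.Orth
import Pool.Agent.RGC.Chr

/-!
# RGC: abelian Cayley graphs of odd order: the cut at `0` is even
-/

set_option autoImplicit false

namespace RGC

open Finset
open scoped Classical

variable {V W : Type}

private noncomputable def abSg (x : ZMod 2) : ℝ := if x = 0 then 1 else -1

private theorem ab_add (x y : ZMod 2) : abSg (x + y) = abSg x * abSg y := by
  have h : (1 : ZMod 2) + 1 = 0 := by decide
  rcases z2c x with rfl | rfl <;> rcases z2c y with rfl | rfl <;> simp [abSg, h]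

private theorem ab_sq (x : ZMod 2) : abSg x * abSg x = 1 := by
  rcases z2c x with rfl | rfl <;> simp [abSg]

private theorem ab_inj {x y : ZMod 2} (h : abSg x = abSg y) : x = y := by
  rcases z2c x with rfl | rfl <;> rcases z2c y with rfl | rfl <;> simp [abSg] at h ⊢ <;> norm_num at h

private theorem ab_Sd (G : SimpleGraph V) (a b : V) :
    Sd G a b = if a = b then 0 else abSg (s G a b) := by
  unfold Sd
  by_cases h : a = b
  · rw [if_pos h, if_pos h]
  · rw [if_neg h, if_neg h]
    unfold abSg s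
    by_cases h1 : G.Adj a b
    · rw [if_pos h1, if_pos h1, if_neg (by decide)]
    · rw [if_neg h1, if_neg h1, if_pos rfl]

private theorem ab_symm (G : SimpleGraph V) : (Sd G).IsSymm := by
  refine Matrix.IsSymm.ext fun a b => ?_
  rw [ab_Sd, ab_Sd, s_comm]
  by_cases h : a = b
  · rw [if_pos h, if_pos h.symm]
  · rw [if_neg h, if_neg fun h' => h h'.symm]

private theorem ab_adj {A : Type} [AddCommGroup A] (D : Set A) (a b : A) :
    (cay D).Adj a b ↔ (cay D).Adj 0 (b - a) := by
  show (a ≠ b ∧ (b - a ∈ D ∨ a - b ∈ D)) ↔ ((0 : A) ≠ b - a ∧ (b - a - 0 ∈ D ∨ 0 - (b - a) ∈ D))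
  rw [sub_zero, zero_sub, neg_sub]
  have h1 : (a ≠ b) ↔ ((0 : A) ≠ b - a) := by
    constructor
    · intro h h'
      exact h (sub_eq_zero.1 h'.symm).symm
    · intro h h'
      apply h
      rw [h', sub_self]
  rw [h1]

private theorem ab_shift {A : Type} [AddCommGroup A] (D : Set A) (a b : A) :
    Sd (cay D) a b = Sd (cay D) 0 (b - a) := by
  unfold Sd
  have h1 : (a = b) ↔ ((0 : A) = b - a) := by
    constructor
    · intro h
      rw [h, sub_self]
    · intro h
      exact (sub_eq_zero.1 h.symm).symm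
  by_cases h : a = b
  · rw [if_pos h, if_pos (h1.1 h)]
  · rw [if_neg h, if_neg fun h' => h (h1.2 h')]
    by_cases h2 : (cay D).Adj a b
    · rw [if_pos h2, if_pos ((ab_adj D a b).1 h2)]
    · rw [if_neg h2, if_neg fun h' => h2 ((ab_adj D a b).2 h')]

private theorem ab_even {A : Type} [AddCommGroup A] (D : Set A) (a : A) :
    Sd (cay D) 0 (-a) = Sd (cay D) 0 a := by
  have h1 := ab_shift D a 0
  rw [zero_sub] at h1
  rw [← h1]
  have h2 : (Sd (cay D)).transpose = Sd (cay D) := ab_symm (cay D)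
  have h3 := congrFun (congrFun h2 0) a
  exact h3

theorem even_cut {A : Type} [AddCommGroup A] [Fintype A] (D : Set A) {H' : SimpleGraph A}
    (hoff : OffEq (cay D) H' 0) (hc : (Sd (cay D)).charpoly = (Sd H').charpoly)
    (hcard : ∀ a, (Sd (cardOf H' a)).charpoly = (Sd (cardOf (cay D) 0)).charpoly)
    {d : A → ZMod 2}
    (hd : ∀ a b, a ≠ 0 → b ≠ 0 → T H' 0 a b = T (cay D) 0 a b + d a + d b) :
    ∀ a, a ≠ 0 → d (-a) = d a := by
  obtain ⟨K, hKT, hK0, hKab, hcol⟩ := column_cay D hoff hc hcard hd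
  have hkey : ∀ χ : AddChar A ℂ, ∑ a, abSg (d a) * Sd (cay D) 0 a * (χ a).im = 0 := by
    intro χ
    refine orth (A := Sd (cay D)) (B := Sd K) (ab_symm _) (ab_symm _) 0 (ε := fun a => abSg (d a))
      (fun a => ab_sq _) ?_ ?_ hcol (θ := ∑ c, Sd (cay D) 0 c * (χ c).re)
      (f := fun a => (χ a).im) (g := fun a => (χ a).re) ?_ ?_ ?_ ?_
    · intro a b ha hb
      rw [ab_Sd, ab_Sd]
      by_cases h : a = b
      · rw [if_pos h, if_pos h, mul_zero]
      · rw [if_neg h, if_neg h, hKab a b ha hb h, ab_add, ab_add]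
        ring
    · intro a
      rw [ab_Sd, ab_Sd, hK0]
    · funext a
      show ∑ b, Sd (cay D) a b * (χ b).im = _
      rw [sum_congr rfl fun b _ => by rw [ab_shift D a b]]
      exact eig_im (fun c => Sd (cay D) 0 c) (ab_even D) χ a
    · show (χ 0).im = 0
      rw [AddChar.map_zero_eq_one]
      rfl
    · funext a
      show ∑ b, Sd (cay D) a b * (χ b).re = _
      rw [sum_congr rfl fun b _ => by rw [ab_shift D a b]]
      exact eig_re (fun c => Sd (cay D) 0 c) (ab_even D) χ a
    · show (χ 0).re ≠ 0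
      rw [AddChar.map_zero_eq_one]
      norm_num
  have hh : (fun a => abSg (d a) * Sd (cay D) 0 a - abSg (d (-a)) * Sd (cay D) 0 a) = 0 := by
    refine odd_zero _ ?_ ?_
    · intro a
      show abSg (d (-a)) * Sd (cay D) 0 (-a) - abSg (d (- -a)) * Sd (cay D) 0 (-a) =
        -(abSg (d a) * Sd (cay D) 0 a - abSg (d (-a)) * Sd (cay D) 0 a)
      rw [neg_neg, ab_even]
      ring
    · intro χ
      have e1 : ∀ a, (abSg (d a) * Sd (cay D) 0 a - abSg (d (-a)) * Sd (cay D) 0 a) * (χ a).im =
          abSg (d a) * Sd (cay D) 0 a * (χ a).im +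
            abSg (d (-a)) * Sd (cay D) 0 (-a) * (χ (-a)).im := by
        intro a
        rw [AddChar.map_neg_eq_conj, Complex.conj_im, ab_even]
        ring
      have e2 : ∑ a, abSg (d (-a)) * Sd (cay D) 0 (-a) * (χ (-a)).im =
          ∑ a, abSg (d a) * Sd (cay D) 0 a * (χ a).im :=
        Equiv.sum_comp (Equiv.neg A) (fun a => abSg (d a) * Sd (cay D) 0 a * (χ a).im)
      rw [sum_congr rfl fun a _ => e1 a, sum_add_distrib, e2, hkey χ, add_zero]
  intro a ha
  have h1 : abSg (d a) * Sd (cay D) 0 a - abSg (d (-a)) * Sd (cay D) 0 a = 0 := congrFun hh a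
  have h2 : Sd (cay D) 0 a ≠ 0 := by
    rw [ab_Sd, if_neg fun h => ha h.symm]
    intro h3
    have h4 := ab_sq (s (cay D) 0 a)
    rw [h3, mul_zero] at h4
    exact zero_ne_one h4
  have h3 : abSg (d (-a)) = abSg (d a) := by
    have h4 : (abSg (d a) - abSg (d (-a))) * Sd (cay D) 0 a = 0 := by
      rw [sub_mul]
      exact h1
    rcases mul_eq_zero.1 h4 with h5 | h5
    · linarith
    · exact absurd h5 h2
  exact ab_inj h3

end RGC
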