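import Pool.Agent.RGC.SeiR

/-!
# RGC: abelian Cayley graphs of odd order: the hypotheses at the vertex `0`
-/

set_option autoImplicit false

namespace RGC

open Finset
open scoped Classical

variable {V W : Type}

private theorem ah_adj {A : Type} [AddCommGroup A] (D : Set A) (a b x : A) :
    (cay D).Adj (a + x) (b + x) ↔ (cay D).Adj a b := by
  show (a + x ≠ b + x ∧ ((b + x) - (a + x) ∈ D ∨ (a + x) - (b + x) ∈ D)) ↔
    (a ≠ b ∧ (b - a ∈ D ∨ a - b ∈ D))
  rw [add_sub_add_right_eq_sub, add_sub_add_right_eq_sub, Ne, add_left_inj]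

private theorem ah_T {A : Type} [AddCommGroup A] (D : Set A) (a b c x : A) :
    T (cay D) (a + x) (b + x) (c + x) = T (cay D) a b c := by
  unfold T s
  simp only [ah_adj]

private theorem ah_sd [Fintype V] [Fintype W] [iV : DecidableEq V] [iW : DecidableEq W]
    {G : SimpleGraph V} {H : SimpleGraph W} (h : SwEq G H) :
    (Sd G).charpoly = (Sd H).charpoly := by
  have e1 : iV = fun a b => Classical.propDecidable (a = b) := Subsingleton.elim _ _
  have e2 : iW = fun a b => Classical.propDecidable (a = b) := Subsingleton.elim _ _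
  subst e1
  subst e2
  exact sd_swEq h

theorem cay_reg {A : Type} [AddCommGroup A] [Fintype A] (D : Set A) (v : A) :
    ((cay D).neighborSet v).ncard = ((cay D).neighborSet 0).ncard := by
  have e : (cay D).neighborSet v = (fun a => a + v) '' (cay D).neighborSet 0 := by
    ext b
    rw [Set.mem_image]
    constructor
    · intro h
      refine ⟨b - v, ?_, sub_add_cancel b v⟩
      rw [SimpleGraph.mem_neighborSet] at h ⊢
      have h1 := ah_adj D 0 (b - v) v
      rw [zero_add, sub_add_cancel] at h1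
      exact h1.1 h
    · rintro ⟨a, ha, rfl⟩
      rw [SimpleGraph.mem_neighborSet] at ha ⊢
      have h1 := ah_adj D 0 a v
      rw [zero_add] at h1
      exact h1.2 ha
  rw [e, Set.ncard_image_of_injective _ (add_left_injective v)]

theorem cay_card {A : Type} [AddCommGroup A] (D : Set A) (a : A) :
    SwEq (cardOf (cay D) a) (cardOf (cay D) 0) := by
  have h := card_congr (G := cay D) (G' := cay D) (Equiv.addRight a)
    (fun x y z => ah_T D x y z a) 0
  have e : (Equiv.addRight a) (0 : A) = a := zero_add a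
  rw [e] at h
  exact h.symm

theorem hyp {A : Type} [AddCommGroup A] [Fintype A] (hn : 10 ≤ Fintype.card A)
    (hodd : Odd (Fintype.card A)) (D : Set A) {H : SimpleGraph A} (h : DeckEq (cay D) H) (y : A) :
    ∃ H' : SimpleGraph A, ∃ e : Equiv.Perm A,
      (∀ a b c, T H (e a) (e b) (e c) = T H' a b c) ∧ e 0 = y ∧ OffEq (cay D) H' 0 ∧
      (Sd (cay D)).charpoly = (Sd H').charpoly ∧
      ∀ a, (Sd (cardOf H' a)).charpoly = (Sd (cardOf (cay D) 0)).charpoly := by
  obtain ⟨π, hπ⟩ := transport h
  obtain ⟨H1, e1, he1, hoff1⟩ := hπ (π.symm y)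
  rw [Equiv.apply_symm_apply] at he1
  obtain ⟨x, hx⟩ : ∃ x, x = π.symm y := ⟨_, rfl⟩
  rw [← hx] at he1 hoff1
  have hT : ∀ a b c, T H ((Equiv.addRight x).trans e1.toEquiv a)
      ((Equiv.addRight x).trans e1.toEquiv b) ((Equiv.addRight x).trans e1.toEquiv c) =
      T (H1.comap (fun a => a + x)) a b c := fun a b c => T_iso e1 (a + x) (b + x) (c + x)
  have hs : SwEq (H1.comap (fun a => a + x)) H :=
    swEq_iff.2 ⟨(Equiv.addRight x).trans e1.toEquiv, hT⟩
  refine ⟨H1.comap (fun a => a + x), (Equiv.addRight x).trans e1.toEquiv, hT, ?_, ?_, ?_, ?_⟩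
  · show e1 (0 + x) = y
    rw [zero_add, he1]
  · intro a b c ha hb hc
    have h1 : ∀ u : A, u ≠ 0 → u + x ≠ x := fun u hu h2 => hu (add_eq_right.1 h2)
    show T H1 (a + x) (b + x) (c + x) = T (cay D) a b c
    rw [hoff1 _ _ _ (h1 a ha) (h1 b hb) (h1 c hc), ah_T]
  · rw [charpoly_eq hn hodd h (cay_reg D)]
    exact (sd_swEq hs).symm
  · intro a
    obtain ⟨π0, hπ0⟩ := h
    have h1 := hπ0 (π0.symm ((Equiv.addRight x).trans e1.toEquiv a))
    rw [Equiv.apply_symm_apply] at h1
    have h2 := card_congr ((Equiv.addRight x).trans e1.toEquiv) hT a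
    exact ah_sd (h2.trans (h1.symm.trans (cay_card D _)))

end RGC
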