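import Mathlib

/-!
# RGC: the column lemma (Mathlib only)

MODULE Col. Plan. Work in matrices over `PowerSeries ℝ` (a domain). `M_A = 1 - X • A`,
`R_A = ∑ X^j A^j = M_A⁻¹` (entry `(a,b)`: `PowerSeries.mk fun j => (A^j) a b`; check
`M_A * R_A = 1` coefficientwise). `q_A = det M_A` is the (image of the) reversed charpoly
(`Matrix.charpolyRev`, `Matrix.reverse_charpoly`), so `q_A = q_B`; similarly the determinants
`q_A^a` of the matrices with row and column `a` removed: by hypothesis all are equal, for `A` and for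
`B`. (1) `(R_A) a a * q_A = q_A^a` (Cramer: the `(a,a)` entry of the adjugate is the minor). So
`(R_B) a a = (R_A) a a` for all `a` (`q_A` has constant coefficient `1`). (2) Let
`N_A a b = R_A v v * R_A a b - R_A a v * R_A v b` for `a, b ≠ v`. From `M_A R_A = 1`:
`∑_{c ≠ v} M_A a c * N_A c b = R_A v v * δ_ab`, so `N_A = R_A v v • (M_A off v)⁻¹`. As
`M_B off v = D (M_A off v) D` with `D = diag ε`, `D² = 1`, and `R_B v v = R_A v v`:
`N_B = D N_A D`, in particular `N_B a a = N_A a a` for `a ≠ v`. Hence
`(R_B a v)² = (R_A a v)²` (symmetry of `R`), so `R_B a v = ± R_A a v`, and the coefficient of `X`,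
`B a v = A a v ≠ 0`, forces the sign `+`. For `a = v` use (1). Compare coefficients.
-/

set_option autoImplicit false

namespace RGC

open Finset Polynomial
open scoped Classical

variable {V W : Type}

private theorem col_adj_diag [Fintype V] (A : Matrix V V ℝ) (a : V) :
    (Matrix.adjugate (Matrix.charmatrix A)) a a =
      (A.submatrix (Subtype.val : {x : V // x ≠ a} → V) Subtype.val).charpoly := by
  rw [Matrix.adjugate_apply, Matrix.twoBlockTriangular_det' _ (fun i => i = a)]
  · have hs : Subsingleton {i : V // i = a} := ⟨fun x y => Subtype.ext (x.2.trans y.2.symm)⟩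
    have h1 : (Matrix.toSquareBlockProp ((Matrix.charmatrix A).updateRow a
        (Pi.single a 1)) (fun i => i = a)) ⟨a, rfl⟩ ⟨a, rfl⟩ = 1 := by
      show ((Matrix.charmatrix A).updateRow a (Pi.single a 1)) a a = 1
      rw [Matrix.updateRow_self, Pi.single_eq_same]
    have h2 : ∀ (i1 : DecidableEq {i : V // i = a}) (i2 : Fintype {i : V // i = a}),
        @Matrix.det _ i1 i2 ℝ[X] _ (Matrix.toSquareBlockProp ((Matrix.charmatrix A).updateRow a
        (Pi.single a 1)) (fun i => i = a)) = 1 := fun i1 i2 =>
      (@Matrix.det_eq_elem_of_subsingleton _ i1 i2 _ _ hs _ (⟨a, rfl⟩ : {i : V // i = a})).trans h1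
    rw [h2, one_mul]
    unfold Matrix.charpoly
    congr 1
    ext1 i j
    have hi : (i : V) ≠ a := i.2
    show ((Matrix.charmatrix A).updateRow a (Pi.single a 1)) (i : V) (j : V) =
      Matrix.charmatrix (A.submatrix (Subtype.val : {x : V // x ≠ a} → V) Subtype.val) i j
    rw [Matrix.updateRow_ne hi]
    by_cases hij : i = j
    · rw [hij, Matrix.charmatrix_apply_eq, Matrix.charmatrix_apply_eq, Matrix.submatrix_apply]
    · rw [Matrix.charmatrix_apply_ne _ _ _ hij, Matrix.charmatrix_apply_ne, Matrix.submatrix_apply]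
      exact fun h => hij (Subtype.ext h)
  · intro i hi j hj
    rw [hi, Matrix.updateRow_self, Pi.single_eq_of_ne hj]

private theorem col_symm [Fintype V] {A : Matrix V V ℝ} (hA : A.IsSymm) (a b : V) :
    (Matrix.adjugate (Matrix.charmatrix A)) a b = (Matrix.adjugate (Matrix.charmatrix A)) b a := by
  have h : (Matrix.charmatrix A).transpose = Matrix.charmatrix A := by
    rw [← Matrix.charmatrix_transpose, hA.eq]
  have h2 := Matrix.adjugate_transpose (Matrix.charmatrix A)
  rw [h] at h2
  rw [← h2]
  exact (congrFun (congrFun h2 b) a) ▸ rfl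

/-- the relation for the matrix with row and column `v` removed -/
private theorem col_N [Fintype V] (A : Matrix V V ℝ) (v : V) {c p : ℝ[X]}
    (hp : A.charpoly = p) (hc : (Matrix.adjugate (Matrix.charmatrix A)) v v = c)
    (a b : {x : V // x ≠ v}) :
    ∑ x : {x : V // x ≠ v}, Matrix.charmatrix A a x *
      (c * (Matrix.adjugate (Matrix.charmatrix A)) x b -
        (Matrix.adjugate (Matrix.charmatrix A)) x v * (Matrix.adjugate (Matrix.charmatrix A)) v b) =
      if a = b then p * c else 0 := by
  obtain ⟨P, hP⟩ : ∃ P, P = Matrix.adjugate (Matrix.charmatrix A) := ⟨_, rfl⟩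
  have hm : Matrix.charmatrix A * P = p • (1 : Matrix V V ℝ[X]) := by
    rw [hP, Matrix.mul_adjugate, ← hp]
    rfl
  rw [← hP] at hc ⊢
  have e : ∀ x y : V, ∑ z, Matrix.charmatrix A x z * P z y = if x = y then p else 0 := by
    intro x y
    have := congrFun (congrFun hm x) y
    rw [Matrix.mul_apply, Matrix.smul_apply, Matrix.one_apply, smul_eq_mul] at this
    rw [this]
    split_ifs <;> simp
  have hs := Fintype.sum_eq_add_sum_subtype_ne (fun x : V => Matrix.charmatrix A a x *
      (c * P x b - P x v * P v b)) v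
  rw [hc, sub_self, mul_zero, zero_add] at hs
  rw [← hs]
  have h1 : ∀ x : V, Matrix.charmatrix A a x * (c * P x b - P x v * P v b) =
      c * (Matrix.charmatrix A a x * P x b) - (Matrix.charmatrix A a x * P x v) * P v b := by
    intro x; ring
  simp only [h1]
  rw [Finset.sum_sub_distrib, ← Finset.mul_sum, ← Finset.sum_mul, e, e, if_neg a.2, zero_mul, sub_zero]
  by_cases hab : a = b
  · rw [if_pos (congrArg Subtype.val hab), if_pos hab, mul_comm]
  · rw [if_neg (fun h => hab (Subtype.ext h)), if_neg hab, mul_zero]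

/-- coefficients of the adjugate -/
private theorem col_mul [Fintype V] (A : Matrix V V ℝ) :
    (X - C A) * matPolyEquiv (Matrix.adjugate (Matrix.charmatrix A)) =
      A.charpoly.map (algebraMap ℝ (Matrix V V ℝ)) := by
  have h : A.charpoly • (1 : Matrix V V ℝ[X]) =
      Matrix.charmatrix A * Matrix.adjugate (Matrix.charmatrix A) :=
    (Matrix.mul_adjugate _).symm
  apply_fun matPolyEquiv at h
  simp only [map_mul, Matrix.matPolyEquiv_charmatrix] at h
  rw [matPolyEquiv_smul_one] at h
  exact h.symm

private theorem col_rec [Fintype V] (A : Matrix V V ℝ) (k : ℕ) (a v : V) :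
    ((Matrix.adjugate (Matrix.charmatrix A)) a v).coeff k -
      ∑ x, A a x * ((Matrix.adjugate (Matrix.charmatrix A)) x v).coeff (k + 1) =
      if a = v then A.charpoly.coeff (k + 1) else 0 := by
  have h := congrArg (fun q : (Matrix V V ℝ)[X] => q.coeff (k + 1) a v) (col_mul A)
  simp only [sub_mul, coeff_sub, coeff_X_mul, coeff_C_mul, Matrix.sub_apply,
    matPolyEquiv_coeff_apply, coeff_map, Matrix.mul_apply, Matrix.algebraMap_matrix_apply] at h
  rw [h]
  rfl

private theorem col_rec0 [Fintype V] (A : Matrix V V ℝ) (a v : V) :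
    - ∑ x, A a x * ((Matrix.adjugate (Matrix.charmatrix A)) x v).coeff 0 =
      if a = v then A.charpoly.coeff 0 else 0 := by
  have h := congrArg (fun q : (Matrix V V ℝ)[X] => q.coeff 0 a v) (col_mul A)
  simp only [sub_mul, coeff_sub, coeff_X_mul_zero, coeff_C_mul, Matrix.sub_apply,
    matPolyEquiv_coeff_apply, coeff_map, Matrix.mul_apply, Matrix.algebraMap_matrix_apply,
    Matrix.zero_apply, zero_sub] at h
  rw [h]
  rfl

private theorem col_top [Fintype V] [Nonempty V] (A : Matrix V V ℝ) (a v : V) :
    ((Matrix.adjugate (Matrix.charmatrix A)) a v).coeff (Fintype.card V - 1) =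
      if a = v then 1 else 0 := by
  obtain ⟨Q, hQ⟩ : ∃ Q, Q = matPolyEquiv (Matrix.adjugate (Matrix.charmatrix A)) := ⟨_, rfl⟩
  have h := col_mul A
  rw [← hQ] at h
  have hm : (A.charpoly.map (algebraMap ℝ (Matrix V V ℝ))).Monic :=
    (Matrix.charpoly_monic A).map _
  have hX : (X - C A).Monic := monic_X_sub_C A
  have hQ0 : Q ≠ 0 := by
    intro h0
    rw [h0, mul_zero] at h
    exact hm.ne_zero h.symm
  have hd : (A.charpoly.map (algebraMap ℝ (Matrix V V ℝ))).natDegree = Fintype.card V := by
    rw [(Matrix.charpoly_monic A).natDegree_map, Matrix.charpoly_natDegree_eq_dim]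
  have h1 : Q.natDegree = Fintype.card V - 1 := by
    have := hX.natDegree_mul' hQ0
    rw [h, hd, natDegree_X_sub_C] at this
    omega
  have h2 : Q.leadingCoeff = 1 := by
    have := leadingCoeff_monic_mul (p := X - C A) (q := Q) hX
    rw [h, hm.leadingCoeff] at this
    exact this.symm
  have h3 : Q.coeff (Fintype.card V - 1) = 1 := by
    rw [← h1]; exact h2
  have h4 := congrFun (congrFun h3 a) v
  rw [hQ, matPolyEquiv_coeff_apply, Matrix.one_apply] at h4
  exact h4

theorem column [Fintype V] {A B : Matrix V V ℝ} (hA : A.IsSymm) (hB : B.IsSymm)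
    (hc : A.charpoly = B.charpoly) (v : V)
    (hAa : ∀ a, (A.submatrix (Subtype.val : {x : V // x ≠ a} → V) Subtype.val).charpoly =
      (A.submatrix (Subtype.val : {x : V // x ≠ v} → V) Subtype.val).charpoly)
    (hBa : ∀ a, (B.submatrix (Subtype.val : {x : V // x ≠ a} → V) Subtype.val).charpoly =
      (A.submatrix (Subtype.val : {x : V // x ≠ v} → V) Subtype.val).charpoly)
    {ε : V → ℝ} (hε : ∀ a, ε a * ε a = 1)
    (hoff : ∀ a b, a ≠ v → b ≠ v → B a b = ε a * ε b * A a b)
    (hv : ∀ a, B v a = A v a) (hne : ∀ a, a ≠ v → A v a ≠ 0) (j : ℕ) (a : V) :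
    (B ^ j) a v = (A ^ j) a v := by
  have hne' : Nonempty V := ⟨v⟩
  obtain ⟨PA, hPA⟩ : ∃ P, P = Matrix.adjugate (Matrix.charmatrix A) := ⟨_, rfl⟩
  obtain ⟨PB, hPB⟩ : ∃ P, P = Matrix.adjugate (Matrix.charmatrix B) := ⟨_, rfl⟩
  obtain ⟨c, hcd⟩ : ∃ c, c = (A.submatrix (Subtype.val : {x : V // x ≠ v} → V)
    Subtype.val).charpoly := ⟨_, rfl⟩
  have dA : ∀ x, PA x x = c := fun x => by rw [hPA, col_adj_diag, hAa x, hcd]
  have dB : ∀ x, PB x x = c := fun x => by rw [hPB, col_adj_diag, hBa x, hcd]
  have sA : ∀ x y, PA x y = PA y x := fun x y => by rw [hPA]; exact col_symm hA x y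
  have sB : ∀ x y, PB x y = PB y x := fun x y => by rw [hPB]; exact col_symm hB x y
  have nA := fun x y => col_N A v rfl (hPA ▸ dA v) x y
  have nB := fun x y => col_N B v rfl (hPB ▸ dB v) x y
  rw [← hPA] at nA
  rw [← hPB] at nB
  rw [← hc] at nB
  -- the twisted matrix
  have hM : ∀ x y : {x : V // x ≠ v}, Matrix.charmatrix B x y =
      C (ε x) * Matrix.charmatrix A x y * C (ε y) := by
    intro x y
    have h1 := hoff x y x.2 y.2
    by_cases hxy : (x : V) = y
    · rw [hxy, Matrix.charmatrix_apply_eq, Matrix.charmatrix_apply_eq]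
      rw [hxy] at h1
      have h2 : B (y : V) y = A (y : V) y := by rw [h1, hε, one_mul]
      have h3 : (C (ε y) : ℝ[X]) * C (ε y) = 1 := by rw [← C_mul, hε, C_1]
      rw [h2]
      calc X - C (A (y : V) y) = (C (ε y) * C (ε y)) * (X - C (A (y : V) y)) := by rw [h3, one_mul]
        _ = _ := by ring
    · rw [Matrix.charmatrix_apply_ne _ _ _ hxy, Matrix.charmatrix_apply_ne _ _ _ hxy, h1]
      simp only [C_mul]
      ring
  have hεC : ∀ x, (C (ε x) : ℝ[X]) * C (ε x) = 1 := fun x => by rw [← C_mul, hε, C_1]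
  have hN : ∀ x y : {x : V // x ≠ v}, c * PB x y - PB x v * PB v y =
      C (ε x) * (c * PA x y - PA x v * PA v y) * C (ε y) := by
    intro x y
    obtain ⟨w, hw⟩ : ∃ w : {x : V // x ≠ v} → ℝ[X], w = fun x : {x : V // x ≠ v} =>
      (c * PB x y - PB x v * PB v y) - C (ε x) * (c * PA x y - PA x v * PA v y) * C (ε y) := ⟨_, rfl⟩
    have hdet : ((Matrix.charmatrix B).submatrix (Subtype.val : {x : V // x ≠ v} → V)
        Subtype.val).det ≠ 0 := by
      have h1 : (Matrix.charmatrix B).submatrix (Subtype.val : {x : V // x ≠ v} → V)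
          Subtype.val = Matrix.charmatrix (B.submatrix (Subtype.val : {x : V // x ≠ v} → V)
          Subtype.val) := by
        ext1 i j
        by_cases hij : i = j
        · rw [hij, Matrix.submatrix_apply, Matrix.charmatrix_apply_eq, Matrix.charmatrix_apply_eq,
            Matrix.submatrix_apply]
        · rw [Matrix.submatrix_apply, Matrix.charmatrix_apply_ne _ _ _ hij,
            Matrix.charmatrix_apply_ne, Matrix.submatrix_apply]
          exact fun h => hij (Subtype.ext h)
      rw [h1]
      exact (Matrix.charpoly_monic _).ne_zero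
    have hz : w = 0 := by
      refine Matrix.eq_zero_of_mulVec_eq_zero hdet ?_
      funext z
      have hA1 : ∑ x : {x : V // x ≠ v}, Matrix.charmatrix B z x *
          (C (ε x) * (c * PA x y - PA x v * PA v y) * C (ε y)) =
          if z = y then A.charpoly * c else 0 := by
        have h1 : ∀ x : {x : V // x ≠ v}, Matrix.charmatrix B z x *
            (C (ε x) * (c * PA x y - PA x v * PA v y) * C (ε y)) =
            C (ε z) * C (ε y) * (Matrix.charmatrix A z x * (c * PA x y - PA x v * PA v y)) := by
          intro x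
          rw [hM]
          calc C (ε z) * Matrix.charmatrix A z x * C (ε x) *
                (C (ε x) * (c * PA x y - PA x v * PA v y) * C (ε y)) =
                (C (ε x) * C (ε x)) * (C (ε z) * C (ε y) *
                  (Matrix.charmatrix A z x * (c * PA x y - PA x v * PA v y))) := by ring
            _ = _ := by rw [hεC, one_mul]
        simp only [h1]
        rw [← Finset.mul_sum, nA]
        by_cases hzy : z = y
        · rw [if_pos hzy, hzy, hεC, one_mul]
        · rw [if_neg hzy, mul_zero]
      rw [Matrix.mulVec, dotProduct, Pi.zero_apply]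
      simp only [hw, Matrix.submatrix_apply, mul_sub]
      rw [Finset.sum_sub_distrib]
      have h5 := nB z y
      simp only [mul_sub] at h5 hA1
      rw [h5, hA1, sub_self]
    have := congrFun hz x
    rw [hw] at this
    exact sub_eq_zero.mp this
  -- the columns are equal
  have hcol : ∀ x, PB x v = PA x v := by
    intro x
    by_cases hx : x = v
    · rw [hx, dB, dA]
    have h1 := hN ⟨x, hx⟩ ⟨x, hx⟩
    simp only at h1
    rw [dB, dA, sB v x, sA v x] at h1
    have h2 : PB x v * PB x v = PA x v * PA x v := by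
      have h3 : C (ε x) * (c * c - PA x v * PA x v) * C (ε x) =
          (C (ε x) * C (ε x)) * (c * c - PA x v * PA x v) := by ring
      rw [h3, hεC, one_mul] at h1
      linear_combination -h1
    rcases mul_self_eq_mul_self_iff.mp h2 with h3 | h3
    · exact h3
    exfalso
    obtain ⟨n, hn⟩ : ∃ n, Fintype.card V = n + 2 := by
      have : 1 < Fintype.card V := Fintype.one_lt_card_iff.mpr ⟨x, v, hx⟩
      exact ⟨Fintype.card V - 2, by omega⟩
    have hn1 : Fintype.card V - 1 = n + 1 := by omega
    have co : ∀ M : Matrix V V ℝ, ((Matrix.adjugate (Matrix.charmatrix M)) x v).coeff n = M x v := by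
      intro M
      have k1 := col_rec M n x v
      rw [if_neg hx, sub_eq_zero] at k1
      rw [k1]
      have k2 : ∀ z, ((Matrix.adjugate (Matrix.charmatrix M)) z v).coeff (n + 1) =
          if z = v then 1 else 0 := by
        intro z
        rw [← hn1]
        exact col_top M z v
      simp only [k2, mul_ite, mul_one, mul_zero, Finset.sum_ite_eq', Finset.mem_univ, if_true]
    have k3 := co B
    have k4 := co A
    rw [← hPB, h3, coeff_neg, hPA, k4] at k3
    have k5 : B x v = A x v := by
      have e1 : B x v = B v x := hB.apply v x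
      have e2 : A x v = A v x := hA.apply v x
      rw [e1, e2]; exact hv x
    have k6 : A x v ≠ 0 := by
      have e2 : A x v = A v x := hA.apply v x
      rw [e2]; exact hne x hx
    rw [k5] at k3
    exact k6 (by linarith)
  -- Krylov spaces
  obtain ⟨u, hu⟩ : ∃ u : ℕ → V → ℝ, u = fun k x => (PA x v).coeff k := ⟨_, rfl⟩
  have uB : ∀ k x, u k x = (PB x v).coeff k := fun k x => by rw [hu, hcol]
  obtain ⟨e, he⟩ : ∃ e : V → ℝ, e = fun x => if x = v then 1 else 0 := ⟨_, rfl⟩
  have rA : ∀ k, A.mulVec (u (k + 1)) = u k - A.charpoly.coeff (k + 1) • e := by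
    intro k
    funext x
    have := col_rec A k x v
    rw [← hPA] at this
    simp only [Matrix.mulVec, dotProduct, Pi.sub_apply, Pi.smul_apply, smul_eq_mul, hu, he]
    rw [mul_ite, mul_one, mul_zero]
    linarith
  have rB : ∀ k, B.mulVec (u (k + 1)) = u k - A.charpoly.coeff (k + 1) • e := by
    intro k
    funext x
    have := col_rec B k x v
    rw [← hPB, ← hc] at this
    simp only [Matrix.mulVec, dotProduct, Pi.sub_apply, Pi.smul_apply, smul_eq_mul, uB, he]
    rw [mul_ite, mul_one, mul_zero]
    linarith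
  have rA0 : A.mulVec (u 0) = - (A.charpoly.coeff 0 • e) := by
    funext x
    have := col_rec0 A x v
    rw [← hPA] at this
    simp only [Matrix.mulVec, dotProduct, Pi.neg_apply, Pi.smul_apply, smul_eq_mul, hu, he]
    rw [mul_ite, mul_one, mul_zero]
    linarith
  have rB0 : B.mulVec (u 0) = - (A.charpoly.coeff 0 • e) := by
    funext x
    have := col_rec0 B x v
    rw [← hPB, ← hc] at this
    simp only [Matrix.mulVec, dotProduct, Pi.neg_apply, Pi.smul_apply, smul_eq_mul, uB, he]
    rw [mul_ite, mul_one, mul_zero]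
    linarith
  have hAB : ∀ k, B.mulVec (u k) = A.mulVec (u k) := by
    intro k
    cases k with
    | zero => rw [rA0, rB0]
    | succ k => rw [rA, rB]
  have htop : u (Fintype.card V - 1) = e := by
    funext x
    rw [hu, he, hPA]
    exact col_top A x v
  obtain ⟨U, hU⟩ : ∃ U : Submodule ℝ (V → ℝ), U = Submodule.span ℝ (Set.range u) := ⟨_, rfl⟩
  have uU : ∀ k, u k ∈ U := fun k => by rw [hU]; exact Submodule.subset_span ⟨k, rfl⟩
  have eU : e ∈ U := by rw [← htop]; exact uU _
  have hinv : ∀ x ∈ U, A.mulVec x ∈ U ∧ B.mulVec x = A.mulVec x := by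
    intro x hx
    rw [hU] at hx
    induction hx using Submodule.span_induction with
    | mem x hx =>
      obtain ⟨k, rfl⟩ := hx
      refine ⟨?_, hAB k⟩
      cases k with
      | zero => rw [rA0]; exact U.neg_mem (U.smul_mem _ eU)
      | succ k => rw [rA]; exact U.sub_mem (uU k) (U.smul_mem _ eU)
    | zero => rw [Matrix.mulVec_zero, Matrix.mulVec_zero]; exact ⟨U.zero_mem, rfl⟩
    | add x y _ _ hx hy =>
      rw [Matrix.mulVec_add, Matrix.mulVec_add, hx.2, hy.2]
      exact ⟨U.add_mem hx.1 hy.1, rfl⟩
    | smul r x _ hx =>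
      rw [Matrix.mulVec_smul, Matrix.mulVec_smul, hx.2]
      exact ⟨U.smul_mem _ hx.1, rfl⟩
  have hfin : ∀ j : ℕ, (A ^ j).mulVec e ∈ U ∧ (B ^ j).mulVec e = (A ^ j).mulVec e := by
    intro j
    induction j with
    | zero =>
      rw [pow_zero, pow_zero, Matrix.one_mulVec]
      exact ⟨eU, rfl⟩
    | succ j ih =>
      rw [pow_succ', pow_succ', ← Matrix.mulVec_mulVec, ← Matrix.mulVec_mulVec, ih.2]
      exact hinv _ ih.1
  have hent : ∀ M : Matrix V V ℝ, M.mulVec e a = M a v := by
    intro M
    rw [Matrix.mulVec, dotProduct, he]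
    simp
  calc (B ^ j) a v = (B ^ j).mulVec e a := (hent _).symm
    _ = (A ^ j).mulVec e a := by rw [(hfin j).2]
    _ = (A ^ j) a v := hent _

end RGC
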