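import Pool.Agent.RGC.Sei
import Pool.Agent.RGC.Col

/-!
# RGC: the column lemma for abelian Cayley graphs

MODULE AblK. Plan. Define `K` by `s K 0 a = s (cay D) 0 a`, `s K a b = s (cay D) a b + d a + d b`
for `a, b ≠ 0` distinct (as a graph: `Adj a b := a ≠ b ∧ value = 1`, where the value is
`s (cay D) a b` if `a = 0` or `b = 0` and `s (cay D) a b + d a + d b` otherwise). Then
`T K 0 a b = T (cay D) 0 a b + d a + d b = T H' 0 a b` for distinct `a, b ≠ 0` and
`T K a b c = T (cay D) a b c = T H' a b c` off `0`; the cases with equal vertices by `T_left` etc.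
`A' = Sd (cay D)`, `B = Sd K`: `B 0 a = A' 0 a`, `B a b = ε a ε b A' a b` for `a, b ≠ 0` where
`ε a = 1` if `d a = 0`, else `-1`. `B.charpoly = (Sd H').charpoly = A'.charpoly` (`sd_swEq`,
`swEq_of_T`); the charpolys of the cards of `K` are those of `H'` (`card_congr` with the identity,
`sd_swEq`, `sd_card`), so all equal to that of the card of `cay D` at `0` (`hcard`); for `cay D` all
cards have the same charpoly by translation (`card_congr` with `Equiv.addRight`, `sd_swEq`).
`A' 0 a ≠ 0` for `a ≠ 0`. Apply `column` with `v = 0`.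
-/

set_option autoImplicit false

namespace RGC

open Finset
open scoped Classical

variable {V W : Type}

/-- the adjacency value of `K` -/
private noncomputable def kv {A : Type} [AddCommGroup A] (D : Set A) (d : A → ZMod 2) (a b : A) :
    ZMod 2 :=
  if a = 0 ∨ b = 0 then s (cay D) a b else s (cay D) a b + d a + d b

private theorem kv_comm {A : Type} [AddCommGroup A] (D : Set A) (d : A → ZMod 2) (a b : A) :
    kv D d a b = kv D d b a := by
  unfold kv
  rw [s_comm (cay D) a b]
  by_cases h : a = 0 ∨ b = 0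
  · rw [if_pos h, if_pos h.symm]
  · rw [if_neg h, if_neg (fun h' => h h'.symm)]
    ring

/-- the graph `K` -/
private noncomputable def kg {A : Type} [AddCommGroup A] (D : Set A) (d : A → ZMod 2) :
    SimpleGraph A where
  Adj a b := a ≠ b ∧ kv D d a b = 1
  symm := ⟨fun a b h => ⟨h.1.symm, by rw [kv_comm]; exact h.2⟩⟩
  loopless := ⟨fun _ h => h.1 rfl⟩

private theorem kg_s {A : Type} [AddCommGroup A] (D : Set A) (d : A → ZMod 2) {a b : A}
    (h : a ≠ b) : s (kg D d) a b = kv D d a b := by
  have h1 : (kg D d).Adj a b ↔ kv D d a b = 1 := ⟨fun h' => h'.2, fun h' => ⟨h, h'⟩⟩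
  unfold s
  rcases z2c (kv D d a b) with h0 | h0
  · rw [if_neg (by rw [h1, h0]; decide), h0]
  · rw [if_pos (by rw [h1, h0]), h0]

private theorem kg_s0 {A : Type} [AddCommGroup A] (D : Set A) (d : A → ZMod 2) (a : A) :
    s (kg D d) 0 a = s (cay D) 0 a := by
  by_cases h : (0 : A) = a
  · subst h
    rw [s_self, s_self]
  · rw [kg_s D d h]
    unfold kv
    rw [if_pos (Or.inl rfl)]

private theorem kg_s1 {A : Type} [AddCommGroup A] (D : Set A) (d : A → ZMod 2) {a b : A}
    (ha : a ≠ 0) (hb : b ≠ 0) (h : a ≠ b) : s (kg D d) a b = s (cay D) a b + d a + d b := by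
  rw [kg_s D d h]
  unfold kv
  rw [if_neg (by simp [ha, hb])]

private theorem ablk_T0 {A : Type} [AddCommGroup A] (D : Set A) {H' : SimpleGraph A}
    {d : A → ZMod 2}
    (hd : ∀ a b, a ≠ 0 → b ≠ 0 → T H' 0 a b = T (cay D) 0 a b + d a + d b) (a b : A) :
    T (kg D d) 0 a b = T H' 0 a b := by
  by_cases ha : a = 0
  · subst ha
    rw [T_left, T_left]
  by_cases hb : b = 0
  · subst hb
    rw [T_outer, T_outer]
  by_cases hab : a = b
  · subst hab
    rw [T_right, T_right]
  rw [hd a b ha hb]
  unfold T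
  rw [kg_s0, kg_s0, kg_s1 D d ha hb hab]
  ring

private theorem ablk_T {A : Type} [AddCommGroup A] (D : Set A) {H' : SimpleGraph A}
    (hoff : OffEq (cay D) H' 0) {d : A → ZMod 2}
    (hd : ∀ a b, a ≠ 0 → b ≠ 0 → T H' 0 a b = T (cay D) 0 a b + d a + d b) (a b c : A) :
    T (kg D d) a b c = T H' a b c := by
  by_cases ha : a = 0
  · subst ha
    exact ablk_T0 D hd b c
  by_cases hb : b = 0
  · subst hb
    rw [T_swap, T_swap H']
    exact ablk_T0 D hd a c
  by_cases hc : c = 0
  · subst hc
    rw [← T_rot, ← T_rot H']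
    exact ablk_T0 D hd a b
  rw [hoff a b c ha hb hc]
  by_cases h1 : a = b
  · subst h1; rw [T_left, T_left]
  by_cases h2 : b = c
  · subst h2; rw [T_right, T_right]
  by_cases h3 : a = c
  · subst h3; rw [T_outer, T_outer]
  unfold T
  rw [kg_s1 D d ha hb h1, kg_s1 D d hb hc h2, kg_s1 D d ha hc h3]
  have key : ∀ a b c x y z : ZMod 2, (a + x + y) + (b + y + z) + (c + x + z) = a + b + c := by
    decide
  exact key _ _ _ _ _ _

private theorem sd_val (G : SimpleGraph V) {a b : V} (h : a ≠ b) :
    Sd G a b = if s G a b = 1 then -1 else 1 := by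
  unfold Sd
  rw [if_neg h]
  by_cases h1 : G.Adj a b
  · rw [if_pos h1, if_pos (s_eq_one.2 h1)]
  · rw [if_neg h1, if_neg (fun h2 => h1 (s_eq_one.1 h2))]

private theorem sd_diag (G : SimpleGraph V) (a : V) : Sd G a a = 0 := by
  unfold Sd
  rw [if_pos rfl]

private theorem ablk_inst {U : Type} (f f' : Fintype U) (i j : DecidableEq U)
    (M : Matrix U U ℝ) :
    @Matrix.charpoly ℝ _ U i f M = @Matrix.charpoly ℝ _ U j f' M := by
  have h1 : i = j := Subsingleton.elim i j
  have h2 : f = f' := Subsingleton.elim f f'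
  subst h1
  subst h2
  rfl

private theorem ablk_cards [Fintype V] {G H : SimpleGraph V} {v w : V}
    (h : SwEq (cardOf G v) (cardOf H w)) :
    ((Sd G).submatrix (Subtype.val : {x : V // x ≠ v} → V) Subtype.val).charpoly =
      ((Sd H).submatrix (Subtype.val : {x : V // x ≠ w} → V) Subtype.val).charpoly := by
  have h1 := sd_swEq h
  rw [sd_card, sd_card] at h1
  exact (ablk_inst _ _ _ _ _).trans (h1.trans (ablk_inst _ _ _ _ _))

private theorem ablk_card2 [Fintype V] {G H : SimpleGraph V} {v w : V}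
    (h : (Sd (cardOf G v)).charpoly = (Sd (cardOf H w)).charpoly) :
    ((Sd G).submatrix (Subtype.val : {x : V // x ≠ v} → V) Subtype.val).charpoly =
      ((Sd H).submatrix (Subtype.val : {x : V // x ≠ w} → V) Subtype.val).charpoly :=
  (congrArg Matrix.charpoly (sd_card G v)).symm.trans
    (h.trans (congrArg Matrix.charpoly (sd_card H w)))

private theorem ablk_trans {A : Type} [AddCommGroup A] (D : Set A) (a : A) :
    SwEq (cardOf (cay D) a) (cardOf (cay D) 0) := by
  have h := card_congr (G := cay D) (G' := cay D) (Equiv.addRight (-a)) (fun x y z => by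
    have h1 : ∀ x y, s (cay D) (x + -a) (y + -a) = s (cay D) x y := by
      intro x y
      unfold s cay
      have e1 : (x + -a ≠ y + -a) ↔ x ≠ y := by simp
      have e2 : y + -a - (x + -a) = y - x := by abel
      have e3 : x + -a - (y + -a) = x - y := by abel
      simp only [e1, e2, e3]
      congr
    show T (cay D) (x + -a) (y + -a) (z + -a) = T (cay D) x y z
    unfold T
    rw [h1, h1, h1]) a
  have h2 : (Equiv.addRight (-a)) a = 0 := by simp
  rw [h2] at h
  exact h

/-- the column lemma for `cay D` and the representative of `H'` with the same row at `0` -/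
theorem column_cay {A : Type} [AddCommGroup A] [Fintype A] (D : Set A) {H' : SimpleGraph A}
    (hoff : OffEq (cay D) H' 0) (hc : (Sd (cay D)).charpoly = (Sd H').charpoly)
    (hcard : ∀ a, (Sd (cardOf H' a)).charpoly = (Sd (cardOf (cay D) 0)).charpoly)
    {d : A → ZMod 2}
    (hd : ∀ a b, a ≠ 0 → b ≠ 0 → T H' 0 a b = T (cay D) 0 a b + d a + d b) :
    ∃ K : SimpleGraph A, (∀ a b c, T K a b c = T H' a b c) ∧
      (∀ a, s K 0 a = s (cay D) 0 a) ∧
      (∀ a b, a ≠ 0 → b ≠ 0 → a ≠ b → s K a b = s (cay D) a b + d a + d b) ∧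
      ∀ (j : ℕ) (a : A), (Sd K ^ j) a 0 = (Sd (cay D) ^ j) a 0 := by
  refine ⟨kg D d, ablk_T D hoff hd, kg_s0 D d, fun a b ha hb hab => kg_s1 D d ha hb hab,
    fun j a => ?_⟩
  have hT := ablk_T D hoff hd
  have hsw : SwEq (kg D d) H' := swEq_of_T fun a b c => (hT a b c).symm
  refine column (ε := fun a => if d a = 0 then 1 else -1) (sd_symm _) (sd_symm _)
    (hc.trans (sd_swEq hsw).symm) 0 ?_ ?_ ?_ ?_ ?_ ?_ j a
  · intro a
    exact ablk_cards (ablk_trans D a)
  · intro a
    refine (ablk_cards (card_congr (Equiv.refl A) (fun x y z => (hT x y z).symm) a)).trans ?_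
    exact ablk_card2 (hcard a)
  · intro a
    show (if d a = 0 then (1 : ℝ) else -1) * (if d a = 0 then (1 : ℝ) else -1) = 1
    split_ifs <;> norm_num
  · intro a b ha hb
    show Sd (kg D d) a b = (if d a = 0 then (1 : ℝ) else -1) * (if d b = 0 then (1 : ℝ) else -1) *
      Sd (cay D) a b
    by_cases hab : a = b
    · subst hab
      rw [sd_diag, sd_diag, mul_zero]
    · rw [sd_val _ hab, sd_val _ hab, kg_s1 D d ha hb hab]
      have h01 : (0 : ZMod 2) ≠ 1 := by decide
      have h10 : (1 : ZMod 2) ≠ 0 := by decide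
      have h11 : (1 : ZMod 2) + 1 = 0 := by decide
      rcases z2c (s (cay D) a b) with h | h <;> rcases z2c (d a) with h1 | h1 <;>
        rcases z2c (d b) with h2 | h2 <;> rw [h, h1, h2] <;> simp [h11]
  · intro a
    by_cases ha : (0 : A) = a
    · subst ha
      rw [sd_diag, sd_diag]
    · rw [sd_val _ ha, sd_val _ ha, kg_s0]
  · intro a ha
    rw [sd_val _ (Ne.symm ha)]
    split_ifs <;> norm_num

end RGC
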