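import Pool.Agent.RGC.Defs

/-!
# RGC: a Cayley graph of odd order has no eigenvalue `k - n / 2`

MODULE Intg. Plan. Each value `χ a` is a root of unity (`χ a ^ n = χ (n • a) = χ 0 = 1`,
`card_nsmul_eq_zero`), so `IsIntegral ℤ (χ a)`; hence `cayEig D χ` is integral over `ℤ`. If it were
`k - n / 2` then `(n : ℂ) / 2` would be integral over `ℤ`, so `(n / 2 : ℚ)` would be (descend along
`algebraMap ℚ ℂ`, `isIntegral_algebraMap_iff`), so an integer (`IsIntegrallyClosed.isIntegral_iff` or
`IsInteger_of_is_root...`), contradicting `n` odd.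
-/

set_option autoImplicit false

namespace RGC

open Finset
open scoped Classical

variable {V W : Type}

theorem cayEig_ne {A : Type} [AddCommGroup A] [Fintype A] (hodd : Odd (Fintype.card A))
    (D : Set A) (χ : AddChar A ℂ) (k : ℕ) : cayEig D χ ≠ k - (Fintype.card A : ℂ) / 2 := by
  intro h
  have h1 : IsIntegral ℤ (cayEig D χ) := by
    unfold cayEig
    refine IsIntegral.sum _ fun a _ => ?_
    split_ifs
    · have h2 : (χ a) ^ (Fintype.card A) = 1 := by
        rw [← AddChar.map_nsmul_eq_pow, card_nsmul_eq_zero, AddChar.map_zero_eq_one]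
      exact IsIntegral.of_pow Fintype.card_pos (by rw [h2]; exact isIntegral_one)
    · exact isIntegral_zero
  have h2 : IsIntegral ℤ (algebraMap ℚ ℂ ((Fintype.card A : ℚ) / 2)) := by
    have h3 : algebraMap ℚ ℂ ((Fintype.card A : ℚ) / 2) = algebraMap ℤ ℂ (k : ℤ) - cayEig D χ := by
      rw [h]
      simp
    rw [h3]
    exact isIntegral_algebraMap.sub h1
  rw [isIntegral_algebraMap_iff (algebraMap ℚ ℂ).injective, IsIntegrallyClosed.isIntegral_iff] at h2
  obtain ⟨y, hy⟩ := h2
  obtain ⟨m, hm⟩ := hodd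
  rw [hm] at hy
  have h3 : (2 * y : ℚ) = 2 * m + 1 := by
    have h4 : algebraMap ℤ ℚ y = (y : ℚ) := rfl
    rw [h4] at hy
    rw [hy]
    push_cast
    ring
  have h5 : 2 * y = 2 * (m : ℤ) + 1 := by exact_mod_cast h3
  omega

end RGC
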