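import Pool.Agent.RGC.AblS
import Pool.Agent.RGC.AblH
import Pool.Agent.RGC.Intg

/-!
# RGC: abelian Cayley graphs of odd order whose eigenvalues are distinct up to inversion
-/

set_option autoImplicit false

namespace RGC

open Finset
open scoped Classical

variable {V W : Type}

private theorem am_adj {A : Type} [AddCommGroup A] (D : Set A) (a : A) :
    (cay D).Adj 0 (-a) ↔ (cay D).Adj 0 a := by
  unfold cay
  simp only [sub_zero, zero_sub, neg_neg]
  constructor
  · rintro ⟨h1, h2⟩
    exact ⟨fun h => h1 (by rw [← h, neg_zero]), h2.symm⟩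
  · rintro ⟨h1, h2⟩
    exact ⟨fun h => h1 (by rw [← neg_neg a, ← h, neg_zero]), h2.symm⟩

private theorem am_real {A : Type} [AddCommGroup A] [Fintype A] (D : Set A) (χ : AddChar A ℂ) :
    (cayEig D χ).im = 0 := by
  rw [← Complex.conj_eq_iff_im]
  unfold cayEig
  rw [map_sum]
  rw [← Equiv.sum_comp (Equiv.neg A)]
  refine sum_congr rfl fun a _ => ?_
  rw [Equiv.neg_apply, am_adj]
  split_ifs
  · rw [AddChar.map_neg_eq_conj, Complex.conj_conj]
  · rw [map_zero]

private theorem am_sd {A : Type} [AddCommGroup A] [Fintype A] (D : Set A) (χ : AddChar A ℂ) :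
    ∑ c, Sd (cay D) 0 c * (χ c).re = (∑ c, χ c).re - 1 - 2 * (cayEig D χ).re := by
  have h1 : ∀ c, Sd (cay D) 0 c * (χ c).re =
      (χ c).re - (if c = 0 then 1 else 0) - 2 * (if (cay D).Adj 0 c then χ c else 0).re := by
    intro c
    unfold Sd
    by_cases h0 : c = 0
    · subst h0
      rw [if_pos rfl, if_pos rfl, if_neg ((cay D).loopless.irrefl 0)]
      simp
    · rw [if_neg (Ne.symm h0), if_neg h0]
      split_ifs
      · ring
      · simp
  rw [sum_congr rfl (fun c _ => h1 c), sum_sub_distrib, sum_sub_distrib, ← mul_sum]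
  unfold cayEig
  rw [Complex.re_sum, Complex.re_sum]
  simp

private theorem am_one {A : Type} [AddCommGroup A] [Fintype A] (D : Set A) :
    cayEig D (1 : AddChar A ℂ) = ((univ.filter fun a => (cay D).Adj 0 a).card : ℂ) := by
  unfold cayEig
  rw [card_filter]
  push_cast
  refine sum_congr rfl fun a _ => ?_
  split_ifs
  · exact AddChar.one_apply a
  · rfl

private theorem am_sum_one {A : Type} [AddCommGroup A] [Fintype A] :
    (∑ c, (1 : AddChar A ℂ) c) = (Fintype.card A : ℂ) := by
  simp

private theorem am_sum {A : Type} [AddCommGroup A] [Fintype A] {χ : AddChar A ℂ} (h : χ ≠ 1) :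
    (∑ c, χ c) = 0 :=
  AddChar.sum_eq_zero_iff_ne_zero.2 h

private theorem am_mix {A : Type} [AddCommGroup A] [Fintype A] (hodd : Odd (Fintype.card A))
    (D : Set A) {ψ : AddChar A ℂ} (hψ : ψ ≠ 1)
    (h : ∑ c, Sd (cay D) 0 c * ((1 : AddChar A ℂ) c).re = ∑ c, Sd (cay D) 0 c * (ψ c).re) :
    False := by
  rw [am_sd, am_sd, am_sum hψ, am_sum_one, am_one] at h
  have h2 := am_real D ψ
  apply cayEig_ne hodd D ψ (univ.filter fun a => (cay D).Adj 0 a).card
  apply Complex.ext
  · have h3 : (((univ.filter fun a => (cay D).Adj 0 a).card : ℂ) - (Fintype.card A : ℂ) / 2).re =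
        ((univ.filter fun a => (cay D).Adj 0 a).card : ℝ) - (Fintype.card A : ℝ) / 2 := by
      have : (((univ.filter fun a => (cay D).Adj 0 a).card : ℂ) - (Fintype.card A : ℂ) / 2) =
        ((((univ.filter fun a => (cay D).Adj 0 a).card : ℝ) - (Fintype.card A : ℝ) / 2 : ℝ) : ℂ) := by
        push_cast
        rfl
      rw [this, Complex.ofReal_re]
    rw [h3]
    simp only [Complex.natCast_re, Complex.zero_re] at h
    linarith
  · rw [h2]
    have : (((univ.filter fun a => (cay D).Adj 0 a).card : ℂ) - (Fintype.card A : ℂ) / 2) =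
        ((((univ.filter fun a => (cay D).Adj 0 a).card : ℝ) - (Fintype.card A : ℝ) / 2 : ℝ) : ℂ) := by
      push_cast
      rfl
    rw [this, Complex.ofReal_im]

theorem abl {A : Type} [AddCommGroup A] [Fintype A] (hn : 10 ≤ Fintype.card A)
    (hodd : Odd (Fintype.card A)) (D : Set A)
    (hdist : ∀ χ ψ : AddChar A ℂ, χ ≠ 1 → ψ ≠ 1 → cayEig D χ = cayEig D ψ → ψ = χ ∨ ψ = χ⁻¹)
    {H : SimpleGraph A} (h : DeckEq (cay D) H) : SwEq (cay D) H := by
  obtain ⟨H', e, he, -, hoff, hc, hcard⟩ := hyp hn hodd D h 0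
  have h1 : SwEq (cay D) H' := by
    refine abl_simple hodd D hoff hc hcard fun χ ψ hχψ => ?_
    by_cases h1 : χ = 1
    · by_cases h2 : ψ = 1
      · left; rw [h1, h2]
      · subst h1
        exact absurd (am_mix hodd D h2 hχψ) not_false
    · by_cases h2 : ψ = 1
      · subst h2
        exact absurd (am_mix hodd D h1 hχψ.symm) not_false
      · apply hdist χ ψ h1 h2
        rw [am_sd, am_sd, am_sum h1, am_sum h2] at hχψ
        apply Complex.ext
        · linarith
        · rw [am_real, am_real]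
  exact h1.trans (swEq_iff.2 ⟨e, fun a b c => he a b c⟩)

end RGC
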