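import Pool.Agent.RGC.Chr

/-!
# RGC: the even functions are generated by the columns at `0` (Mathlib only)

The column at `0` of the `j`-th power is `|A|⁻¹ ∑_χ (θ χ)^j Re χ`; polynomials in `θ` separate the pairs `{χ, χ⁻¹}`.
-/

set_option autoImplicit false

namespace RGC

open Finset
open scoped Classical

variable {V W : Type}

private theorem chrE_re {A : Type} [AddCommGroup A] [Fintype A] (χ : AddChar A ℂ) (a : A) :
    (χ (-a)).re = (χ a).re := by
  rw [AddChar.map_neg_eq_conj, Complex.conj_re]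

private theorem chrE_im {A : Type} [AddCommGroup A] [Fintype A] (χ : AddChar A ℂ) (a : A) :
    (χ (-a)).im = -(χ a).im := by
  rw [AddChar.map_neg_eq_conj, Complex.conj_im]

private theorem chrE_sum {A : Type} [AddCommGroup A] [Fintype A] (a : A) :
    ∑ χ : AddChar A ℂ, (χ a).re = if a = 0 then (Fintype.card A : ℝ) else 0 := by
  have h := congrArg Complex.re (AddChar.sum_apply_eq_ite a)
  rw [Complex.re_sum] at h
  rw [h]
  split_ifs
  · exact Complex.natCast_re _
  · exact Complex.zero_re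

/-- the columns at `0` of the powers -/
private theorem chrE_pow {A : Type} [AddCommGroup A] [Fintype A] (σ : A → ℝ)
    (hσ : ∀ a, σ (-a) = σ a) (j : ℕ) (a : A) :
    (Fintype.card A : ℝ) * ((Matrix.of fun a b : A => σ (b - a)) ^ j) a 0 =
      ∑ χ : AddChar A ℂ, (∑ c, σ c * (χ c).re) ^ j * (χ a).re := by
  induction j generalizing a with
  | zero =>
    simp only [pow_zero, one_mul, chrE_sum, Matrix.one_apply]
    split_ifs
    · rw [mul_one]
    · rw [mul_zero]
  | succ j ih =>
    rw [pow_succ', Matrix.mul_apply, Finset.mul_sum]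
    have e1 : ∀ b : A, (Fintype.card A : ℝ) * ((Matrix.of fun a b : A => σ (b - a)) a b *
        ((Matrix.of fun a b : A => σ (b - a)) ^ j) b 0) =
        ∑ χ : AddChar A ℂ, (∑ c, σ c * (χ c).re) ^ j * (σ (b - a) * (χ b).re) := by
      intro b
      have e2 : (Fintype.card A : ℝ) * ((Matrix.of fun a b : A => σ (b - a)) a b *
          ((Matrix.of fun a b : A => σ (b - a)) ^ j) b 0) =
          σ (b - a) * ((Fintype.card A : ℝ) * ((Matrix.of fun a b : A => σ (b - a)) ^ j) b 0) := by
        rw [Matrix.of_apply]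
        ring
      rw [e2, ih b, Finset.mul_sum]
      apply Finset.sum_congr rfl
      intro χ _
      ring
    rw [Finset.sum_congr rfl (fun b _ => e1 b), Finset.sum_comm]
    apply Finset.sum_congr rfl
    intro χ _
    rw [← Finset.mul_sum, eig_re σ hσ χ a, pow_succ]
    ring

/-- separation by polynomials -/
private theorem chrE_sep {ι : Type} [Fintype ι] (θ c : ι → ℝ)
    (h : ∀ j : ℕ, ∑ i, θ i ^ j * c i = 0) (k : ι) :
    ∑ i ∈ univ.filter (fun i => θ i = θ k), c i = 0 := by
  have hP : ∀ P : Polynomial ℝ, ∑ i, P.eval (θ i) * c i = 0 := by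
    intro P
    simp only [Polynomial.eval_eq_sum, Polynomial.sum, Finset.sum_mul]
    rw [Finset.sum_comm]
    apply Finset.sum_eq_zero
    intro j _
    have e : ∀ i, P.coeff j * θ i ^ j * c i = P.coeff j * (θ i ^ j * c i) := fun i => by ring
    rw [Finset.sum_congr rfl (fun i _ => e i), ← Finset.mul_sum, h j, mul_zero]
  set Q : Polynomial ℝ := ∏ t ∈ (univ.image θ).erase (θ k), (Polynomial.X - Polynomial.C t) with hQ
  have hQ0 : ∀ i, θ i ≠ θ k → Q.eval (θ i) = 0 := by
    intro i hi
    rw [hQ, Polynomial.eval_prod]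
    apply Finset.prod_eq_zero (i := θ i)
    · rw [Finset.mem_erase]
      exact ⟨hi, Finset.mem_image_of_mem _ (Finset.mem_univ i)⟩
    · simp
  have hQ1 : Q.eval (θ k) ≠ 0 := by
    rw [hQ, Polynomial.eval_prod, Finset.prod_ne_zero_iff]
    intro t ht
    rw [Finset.mem_erase] at ht
    simp only [Polynomial.eval_sub, Polynomial.eval_X, Polynomial.eval_C]
    exact sub_ne_zero.2 (Ne.symm ht.1)
  have h1 := hP Q
  have h2 : ∑ i, Q.eval (θ i) * c i =
      Q.eval (θ k) * ∑ i ∈ univ.filter (fun i => θ i = θ k), c i := by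
    rw [Finset.mul_sum, Finset.sum_filter]
    apply Finset.sum_congr rfl
    intro i _
    split_ifs with hi
    · rw [hi]
    · rw [hQ0 i hi, zero_mul]
  rw [h2] at h1
  exact (mul_eq_zero.1 h1).resolve_left hQ1

/-- if the eigenvalues of `σ` are distinct up to inversion, then the columns at `0` of the powers of
the matrix span the even functions: an even function orthogonal to all of them is `0` -/
theorem even_zero {A : Type} [AddCommGroup A] [Fintype A] (σ : A → ℝ) (hσ : ∀ a, σ (-a) = σ a)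
    (hdist : ∀ χ ψ : AddChar A ℂ, ∑ c, σ c * (χ c).re = ∑ c, σ c * (ψ c).re → ψ = χ ∨ ψ = χ⁻¹)
    (h : A → ℝ) (heven : ∀ a, h (-a) = h a)
    (horth : ∀ j : ℕ, ∑ a, h a * ((Matrix.of fun a b : A => σ (b - a)) ^ j) a 0 = 0) : h = 0 := by
  set θ : AddChar A ℂ → ℝ := fun χ => ∑ c, σ c * (χ c).re with hθ
  set c : AddChar A ℂ → ℝ := fun χ => ∑ a, h a * (χ a).re with hc
  have h1 : ∀ j : ℕ, ∑ χ, θ χ ^ j * c χ = 0 := by
    intro j
    have e1 : ∑ χ, θ χ ^ j * c χ = ∑ a, h a * ((Fintype.card A : ℝ) *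
        ((Matrix.of fun a b : A => σ (b - a)) ^ j) a 0) := by
      simp only [chrE_pow σ hσ j, hc, hθ, Finset.mul_sum]
      rw [Finset.sum_comm]
      apply Finset.sum_congr rfl
      intro a _
      apply Finset.sum_congr rfl
      intro χ _
      ring
    have e2 : ∑ a, h a * ((Fintype.card A : ℝ) *
        ((Matrix.of fun a b : A => σ (b - a)) ^ j) a 0) = (Fintype.card A : ℝ) *
        ∑ a, h a * ((Matrix.of fun a b : A => σ (b - a)) ^ j) a 0 := by
      rw [Finset.mul_sum]
      apply Finset.sum_congr rfl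
      intro a _
      ring
    rw [e1, e2, horth j, mul_zero]
  have h2 : ∀ ψ : AddChar A ℂ, c ψ = 0 := by
    intro ψ
    have e1 := chrE_sep θ c h1 ψ
    have e2 : ∀ χ ∈ univ.filter (fun χ => θ χ = θ ψ), c χ = c ψ := by
      intro χ hχ
      rw [Finset.mem_filter] at hχ
      rcases hdist χ ψ hχ.2 with e | e
      · rw [e]
      · rw [e, hc]
        apply Finset.sum_congr rfl
        intro a _
        rw [AddChar.inv_apply, chrE_re]
    rw [Finset.sum_congr rfl e2, Finset.sum_const, nsmul_eq_mul] at e1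
    refine (mul_eq_zero.1 e1).resolve_left ?_
    exact Nat.cast_ne_zero.2
      (Finset.card_ne_zero.2 ⟨ψ, Finset.mem_filter.2 ⟨Finset.mem_univ _, rfl⟩⟩)
  have h3 : ∀ χ : AddChar A ℂ, ∑ a, h a * (χ a).im = 0 := by
    intro χ
    have e1 : ∑ a, h a * (χ a).im = ∑ a, h (-a) * (χ (-a)).im :=
      (Equiv.sum_comp (Equiv.neg A) (fun a => h a * (χ a).im)).symm
    have e2 : ∑ a, h (-a) * (χ (-a)).im = -∑ a, h a * (χ a).im := by
      rw [← Finset.sum_neg_distrib]
      apply Finset.sum_congr rfl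
      intro a _
      rw [heven, chrE_im]
      ring
    linarith
  have hcard : (Fintype.card A : ℝ) ≠ 0 := by
    rw [Nat.cast_ne_zero]
    exact Fintype.card_ne_zero
  funext b
  show h b = 0
  have e1 : ∑ a, h a * ∑ χ : AddChar A ℂ, (χ (a - b)).re = h b * (Fintype.card A : ℝ) := by
    rw [Finset.sum_eq_single b]
    · rw [chrE_sum, sub_self, if_pos rfl]
    · intro a _ ha
      rw [chrE_sum, if_neg (sub_ne_zero.2 ha), mul_zero]
    · intro hb
      exact absurd (Finset.mem_univ b) hb
  have e2 : ∑ a, h a * ∑ χ : AddChar A ℂ, (χ (a - b)).re =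
      ∑ χ : AddChar A ℂ, ((χ b).re * c χ + (χ b).im * ∑ a, h a * (χ a).im) := by
    have e3 : ∀ χ : AddChar A ℂ, (χ b).re * c χ + (χ b).im * ∑ a, h a * (χ a).im =
        ∑ a, h a * (χ (a - b)).re := by
      intro χ
      rw [hc]
      simp only [Finset.mul_sum]
      rw [← Finset.sum_add_distrib]
      apply Finset.sum_congr rfl
      intro a _
      rw [sub_eq_add_neg, AddChar.map_add_eq_mul, Complex.mul_re, chrE_re, chrE_im]
      ring
    rw [Finset.sum_congr rfl (fun χ _ => e3 χ), Finset.sum_comm]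
    apply Finset.sum_congr rfl
    intro a _
    rw [Finset.mul_sum]
  have e4 : ∑ χ : AddChar A ℂ, ((χ b).re * c χ + (χ b).im * ∑ a, h a * (χ a).im) = 0 := by
    apply Finset.sum_eq_zero
    intro χ _
    rw [h2 χ, h3 χ, mul_zero, mul_zero, add_zero]
  rw [e1, e4] at e2
  exact (mul_eq_zero.1 e2).resolve_right hcard

end RGC
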