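import Pool.Agent.RGC.Abl
import Pool.Agent.RGC.ChrE

/-!
# RGC: abelian Cayley graphs of odd order with simple spectrum up to inversion

`K` from `column_cay`, `S = Sd (cay D)`, `B = Sd K`, `B^j e_0 = S^j e_0` for all `j`, `d` is even by
`even_cut`.  For each row `a` the even part of `B a · - S a ·` is orthogonal to all `S^j e_0`, so it
is `0` by `even_zero`: `B a b + B a (-b) = S a b + S a (-b)`.  If `a, b ≠ 0` and `d a ≠ d b` this says
`S a (-b) = - S a b`.  Hence `l a = a` if `d a = 0` and `l a = -a` otherwise satisfies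
`s K (l a) (l b) = s (cay D) a b`.
-/

set_option autoImplicit false

namespace RGC

open Finset
open scoped Classical

variable {V W : Type}

private noncomputable def absSg (x : ZMod 2) : ℝ := if x = 1 then -1 else 1

private theorem abs_sd (G : SimpleGraph V) {a b : V} (h : a ≠ b) : Sd G a b = absSg (s G a b) := by
  unfold Sd absSg s
  rw [if_neg h]
  by_cases hA : G.Adj a b
  · rw [if_pos hA, if_pos hA, if_pos rfl]
  · rw [if_neg hA, if_neg hA, if_neg (by decide)]

private theorem abs_flip (x : ZMod 2) : absSg (x + 1) = -absSg x := by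
  rcases z2c x with rfl | rfl
  · unfold absSg
    rw [if_pos (by decide), if_neg (by decide)]
  · unfold absSg
    rw [if_neg (by decide), if_pos (by decide)]
    ring

private theorem abs_sum {x y : ZMod 2} (h : absSg x + absSg y = 0) : y = x + 1 := by
  unfold absSg at h
  rcases z2c x with rfl | rfl <;> rcases z2c y with rfl | rfl
  · rw [if_neg (by decide)] at h
    norm_num at h
  · decide
  · decide
  · rw [if_pos (by decide)] at h
    norm_num at h

private theorem abs_symm (G : SimpleGraph V) (a b : V) : Sd G a b = Sd G b a := by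
  by_cases h : a = b
  · subst h
    rfl
  · rw [abs_sd G h, abs_sd G (Ne.symm h), s_comm]

section cayley

variable {A : Type} [AddCommGroup A] (D : Set A)

private theorem abs_adj (a b : A) : (cay D).Adj a b ↔ (cay D).Adj 0 (b - a) := by
  show (a ≠ b ∧ (b - a ∈ D ∨ a - b ∈ D)) ↔
    ((0 : A) ≠ b - a ∧ (b - a - 0 ∈ D ∨ 0 - (b - a) ∈ D))
  have h1 : a ≠ b ↔ (0 : A) ≠ b - a := by
    constructor
    · intro h h'
      exact h (sub_eq_zero.1 h'.symm).symm
    · rintro h rfl
      exact h (sub_self a).symm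
  rw [sub_zero, zero_sub, neg_sub, h1]

private theorem abs_s (a b : A) : s (cay D) a b = s (cay D) 0 (b - a) := by
  unfold s
  simp only [abs_adj D a b]

private theorem abs_sev (c : A) : s (cay D) 0 (-c) = s (cay D) 0 c := by
  rw [s_comm, abs_s]
  congr 1
  abel

private theorem abs_sneg (a b : A) : s (cay D) (-a) (-b) = s (cay D) a b := by
  rw [abs_s D (-a) (-b), abs_s D a b, ← abs_sev D (b - a)]
  congr 1
  abel

private theorem abs_tr (a b : A) : Sd (cay D) a b = Sd (cay D) 0 (b - a) := by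
  by_cases h : a = b
  · subst h
    unfold Sd
    rw [if_pos rfl, if_pos (sub_self a).symm]
  · have h' : (0 : A) ≠ b - a := fun h' => h (sub_eq_zero.1 h'.symm).symm
    rw [abs_sd _ h, abs_sd _ h', abs_s]

private theorem abs_ev (c : A) : Sd (cay D) 0 (-c) = Sd (cay D) 0 c := by
  rw [abs_symm, abs_tr]
  congr 1
  abel

private theorem abs_neg (a b : A) : Sd (cay D) (-a) (-b) = Sd (cay D) a b := by
  rw [abs_tr D (-a) (-b), abs_tr D a b, ← abs_ev D (b - a)]
  congr 1
  abel

private theorem abs_pow [Fintype A] (j : ℕ) :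
    ∀ a b : A, (Sd (cay D) ^ j) (-a) (-b) = (Sd (cay D) ^ j) a b := by
  induction j with
  | zero =>
    intro a b
    rw [pow_zero]
    by_cases h : a = b
    · subst h
      rw [Matrix.one_apply_eq, Matrix.one_apply_eq]
    · rw [Matrix.one_apply_ne h, Matrix.one_apply_ne (fun h' => h (neg_injective h'))]
  | succ j ih =>
    intro a b
    rw [pow_succ, Matrix.mul_apply, Matrix.mul_apply]
    refine Fintype.sum_equiv (Equiv.neg A) _ _ fun c => ?_
    rw [Equiv.neg_apply, ← ih a (-c), neg_neg, ← abs_neg D (-c) b, neg_neg]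

private theorem abs_col [Fintype A] (j : ℕ) (a : A) :
    (Sd (cay D) ^ j) (-a) 0 = (Sd (cay D) ^ j) a 0 := by
  have h := abs_pow D j a 0
  rwa [neg_zero] at h

private theorem abs_of : (Matrix.of fun a b : A => Sd (cay D) 0 (b - a)) = Sd (cay D) := by
  ext a b
  rw [Matrix.of_apply]
  exact (abs_tr D a b).symm

private theorem abs_claim [Fintype A] {K : SimpleGraph A}
    (hcol : ∀ (j : ℕ) (a : A), (Sd K ^ j) a 0 = (Sd (cay D) ^ j) a 0)
    (hdist : ∀ χ ψ : AddChar A ℂ,
      ∑ c, Sd (cay D) 0 c * (χ c).re = ∑ c, Sd (cay D) 0 c * (ψ c).re → ψ = χ ∨ ψ = χ⁻¹)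
    (a b : A) :
    Sd K a b + Sd K a (-b) = Sd (cay D) a b + Sd (cay D) a (-b) := by
  have h := even_zero (fun c => Sd (cay D) 0 c) (abs_ev D) hdist
    (fun b => (Sd K a b - Sd (cay D) a b) + (Sd K a (-b) - Sd (cay D) a (-b))) ?_ ?_
  · have h1 := congrFun h b
    simp only [Pi.zero_apply] at h1
    linarith
  · intro b
    simp only [neg_neg]
    ring
  · intro j
    rw [abs_of D]
    have e1 : ∑ b, (Sd K a b - Sd (cay D) a b) * (Sd (cay D) ^ j) b 0 = 0 := by
      have h1 := hcol (j + 1) a
      rw [pow_succ', pow_succ', Matrix.mul_apply, Matrix.mul_apply] at h1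
      simp only [hcol] at h1
      simp only [sub_mul, Finset.sum_sub_distrib]
      rw [h1, sub_self]
    have e2 : ∑ b, (Sd K a (-b) - Sd (cay D) a (-b)) * (Sd (cay D) ^ j) b 0 = 0 := by
      rw [← e1]
      refine Fintype.sum_equiv (Equiv.neg A) _ _ fun c => ?_
      rw [Equiv.neg_apply, abs_col]
    simp only [add_mul, Finset.sum_add_distrib]
    rw [e1, e2, add_zero]

private theorem abs_key [Fintype A] {K : SimpleGraph A} {d : A → ZMod 2} (hev : ∀ a, d (-a) = d a)
    (hKd : ∀ a b, a ≠ 0 → b ≠ 0 → a ≠ b → s K a b = s (cay D) a b + d a + d b)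
    (hcl : ∀ a b, Sd K a b + Sd K a (-b) = Sd (cay D) a b + Sd (cay D) a (-b))
    {a b : A} (ha : a ≠ 0) (hb : b ≠ 0) (hda : d a = 0) (hdb : d b = 1) :
    s K a (-b) = s (cay D) a b := by
  have hne : a ≠ b := by
    rintro rfl
    rw [hda] at hdb
    exact absurd hdb (by decide)
  have hne' : a ≠ -b := by
    rintro rfl
    rw [hev, hdb] at hda
    exact absurd hda (by decide)
  have hb' : -b ≠ 0 := neg_ne_zero.2 hb
  have h1 := hKd a b ha hb hne
  have h2 := hKd a (-b) ha hb' hne'
  rw [hda, hdb, add_zero] at h1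
  rw [hev, hda, hdb, add_zero] at h2
  have h3 := hcl a b
  rw [abs_sd K hne, abs_sd K hne', abs_sd _ hne, abs_sd _ hne', h1, h2, abs_flip, abs_flip] at h3
  have h4 : absSg (s (cay D) a b) + absSg (s (cay D) a (-b)) = 0 := by linarith
  have h5 := abs_sum h4
  rw [h2, h5, add_assoc, z2, add_zero]

end cayley

theorem abl_simple {A : Type} [AddCommGroup A] [Fintype A] (hodd : Odd (Fintype.card A))
    (D : Set A) {H' : SimpleGraph A}
    (hoff : OffEq (cay D) H' 0) (hc : (Sd (cay D)).charpoly = (Sd H').charpoly)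
    (hcard : ∀ a, (Sd (cardOf H' a)).charpoly = (Sd (cardOf (cay D) 0)).charpoly)
    (hdist : ∀ χ ψ : AddChar A ℂ,
      ∑ c, Sd (cay D) 0 c * (χ c).re = ∑ c, Sd (cay D) 0 c * (ψ c).re → ψ = χ ∨ ψ = χ⁻¹) :
    SwEq (cay D) H' := by
  obtain ⟨d, -, hd⟩ := cut hoff
  obtain ⟨K, hKT, hK0, hKd, hcol⟩ := column_cay D hoff hc hcard hd
  have hev : ∀ a, d (-a) = d a := by
    intro a
    by_cases ha : a = 0
    · subst ha
      rw [neg_zero]
    · exact even_cut D hoff hc hcard hd a ha
  have hcl := abs_claim D hcol hdist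
  have hinv : Function.Involutive (fun a : A => if d a = 0 then a else -a) := by
    intro a
    by_cases h : d a = 0
    · simp only [if_pos h]
    · simp only [if_neg h, hev, neg_neg]
  have hl1 : ∀ a, d a = 0 → hinv.toPerm _ a = a := fun a h => by
    rw [Function.Involutive.coe_toPerm]
    exact if_pos h
  have hl2 : ∀ a, d a = 1 → hinv.toPerm _ a = -a := fun a h => by
    rw [Function.Involutive.coe_toPerm]
    refine if_neg ?_
    rw [h]
    decide
  generalize hinv.toPerm _ = l at hl1 hl2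
  have hs0 : ∀ b, s K 0 (l b) = s (cay D) 0 b := by
    intro b
    rw [hK0]
    rcases z2c (d b) with h | h
    · rw [hl1 b h]
    · rw [hl2 b h, abs_sev]
  have hl0 : l 0 = 0 := by
    rcases z2c (d 0) with h | h
    · exact hl1 0 h
    · rw [hl2 0 h, neg_zero]
  have hs : ∀ a b, s K (l a) (l b) = s (cay D) a b := by
    intro a b
    by_cases hab : a = b
    · subst hab
      rw [s_self, s_self]
    by_cases ha : a = 0
    · subst ha
      rw [hl0]
      exact hs0 b
    by_cases hb : b = 0
    · subst hb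
      rw [hl0, s_comm, hs0, s_comm]
    rcases z2c (d a) with h1 | h1 <;> rcases z2c (d b) with h2 | h2
    · rw [hl1 a h1, hl1 b h2, hKd a b ha hb hab, h1, h2, add_zero, add_zero]
    · rw [hl1 a h1, hl2 b h2]
      exact abs_key D hev hKd hcl ha hb h1 h2
    · rw [hl2 a h1, hl1 b h2, s_comm, s_comm (cay D)]
      exact abs_key D hev hKd hcl hb ha h2 h1
    · rw [hl2 a h1, hl2 b h2, hKd (-a) (-b) (neg_ne_zero.2 ha) (neg_ne_zero.2 hb)
        (fun h => hab (neg_injective h)), hev, hev, h1, h2, add_assoc, z2, add_zero, abs_sneg]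
  refine swEq_iff.2 ⟨l, fun a b c => ?_⟩
  rw [← hKT]
  unfold T
  rw [hs, hs, hs]

end RGC
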