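import Pool.Agent.RGC.CdCut

/-! # RGC: codegrees of regular and amply regular graphs -/

set_option autoImplicit false

namespace RGC

open Finset
open scoped Classical

variable {V W : Type}

private theorem amp_nb [Fintype V] (G : SimpleGraph V) (a : V) :
    (G.neighborSet a).ncard = ∑ w : V, if G.Adj a w then 1 else 0 := by
  rw [← Finset.card_filter, ← Set.ncard_coe_finset]
  refine congrArg Set.ncard ?_
  ext w
  simp

private theorem amp_cn [Fintype V] (G : SimpleGraph V) (a b : V) :
    (G.commonNeighbors a b).ncard = ∑ w : V, if G.Adj a w ∧ G.Adj b w then 1 else 0 := by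
  rw [← Finset.card_filter, ← Set.ncard_coe_finset]
  refine congrArg Set.ncard ?_
  ext w
  simp [SimpleGraph.mem_commonNeighbors]

theorem cd_reg [Fintype V] {G : SimpleGraph V} {k : ℕ} (hk : ∀ v, (G.neighborSet v).ncard = k)
    {a b : V} (hab : a ≠ b) :
    (G.Adj a b → cd G a b + 2 * k = Fintype.card V + 2 * (G.commonNeighbors a b).ncard) ∧
    (¬ G.Adj a b → cd G a b + 2 * (G.commonNeighbors a b).ncard = 2 * k) := by
  have ha : ∑ w : V, (if G.Adj a w then 1 else 0) = k := by rw [← amp_nb, hk]
  have hb : ∑ w : V, (if G.Adj b w then 1 else 0) = k := by rw [← amp_nb, hk]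
  have hc := amp_cn G a b
  have hd : cd G a b = ∑ w : V, if T G a b w = 1 then 1 else 0 := by
    unfold cd
    rw [Finset.card_filter]
  have h2 : (1 : ZMod 2) + 1 = 0 := by decide
  constructor
  · intro h
    have key : ∑ w : V, ((if T G a b w = 1 then 1 else 0) + (if G.Adj a w then 1 else 0) +
        (if G.Adj b w then 1 else 0)) =
        ∑ w : V, (1 + 2 * (if G.Adj a w ∧ G.Adj b w then 1 else 0)) := by
      refine Finset.sum_congr rfl fun w _ => ?_
      unfold T s
      by_cases h3 : G.Adj a w <;> by_cases h4 : G.Adj b w <;> simp [h, h3, h4, h2]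
    rw [Finset.sum_add_distrib, Finset.sum_add_distrib, Finset.sum_add_distrib,
      ← Finset.mul_sum, ← hd, ← hc, ha, hb, Finset.sum_const, smul_eq_mul, mul_one,
      Finset.card_univ] at key
    omega
  · intro h
    have key : ∑ w : V, ((if T G a b w = 1 then 1 else 0) +
        2 * (if G.Adj a w ∧ G.Adj b w then 1 else 0)) =
        ∑ w : V, ((if G.Adj a w then 1 else 0) + (if G.Adj b w then 1 else 0)) := by
      refine Finset.sum_congr rfl fun w _ => ?_
      unfold T s
      by_cases h3 : G.Adj a w <;> by_cases h4 : G.Adj b w <;> simp [h, h3, h4, h2]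
    rw [Finset.sum_add_distrib, Finset.sum_add_distrib,
      ← Finset.mul_sum, ← hd, ← hc, ha, hb] at key
    omega

end RGC
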