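import Pool.Agent.RGC.Defs

/-!
# RGC: the exceptional parameters of amply regular graphs
-/

set_option autoImplicit false

namespace RGC

open Finset
open scoped Classical

variable {V W : Type}

/-- neighbourhood as a finset -/
private noncomputable def aeN [Fintype V] (G : SimpleGraph V) (v : V) : Finset V :=
  univ.filter fun w => G.Adj v w

private theorem ae_mem [Fintype V] {G : SimpleGraph V} {v w : V} : w ∈ aeN G v ↔ G.Adj v w := by
  unfold aeN
  rw [mem_filter]
  exact ⟨fun h => h.2, fun h => ⟨mem_univ _, h⟩⟩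

private theorem ae_card [Fintype V] {G : SimpleGraph V} {k : ℕ}
    (hk : ∀ v, (G.neighborSet v).ncard = k) (v : V) : (aeN G v).card = k := by
  rw [← hk v, ← Set.ncard_coe_finset]
  congr 1
  ext w
  rw [mem_coe, ae_mem, SimpleGraph.mem_neighborSet]

private theorem ae_common [Fintype V] (G : SimpleGraph V) (u w : V) :
    (G.commonNeighbors u w).ncard = (aeN G u ∩ aeN G w).card := by
  rw [← Set.ncard_coe_finset]
  congr 1
  ext z
  rw [mem_coe, mem_inter, ae_mem, ae_mem, SimpleGraph.mem_commonNeighbors]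

private theorem ae_even [Fintype V] (hodd : Odd (Fintype.card V)) {G : SimpleGraph V} {k : ℕ}
    (hk : ∀ v, (G.neighborSet v).ncard = k) : Even k := by
  have h1 := G.sum_degrees_eq_twice_card_edges
  have h2 : ∀ v, G.degree v = k := by
    intro v
    rw [← ae_card hk v, ← SimpleGraph.card_neighborFinset_eq_degree]
    congr 1
    ext w
    rw [ae_mem, SimpleGraph.mem_neighborFinset]
  simp only [h2, sum_const, card_univ, smul_eq_mul] at h1
  have h3 : Even (Fintype.card V * k) := ⟨_, h1.trans (two_mul _)⟩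
  rcases Nat.even_mul.1 h3 with h4 | h4
  · exact absurd h4 (Nat.not_even_iff_odd.2 hodd)
  · exact h4

/-- the clique of `u` in the neighbourhood of `x` -/
private noncomputable def aeC [Fintype V] (G : SimpleGraph V) (x u : V) : Finset V :=
  insert u (aeN G x ∩ aeN G u)

private theorem ae_Ccard [Fintype V] {G : SimpleGraph V} {l : ℕ}
    (hl : ∀ u w, G.Adj u w → (G.commonNeighbors u w).ncard = l) {x u : V} (h : G.Adj x u) :
    (aeC G x u).card = l + 1 := by
  unfold aeC
  rw [card_insert_of_notMem, ← ae_common, hl x u h]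
  intro h1
  exact G.irrefl (ae_mem.1 (mem_inter.1 h1).2)

private theorem ae_clique [Fintype V] {G : SimpleGraph V}
    (hm : ∀ u w, u ≠ w → ¬ G.Adj u w → (G.commonNeighbors u w).ncard ≤ 1) {x u w z : V}
    (hxu : G.Adj x u) (hxw : G.Adj x w) (hxz : G.Adj x z) (huw : G.Adj u w) (huz : G.Adj u z)
    (hne : w ≠ z) : G.Adj w z := by
  by_contra h
  have h1 := hm w z hne h
  rw [ae_common] at h1
  have h2 : x ∈ aeN G w ∩ aeN G z := mem_inter.2 ⟨ae_mem.2 hxw.symm, ae_mem.2 hxz.symm⟩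
  have h3 : u ∈ aeN G w ∩ aeN G z := mem_inter.2 ⟨ae_mem.2 huw.symm, ae_mem.2 huz.symm⟩
  have h4 := card_le_one.1 h1 x h2 u h3
  exact hxu.ne h4

private theorem ae_Ceq [Fintype V] {G : SimpleGraph V} {l : ℕ}
    (hl : ∀ u w, G.Adj u w → (G.commonNeighbors u w).ncard = l)
    (hm : ∀ u w, u ≠ w → ¬ G.Adj u w → (G.commonNeighbors u w).ncard ≤ 1) {x u w : V}
    (hu : G.Adj x u) (hw : w ∈ aeC G x u) : G.Adj x w ∧ aeC G x w = aeC G x u := by
  unfold aeC at hw
  rcases mem_insert.1 hw with h | h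
  · rw [h]
    exact ⟨hu, rfl⟩
  · have h1 := ae_mem.1 (mem_inter.1 h).1
    have h2 := ae_mem.1 (mem_inter.1 h).2
    refine ⟨h1, ?_⟩
    symm
    refine eq_of_subset_of_card_le ?_ (by rw [ae_Ccard hl h1, ae_Ccard hl hu])
    intro z hz
    unfold aeC at hz ⊢
    rcases mem_insert.1 hz with h3 | h3
    · rw [h3]
      exact mem_insert_of_mem (mem_inter.2 ⟨ae_mem.2 hu, ae_mem.2 h2.symm⟩)
    · have h4 := ae_mem.1 (mem_inter.1 h3).1
      have h5 := ae_mem.1 (mem_inter.1 h3).2
      by_cases h6 : z = w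
      · rw [h6]
        exact mem_insert_self _ _
      · refine mem_insert_of_mem (mem_inter.2 ⟨ae_mem.2 h4, ae_mem.2 ?_⟩)
        exact ae_clique hm hu h1 h4 h2 h5 (Ne.symm h6)

private theorem ae_dvd [Fintype V] {G : SimpleGraph V} {k l : ℕ}
    (hk : ∀ v, (G.neighborSet v).ncard = k)
    (hl : ∀ u w, G.Adj u w → (G.commonNeighbors u w).ncard = l)
    (hm : ∀ u w, u ≠ w → ¬ G.Adj u w → (G.commonNeighbors u w).ncard ≤ 1) (x : V) :
    ∃ r, k = r * (l + 1) := by
  refine ⟨((aeN G x).image (aeC G x)).card, ?_⟩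
  rw [← ae_card hk x, card_eq_sum_card_image (aeC G x) (aeN G x), sum_const_nat]
  intro C hC
  obtain ⟨u, hu, rfl⟩ := mem_image.1 hC
  have hu' := ae_mem.1 hu
  rw [← ae_Ccard hl hu']
  congr 1
  ext a
  rw [mem_filter]
  constructor
  · rintro ⟨h1, h2⟩
    rw [← h2]
    exact mem_insert_self _ _
  · intro h1
    obtain ⟨h2, h3⟩ := ae_Ceq hl hm hu' h1
    exact ⟨ae_mem.2 h2, h3⟩

private theorem ae_count [Fintype V] {G : SimpleGraph V} {k l : ℕ}
    (hk : ∀ v, (G.neighborSet v).ncard = k)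
    (hl : ∀ u w, G.Adj u w → (G.commonNeighbors u w).ncard = l)
    (hm : ∀ u w, u ≠ w → ¬ G.Adj u w → (G.commonNeighbors u w).ncard ≤ 1) {x y : V}
    (hne : x ≠ y) (hxy : ¬ G.Adj x y) (h0 : (G.commonNeighbors x y).ncard = 0) :
    2 + k + k * (k - (l + 1)) ≤ Fintype.card V := by
  obtain ⟨O, hO⟩ : ∃ O : V → Finset V, O = fun u => aeN G u \ insert x (aeN G x) := ⟨_, rfl⟩
  have hOm : ∀ u z, z ∈ O u ↔ G.Adj u z ∧ z ≠ x ∧ ¬ G.Adj x z := by
    intro u z
    rw [hO]
    show z ∈ aeN G u \ insert x (aeN G x) ↔ _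
    rw [mem_sdiff, ae_mem, mem_insert, ae_mem, not_or]
  have hOc : ∀ u ∈ aeN G x, (O u).card = k - (l + 1) := by
    intro u hu
    have hu' := ae_mem.1 hu
    rw [hO]
    show (aeN G u \ insert x (aeN G x)).card = _
    have e1 : insert x (aeN G x) ∩ aeN G u = aeC G u x := by
      unfold aeC
      ext z
      rw [mem_inter, mem_insert, mem_insert, mem_inter, ae_mem, ae_mem]
      constructor
      · rintro ⟨h1 | h1, h2⟩
        · exact Or.inl h1
        · exact Or.inr ⟨h2, h1⟩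
      · rintro (h1 | h1)
        · rw [h1]
          exact ⟨Or.inl rfl, hu'.symm⟩
        · exact ⟨Or.inr h1.2, h1.1⟩
    rw [card_sdiff, e1, ae_card hk, ae_Ccard hl hu'.symm]
  have hOd : ∀ u ∈ aeN G x, ∀ w ∈ aeN G x, u ≠ w → Disjoint (O u) (O w) := by
    intro u hu w hw huw
    rw [disjoint_left]
    intro z hz1 hz2
    obtain ⟨a1, a2, a3⟩ := (hOm u z).1 hz1
    obtain ⟨b1, b2, b3⟩ := (hOm w z).1 hz2
    have h1 := hm x z a2.symm a3
    rw [ae_common] at h1
    have h2 : u ∈ aeN G x ∩ aeN G z := mem_inter.2 ⟨hu, ae_mem.2 a1.symm⟩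
    have h3 : w ∈ aeN G x ∩ aeN G z := mem_inter.2 ⟨hw, ae_mem.2 b1.symm⟩
    exact huw (card_le_one.1 h1 u h2 w h3)
  have hB : ((aeN G x).biUnion O).card = k * (k - (l + 1)) := by
    rw [card_biUnion hOd, sum_const_nat hOc, ae_card hk]
  have hd1 : Disjoint (aeN G x) ((aeN G x).biUnion O) := by
    rw [disjoint_left]
    intro z hz1 hz2
    obtain ⟨u, _, hu2⟩ := mem_biUnion.1 hz2
    exact ((hOm u z).1 hu2).2.2 (ae_mem.1 hz1)
  have hx1 : x ∉ aeN G x ∪ (aeN G x).biUnion O := by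
    intro h
    rcases mem_union.1 h with h1 | h1
    · exact G.irrefl (ae_mem.1 h1)
    · obtain ⟨u, _, hu2⟩ := mem_biUnion.1 h1
      exact ((hOm u x).1 hu2).2.1 rfl
  have hy1 : y ∉ insert x (aeN G x ∪ (aeN G x).biUnion O) := by
    intro h
    rcases mem_insert.1 h with h1 | h1
    · exact hne h1.symm
    · rcases mem_union.1 h1 with h2 | h2
      · exact hxy (ae_mem.1 h2)
      · obtain ⟨u, hu1, hu2⟩ := mem_biUnion.1 h2
        have h3 := ((hOm u y).1 hu2).1
        rw [ae_common, card_eq_zero] at h0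
        have h4 : u ∈ aeN G x ∩ aeN G y := mem_inter.2 ⟨hu1, ae_mem.2 h3.symm⟩
        rw [h0] at h4
        exact notMem_empty _ h4
  have h5 := card_le_univ (insert y (insert x (aeN G x ∪ (aeN G x).biUnion O)))
  rw [card_insert_of_notMem hy1, card_insert_of_notMem hx1, card_union_of_disjoint hd1,
    ae_card hk, hB] at h5
  omega

private theorem ae_arith {n k l r : ℕ} (hn : 10 ≤ n) (hk : k = r * (l + 1)) (he : Even k)
    (h0 : r ≠ 0) (h1 : r ≠ 1) (hc : 2 + k + k * (k - (l + 1)) ≤ n) (hp : n + 2 * l + 1 = 4 * k) :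
    False := by
  obtain ⟨q, hq⟩ : ∃ q, q = l + 1 := ⟨_, rfl⟩
  rw [← hq] at hk hc
  have hq1 : 1 ≤ q := by omega
  have hl : l = q - 1 := by omega
  have h2 : 2 ≤ r := by omega
  have h3 : k - q = (r - 1) * q := by
    rw [hk, Nat.sub_mul, one_mul]
  rw [h3] at hc
  obtain ⟨t, ht⟩ : ∃ t, r = t + 2 := ⟨r - 2, by omega⟩
  have e1 : r - 1 = t + 1 := by omega
  rw [e1] at hc
  rw [ht] at hk
  have hn2 : n + 2 * q = 4 * k + 1 := by omega
  rcases Nat.lt_or_ge t 2 with h4 | h4
  · interval_cases t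
    · have h5 : q = 1 := by
        by_contra h6
        have h7 : 2 ≤ q := by omega
        nlinarith
      subst h5
      omega
    · have h5 : q = 1 := by
        by_contra h6
        have h7 : 2 ≤ q := by omega
        nlinarith
      subst h5
      rw [hk] at he
      revert he
      decide
  · have h5 : k * 3 ≤ k * ((t + 1) * q) := by
      refine Nat.mul_le_mul_left k ?_
      nlinarith
    omega

theorem exc [Fintype V] (hn : 10 ≤ Fintype.card V) (hodd : Odd (Fintype.card V))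
    {G : SimpleGraph V} {k l : ℕ} (hk : ∀ v, (G.neighborSet v).ncard = k)
    (hl : ∀ u w, G.Adj u w → (G.commonNeighbors u w).ncard = l)
    (hm : ∀ u w, u ≠ w → ¬ G.Adj u w → (G.commonNeighbors u w).ncard ≤ 1)
    (hone : ∃ u w, u ≠ w ∧ ¬ G.Adj u w ∧ (G.commonNeighbors u w).ncard = 1)
    (hno : ∃ u w, u ≠ w ∧ ¬ G.Adj u w ∧ (G.commonNeighbors u w).ncard = 0)
    (hpar : Fintype.card V + 2 * l + 1 = 4 * k) : False := by
  obtain ⟨x, y, hne, hxy, h0⟩ := hno
  obtain ⟨r, hr⟩ := ae_dvd hk hl hm x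
  have hc := ae_count hk hl hm hne hxy h0
  obtain ⟨u, w, huw, hna, h1⟩ := hone
  rw [ae_common] at h1
  obtain ⟨z, hz⟩ := card_eq_one.1 h1
  have hz1 : z ∈ aeN G u ∩ aeN G w := by
    rw [hz]
    exact mem_singleton_self _
  have hzu := (ae_mem.1 (mem_inter.1 hz1).1).symm
  have hzw := (ae_mem.1 (mem_inter.1 hz1).2).symm
  refine ae_arith hn hr (ae_even hodd hk) ?_ ?_ hc hpar
  · intro hr0
    rw [hr0, Nat.zero_mul] at hr
    have h2 := ae_card hk u
    rw [hr, card_eq_zero] at h2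
    have h3 := (mem_inter.1 hz1).1
    rw [h2] at h3
    exact notMem_empty _ h3
  · intro hr1
    rw [hr1, Nat.one_mul] at hr
    have h2 : aeC G z u = aeN G z := by
      refine eq_of_subset_of_card_le ?_ (by rw [ae_Ccard hl hzu, ae_card hk, hr])
      intro a ha
      unfold aeC at ha
      rcases mem_insert.1 ha with h3 | h3
      · rw [h3]
        exact ae_mem.2 hzu
      · exact (mem_inter.1 h3).1
    have h3 : w ∈ aeC G z u := by
      rw [h2]
      exact ae_mem.2 hzw
    unfold aeC at h3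
    rcases mem_insert.1 h3 with h4 | h4
    · exact huw h4.symm
    · exact hna (ae_mem.1 (mem_inter.1 h4).2)

end RGC
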