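import Pool.Agent.RGC.Amp
import Pool.Agent.RGC.AmpE

/-!
# RGC: amply regular graphs satisfy the gap condition
-/

set_option autoImplicit false

namespace RGC

open Finset
open scoped Classical

variable {V W : Type}

theorem amp_gap [Fintype V] (hn : 10 ≤ Fintype.card V) (hodd : Odd (Fintype.card V))
    {G : SimpleGraph V} {k l m : ℕ} (h : AmplyRegular G k l m) :
    (∀ a b c d, a ≠ b → c ≠ d → cd G c d = cd G a b + 1 → Even (cd G a b)) ∨
    (∀ a b c d, a ≠ b → c ≠ d → cd G c d = cd G a b + 1 → Odd (cd G a b)) := by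
  obtain ⟨hk, hl, hm⟩ := h
  have hA : ∀ a b, G.Adj a b → cd G a b + 2 * k = Fintype.card V + 2 * l := by
    intro a b hab
    have h1 := (cd_reg hk hab.ne).1 hab
    rw [hl a b hab] at h1
    exact h1
  have hN : ∀ a b, a ≠ b → ¬ G.Adj a b → cd G a b + 2 * (G.commonNeighbors a b).ncard = 2 * k :=
    fun a b hab h1 => (cd_reg hk hab).2 h1
  obtain ⟨q, hq⟩ := hodd
  by_contra hcon
  rw [not_or] at hcon
  obtain ⟨h1, h2⟩ := hcon
  push Not at h1 h2
  obtain ⟨a, b, c, d, hab, hcd, hg, ho⟩ := h1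
  obtain ⟨a', b', c', d', hab', hcd', hg', ho'⟩ := h2
  rw [Nat.not_even_iff] at ho
  rw [Nat.not_odd_iff] at ho'
  have e1 : G.Adj a b := by
    by_contra h3
    have h4 := hN a b hab h3
    omega
  have e2 : ¬ G.Adj c d := by
    intro h3
    have h4 := hA c d h3
    omega
  have e3 : G.Adj c' d' := by
    by_contra h3
    have h4 := hN c' d' hcd' h3
    omega
  have e4 : ¬ G.Adj a' b' := by
    intro h3
    have h4 := hA a' b' h3
    omega
  have f1 := hA a b e1
  have f2 := hN c d hcd e2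
  have f3 := hA c' d' e3
  have f4 := hN a' b' hab' e4
  have g2 := hm c d hcd e2
  have g4 := hm a' b' hab' e4
  have c0 : (G.commonNeighbors c d).ncard = 0 := by omega
  have c1 : (G.commonNeighbors a' b').ncard = 1 := by omega
  have hm1 : m = 1 := by omega
  refine exc hn ⟨q, hq⟩ hk hl (fun u w huw hna => ?_) ⟨a', b', hab', e4, c1⟩ ⟨c, d, hcd, e2, c0⟩
    (by omega)
  rcases hm u w huw hna with h5 | h5 <;> omega

end RGC
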