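import Pool.Agent.RGC.Defs

/-! # RGC: basic facts on triples -/

set_option autoImplicit false

namespace RGC

open Finset
open scoped Classical

variable {V W : Type}

theorem s_comm (G : SimpleGraph V) (u w : V) : s G u w = s G w u := by
  unfold s
  rw [G.adj_comm]

theorem s_self (G : SimpleGraph V) (u : V) : s G u u = 0 := by
  unfold s
  rw [if_neg (G.loopless.irrefl u)]

theorem z2 (a : ZMod 2) : a + a = 0 := by
  revert a
  decide

theorem z2c (a : ZMod 2) : a = 0 ∨ a = 1 := by
  revert a
  decide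

theorem T_swap (G : SimpleGraph V) (a b c : V) : T G a b c = T G b a c := by
  unfold T
  rw [s_comm G a b]
  ring

theorem T_rot (G : SimpleGraph V) (a b c : V) : T G a b c = T G b c a := by
  unfold T
  rw [s_comm G c a, s_comm G b a]
  ring

theorem T_swap' (G : SimpleGraph V) (a b c : V) : T G a b c = T G a c b := by
  unfold T
  rw [s_comm G c b]
  ring

theorem T_left (G : SimpleGraph V) (a b : V) : T G a a b = 0 := by
  unfold T
  rw [s_self, zero_add, z2]

theorem T_right (G : SimpleGraph V) (a b : V) : T G a b b = 0 := by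
  rw [T_rot, T_rot, T_swap', T_rot, T_rot]
  rw [T_rot]
  unfold T
  rw [s_self, s_comm G b a]
  rw [zero_add, z2]

theorem T_outer (G : SimpleGraph V) (a b : V) : T G a b a = 0 := by
  rw [T_swap', T_left]

/-- the four point condition -/
theorem T_four (G : SimpleGraph V) (a b c d : V) :
    T G a b c + T G a b d + T G a c d + T G b c d = 0 := by
  unfold T
  have h1 := s_comm G a b
  have : ∀ x y z u v w : ZMod 2, (x + y + z) + (x + u + v) + (z + w + v) + (y + w + u) = 0 := by
    decide
  exact this _ _ _ _ _ _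

/-- the two-graph determines the graph up to switching -/
theorem exists_sw {X Y : SimpleGraph V} (h : ∀ a b c, T X a b c = T Y a b c) :
    ∃ τ : Set V, Y = sw X τ := by
  by_cases hV : Nonempty V
  · obtain ⟨v⟩ := hV
    refine ⟨{x | s X v x + s Y v x = 1}, ?_⟩
    ext a b
    by_cases hab : a = b
    · subst hab
      simp [sw]
    · have h1 := h v a b
      unfold T at h1
      have h2 : s Y a b = s X a b + (s X v a + s Y v a) + (s X v b + s Y v b) := by
        have : ∀ x y z u v w : ZMod 2, x + y + z = u + v + w →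
            v = y + (x + u) + (z + w) := by decide
        exact this _ _ _ _ _ _ h1
      have h3 : Y.Adj a b ↔ s Y a b = 1 := by unfold s; split_ifs <;> simp_all
      have h4 : X.Adj a b ↔ s X a b = 1 := by unfold s; split_ifs <;> simp_all
      have h5 : ∀ x y z : ZMod 2, x + y + z = 1 ↔ Xor (x = 1) (Xor (y = 1) (z = 1)) := by
        unfold Xor
        decide
      show Y.Adj a b ↔ (a ≠ b ∧ Xor (X.Adj a b) (Xor (s X v a + s Y v a = 1) (s X v b + s Y v b = 1)))
      rw [h3, h4, h2, h5]
      simp [hab]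
  · refine ⟨∅, ?_⟩
    ext a
    exact absurd ⟨a⟩ hV

theorem s_sw (X : SimpleGraph V) (τ : Set V) {u w : V} (h : u ≠ w) :
    s (sw X τ) u w = s X u w + (if u ∈ τ then 1 else 0) + (if w ∈ τ then 1 else 0) := by
  have h2 : (1 : ZMod 2) + 1 = 0 := by decide
  unfold s sw
  by_cases h1 : X.Adj u w <;> by_cases h3 : u ∈ τ <;> by_cases h4 : w ∈ τ <;>
    simp [h, h1, h3, h4, Xor, h2]

theorem T_sw (X : SimpleGraph V) (τ : Set V) (a b c : V) : T (sw X τ) a b c = T X a b c := by
  by_cases h1 : a = b
  · subst h1; rw [T_left, T_left]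
  by_cases h2 : b = c
  · subst h2; rw [T_right, T_right]
  by_cases h3 : a = c
  · subst h3; rw [T_outer, T_outer]
  unfold T
  rw [s_sw X τ h1, s_sw X τ h2, s_sw X τ h3]
  have key : ∀ a b c x y z : ZMod 2, (a + x + y) + (b + y + z) + (c + x + z) = a + b + c := by
    decide
  exact key _ _ _ _ _ _

theorem T_iso {G : SimpleGraph V} {H : SimpleGraph W} (e : G ≃g H) (a b c : V) :
    T H (e a) (e b) (e c) = T G a b c := by
  unfold T s
  simp only [e.map_adj_iff]

/-- switching equivalence in terms of triples -/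
theorem swEq_iff {G : SimpleGraph V} {H : SimpleGraph W} :
    SwEq G H ↔ ∃ e : V ≃ W, ∀ a b c, T H (e a) (e b) (e c) = T G a b c := by
  constructor
  · rintro ⟨τ, ⟨e⟩⟩
    refine ⟨e.symm.toEquiv, fun a b c => ?_⟩
    have h := T_iso e.symm a b c
    rw [T_sw] at h
    exact h
  · rintro ⟨e, he⟩
    have h1 : ∀ a b c, T G a b c = T (H.comap e) a b c := by
      intro a b c
      rw [← he]
      rfl
    obtain ⟨τ, hτ⟩ := exists_sw h1
    refine ⟨τ, ⟨?_⟩⟩
    rw [← hτ]
    exact (SimpleGraph.Iso.comap e H).symm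

theorem swEq_of_T {X Y : SimpleGraph V} (h : ∀ a b c, T Y a b c = T X a b c) : SwEq X Y :=
  swEq_iff.2 ⟨Equiv.refl V, h⟩

theorem SwEq.symm {G : SimpleGraph V} {H : SimpleGraph W} (h : SwEq G H) : SwEq H G := by
  obtain ⟨e, he⟩ := swEq_iff.1 h
  refine swEq_iff.2 ⟨e.symm, fun a b c => ?_⟩
  rw [← he]
  simp

theorem SwEq.trans {U : Type} {G : SimpleGraph V} {H : SimpleGraph W} {K : SimpleGraph U}
    (h : SwEq G H) (h' : SwEq H K) : SwEq G K := by
  obtain ⟨e, he⟩ := swEq_iff.1 h
  obtain ⟨f, hf⟩ := swEq_iff.1 h'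
  exact swEq_iff.2 ⟨e.trans f, fun a b c => by rw [← he, ← hf]; rfl⟩

theorem oddTriple_iff (G : SimpleGraph V) (a b c : V) : OddTriple G a b c ↔ T G a b c = 1 := by
  have h5 : ∀ x y z : ZMod 2, x + y + z = 1 ↔ Xor (x = 1) (Xor (y = 1) (z = 1)) := by
    unfold Xor
    decide
  have h6 : ∀ u w, G.Adj u w ↔ s G u w = 1 := by
    intro u w
    unfold s
    split_ifs <;> simp_all
  unfold OddTriple
  constructor
  · rintro ⟨-, -, -, h⟩
    unfold T
    rw [h5, ← h6, ← h6, ← h6]
    exact h
  · intro h
    refine ⟨?_, ?_, ?_, ?_⟩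
    · rintro rfl; rw [T_left] at h; exact absurd h (by decide)
    · rintro rfl; rw [T_right] at h; exact absurd h (by decide)
    · rintro rfl; rw [T_outer] at h; exact absurd h (by decide)
    · unfold T at h
      rw [h5, ← h6, ← h6, ← h6] at h
      exact h

theorem codeg_eq [Fintype V] (G : SimpleGraph V) (a b : V) : codeg G a b = cd G a b := by
  unfold codeg cd
  rw [← Set.ncard_coe_finset]
  congr 1
  ext w
  simp [oddTriple_iff]

theorem cd_comm [Fintype V] (G : SimpleGraph V) (a b : V) : cd G a b = cd G b a := by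
  unfold cd
  congr 1
  ext w
  simp only [mem_filter, mem_univ, true_and]
  rw [T_swap]

theorem cd_iso [Fintype V] [Fintype W] {G : SimpleGraph V} {H : SimpleGraph W} (e : V ≃ W)
    (he : ∀ a b c, T H (e a) (e b) (e c) = T G a b c) (a b : V) :
    cd H (e a) (e b) = cd G a b := by
  unfold cd
  symm
  apply card_bij (fun w _ => e w)
  · intro w hw
    rw [mem_filter] at hw ⊢
    exact ⟨mem_univ _, by rw [he]; exact hw.2⟩
  · intro x _ y _ h
    exact e.injective h
  · intro w hw
    rw [mem_filter] at hw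
    refine ⟨e.symm w, ?_, by simp⟩
    rw [mem_filter]
    refine ⟨mem_univ _, ?_⟩
    rw [← he]
    simpa using hw.2

theorem s_eq_one {G : SimpleGraph V} {a b : V} : s G a b = 1 ↔ G.Adj a b := by
  unfold s
  split_ifs <;> simp_all

theorem s_eq_zero {G : SimpleGraph V} {a b : V} : s G a b = 0 ↔ ¬ G.Adj a b := by
  unfold s
  split_ifs <;> simp_all

/-- two extensions of a card differ by a cut -/
theorem cut {G H : SimpleGraph V} {v : V} (h : OffEq G H v) :
    ∃ d : V → ZMod 2, d v = 0 ∧ ∀ a b, a ≠ v → b ≠ v → T H v a b = T G v a b + d a + d b := by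
  by_cases hV : ∃ c : V, c ≠ v
  · obtain ⟨c, hc⟩ := hV
    refine ⟨fun a => T H v c a + T G v c a, ?_, ?_⟩
    · show T H v c v + T G v c v = 0
      rw [T_outer, T_outer, add_zero]
    · intro a b ha hb
      have h1 := T_four H v c a b
      have h2 := T_four G v c a b
      have h3 := h c a b hc ha hb
      rw [h3] at h1
      have : ∀ x y z w x' y' z' : ZMod 2, x + y + z + w = 0 → x' + y' + z' + w = 0 →
          z = z' + (x + x') + (y + y') := by decide
      exact this _ _ _ _ _ _ _ h1 h2
  · refine ⟨fun _ => 0, rfl, fun a b ha => ?_⟩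
    exact absurd ⟨a, ha⟩ hV

/-- if the cut is constant then the two-graphs agree -/
theorem T_eq_of_cut {G H : SimpleGraph V} {v : V} (h : OffEq G H v) {d : V → ZMod 2}
    (hd : ∀ a b, a ≠ v → b ≠ v → T H v a b = T G v a b + d a + d b)
    (hc : ∀ a b, a ≠ v → b ≠ v → d a = d b) (a b c : V) : T H a b c = T G a b c := by
  have key : ∀ a b, T H v a b = T G v a b := by
    intro a b
    by_cases ha : a = v
    · subst ha; rw [T_left, T_left]
    by_cases hb : b = v
    · subst hb; rw [T_outer, T_outer]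
    rw [hd a b ha hb, hc a b ha hb, add_assoc, z2, add_zero]
  by_cases ha : a = v
  · subst ha; exact key b c
  by_cases hb : b = v
  · subst hb; rw [T_swap, T_swap G, key]
  by_cases hc' : c = v
  · subst hc'; rw [← T_rot, ← T_rot G, key]
  exact h a b c ha hb hc'

end RGC
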