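import Pool.Agent.RGC.Bas

/-!
# RGC: the codegrees of two extensions of a card
-/

set_option autoImplicit false

namespace RGC

open Finset
open scoped Classical

variable {V W : Type}

private theorem cdc_split [Fintype V] (G : SimpleGraph V) (a b v : V) :
    cd G a b = (univ.filter fun w : V => w ≠ v ∧ T G a b w = 1).card +
      if T G a b v = 1 then 1 else 0 := by
  unfold cd
  by_cases h : T G a b v = 1
  · rw [if_pos h]
    have e : (univ.filter fun w : V => T G a b w = 1) =
        insert v (univ.filter fun w : V => w ≠ v ∧ T G a b w = 1) := by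
      ext w
      simp only [mem_filter, mem_univ, true_and, mem_insert]
      by_cases hw : w = v
      · subst hw
        simp [h]
      · simp [hw]
    rw [e, card_insert_of_notMem]
    intro hm
    exact (mem_filter.1 hm).2.1 rfl
  · rw [if_neg h, add_zero]
    congr 1
    ext w
    simp only [mem_filter, mem_univ, true_and]
    constructor
    · intro hw
      exact ⟨fun hwv => h (hwv ▸ hw), hw⟩
    · exact fun hw => hw.2

private theorem cdc_dich (x y : ZMod 2) (h : x ≠ y) : x + y = 1 := by
  revert x y
  decide

theorem cd_cut [Fintype V] {G H : SimpleGraph V} {v : V} (h : OffEq G H v) {d : V → ZMod 2}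
    (hd : ∀ a b, a ≠ v → b ≠ v → T H v a b = T G v a b + d a + d b) {a b : V} (ha : a ≠ v)
    (hb : b ≠ v) :
    (d a = d b → cd H a b = cd G a b) ∧
    (d a ≠ d b → T G a b v = 0 → cd H a b = cd G a b + 1) ∧
    (d a ≠ d b → T G a b v = 1 → cd H a b + 1 = cd G a b) := by
  have h1 : (univ.filter fun w : V => w ≠ v ∧ T H a b w = 1) =
      univ.filter fun w : V => w ≠ v ∧ T G a b w = 1 := by
    refine filter_congr fun w _ => ?_
    refine and_congr_right fun hw => ?_
    rw [h a b w ha hb hw]
  have h2 : T H a b v = T G a b v + (d a + d b) := by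
    rw [← T_rot H v a b, hd a b ha hb, T_rot G v a b, add_assoc]
  rw [cdc_split H a b v, cdc_split G a b v, h1, h2]
  refine ⟨fun h3 => ?_, fun h3 h4 => ?_, fun h3 h4 => ?_⟩
  · rw [h3, z2, add_zero]
  · rw [cdc_dich _ _ h3, h4, if_pos (by decide), if_neg (by decide), add_zero]
  · rw [cdc_dich _ _ h3, h4, if_neg (by decide), if_pos rfl, add_zero]

/-- the codegrees at `v` -/
theorem cd_self [Fintype V] (G : SimpleGraph V) (a : V) : cd G a a = 0 := by
  unfold cd
  rw [card_eq_zero, filter_eq_empty_iff]
  intro w _ h
  rw [T_left] at h
  exact absurd h (by decide)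

theorem cd_le [Fintype V] (G : SimpleGraph V) {a b : V} (h : a ≠ b) :
    cd G a b + 2 ≤ Fintype.card V := by
  have h1 : (univ.filter fun w : V => T G a b w = 1) ⊆ (univ.erase a).erase b := by
    intro w hw
    have hw' := (mem_filter.1 hw).2
    refine mem_erase.2 ⟨?_, mem_erase.2 ⟨?_, mem_univ _⟩⟩
    · rintro rfl
      rw [T_right] at hw'
      exact absurd hw' (by decide)
    · rintro rfl
      rw [T_outer] at hw'
      exact absurd hw' (by decide)
  have h2 := card_le_card h1
  rw [card_erase_of_mem (mem_erase.2 ⟨h.symm, mem_univ _⟩), card_erase_of_mem (mem_univ _),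
    card_univ] at h2
  have h3 : 1 < Fintype.card V := Fintype.one_lt_card_iff.2 ⟨a, b, h⟩
  have h4 : cd G a b = (univ.filter fun w : V => T G a b w = 1).card := rfl
  omega

/-- a pair of codegree `n - 2` or `0` -/
theorem cd_all [Fintype V] (G : SimpleGraph V) {a b : V} (h : a ≠ b) (x : ZMod 2)
    (hx : ∀ w, w ≠ a → w ≠ b → T G a b w = x) :
    cd G a b = 0 ∨ cd G a b + 2 = Fintype.card V := by
  rcases z2c x with rfl | rfl
  · left
    unfold cd
    rw [card_eq_zero, filter_eq_empty_iff]
    intro w _ hw
    by_cases h1 : w = a
    · subst h1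
      rw [T_outer] at hw
      exact absurd hw (by decide)
    · by_cases h2 : w = b
      · subst h2
        rw [T_right] at hw
        exact absurd hw (by decide)
      · rw [hx w h1 h2] at hw
        exact absurd hw (by decide)
  · right
    have h1 : (univ.filter fun w : V => T G a b w = 1) = (univ.erase a).erase b := by
      ext w
      simp only [mem_filter, mem_univ, true_and, mem_erase, and_true]
      constructor
      · intro hw
        refine ⟨?_, ?_⟩
        · rintro rfl
          rw [T_right] at hw
          exact absurd hw (by decide)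
        · rintro rfl
          rw [T_outer] at hw
          exact absurd hw (by decide)
      · exact fun hw => hx w hw.2 hw.1
    have h3 : 1 < Fintype.card V := Fintype.one_lt_card_iff.2 ⟨a, b, h⟩
    have h4 : cd G a b = (univ.filter fun w : V => T G a b w = 1).card := rfl
    rw [h4, h1, card_erase_of_mem (mem_erase.2 ⟨h.symm, mem_univ _⟩),
      card_erase_of_mem (mem_univ _), card_univ]
    omega

end RGC
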