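import Pool.Agent.RGC.Sei

/-!
# RGC: cospectral circulants of prime order

MODULE Cos. Plan. `p ≥ 3` prime, `σ c = Sd (cay D) 0 c`, `σ' c = Sd (cay D') 0 c` (values `0` at `0`,
`±1` elsewhere, even). The eigenvalues of the matrix `σ (b - a)` are `θ_j = ∑_c σ(c) ζ^{jc}`,
`j ∈ ZMod p` (characters are eigenvectors; the charpoly over `ℂ` is `∏ (X - θ_j)`, or only: every root of
the charpoly is some `θ_j` because the characters are a basis of eigenvectors; and every `θ'_j` is a
root of the second charpoly). So `θ'_1` is a root of the common charpoly, `θ'_1 = θ_j` for some `j`.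
If `j = 0`: `∑ σ'(c) ζ^c` is an integer `m = ∑ σ(c)`; by the linear independence
(`∑_c x_c ζ^c = 0` with rational `x_c` implies all `x_c` equal) `σ'(c) = σ'(0) - m = -m` for
`c ≠ 0`; but `m` is a sum of `p - 1` signs, even, contradiction to `σ'(c) = ±1`.
If `j ≠ 0`: `∑_c (σ'(c) - σ(c/j)) ζ^c = 0`, the coefficient at `c = 0` is `0`, so
`σ'(c) = σ(c / j)` for all `c`; so `c ↦ j c`... is an isomorphism of `cay D` with `cay D'`
(`(cay D).Adj a b ↔ (cay D').Adj (j a) (j b)`), hence `SwEq`.
-/

set_option autoImplicit false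

namespace RGC

open Finset
open scoped Classical

variable {V W : Type}

/-- sign sequence of a circulant -/
private noncomputable def cosS {p : ℕ} (D : Set (ZMod p)) (c : ZMod p) : ℤ :=
  if c = 0 then 0 else if c ∈ D ∨ -c ∈ D then -1 else 1

private theorem cos_sd {p : ℕ} (D : Set (ZMod p)) (a b : ZMod p) :
    Sd (cay D) a b = ((cosS D (b - a) : ℤ) : ℝ) := by
  unfold Sd cosS
  by_cases h : a = b
  · subst h
    simp
  · have h1 : b - a ≠ 0 := fun h2 => h (sub_eq_zero.1 h2).symm
    have h2 : -(b - a) = a - b := by ring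
    have h3 : (cay D).Adj a b ↔ (b - a ∈ D ∨ -(b - a) ∈ D) := by
      rw [h2]
      exact ⟨fun h4 => h4.2, fun h4 => ⟨h, h4⟩⟩
    rw [if_neg h, if_neg h1]
    by_cases h4 : (cay D).Adj a b
    · rw [if_pos h4, if_pos (h3.1 h4)]
      norm_num
    · rw [if_neg h4, if_neg (fun h5 => h4 (h3.2 h5))]
      norm_num

private theorem cos_adj {p : ℕ} (D : Set (ZMod p)) (a b : ZMod p) :
    (cay D).Adj a b ↔ cosS D (b - a) = -1 := by
  unfold cosS
  by_cases h : a = b
  · subst h
    simp
  · have h1 : b - a ≠ 0 := fun h2 => h (sub_eq_zero.1 h2).symm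
    have h2 : -(b - a) = a - b := by ring
    have h3 : (cay D).Adj a b ↔ (b - a ∈ D ∨ -(b - a) ∈ D) := by
      rw [h2]
      exact ⟨fun h4 => h4.2, fun h4 => ⟨h, h4⟩⟩
    rw [if_neg h1, h3]
    split_ifs with h4
    · exact iff_of_true h4 rfl
    · exact iff_of_false h4 (by norm_num)

private theorem cos_indep {p : ℕ} [hp : Fact p.Prime] (x : ZMod p → ℤ)
    (h : ∑ c : ZMod p, ((x c : ℤ) : ℂ) * ZMod.stdAddChar c = 0) (c d : ZMod p) : x c = x d := by
  have hp0 : p ≠ 0 := hp.out.ne_zero
  set ζ : ℂ := Complex.exp (2 * Real.pi * Complex.I / p) with hζ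
  have hprim : IsPrimitiveRoot ζ p := Complex.isPrimitiveRoot_exp p hp0
  have hch : ∀ c : ZMod p, (ZMod.stdAddChar c : ℂ) = ζ ^ c.val := by
    intro c
    have h1 : (ZMod.stdAddChar ((c.val : ℤ) : ZMod p) : ℂ) = _ := ZMod.stdAddChar_coe (c.val : ℤ)
    have h2 : ((c.val : ℤ) : ZMod p) = c := by
      push_cast
      exact ZMod.natCast_zmod_val c
    rw [h2] at h1
    rw [h1, hζ, ← Complex.exp_nat_mul]
    congr 1
    push_cast
    ring
  let Q : Polynomial ℚ := ∑ c : ZMod p, Polynomial.C ((x c : ℤ) : ℚ) * Polynomial.X ^ c.val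
  have hQ0 : Polynomial.aeval ζ Q = 0 := by
    show Polynomial.aeval ζ (∑ c : ZMod p, Polynomial.C ((x c : ℤ) : ℚ) * Polynomial.X ^ c.val) = 0
    rw [map_sum, ← h]
    apply sum_congr rfl
    intro c _
    rw [map_mul, map_pow, Polynomial.aeval_X, Polynomial.aeval_C, hch]
    congr 1
  have hco : ∀ m : ℕ, Q.coeff m = ∑ c : ZMod p, if m = c.val then ((x c : ℤ) : ℚ) else 0 := by
    intro m
    show (∑ c : ZMod p, Polynomial.C ((x c : ℤ) : ℚ) * Polynomial.X ^ c.val).coeff m = _
    rw [Polynomial.finsetSum_coeff]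
    apply sum_congr rfl
    intro c _
    rw [Polynomial.coeff_C_mul_X_pow]
  have hcv : ∀ c : ZMod p, Q.coeff c.val = ((x c : ℤ) : ℚ) := by
    intro c
    rw [hco, sum_eq_single c]
    · rw [if_pos rfl]
    · intro b _ hb
      rw [if_neg]
      intro h1
      exact hb (ZMod.val_injective p h1).symm
    · intro h1
      exact absurd (mem_univ c) h1
  have hdeg : Q.degree < p := by
    rw [Polynomial.degree_lt_iff_coeff_zero]
    intro m hm
    rw [hco]
    apply sum_eq_zero
    intro c _
    rw [if_neg]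
    intro h1
    have := ZMod.val_lt c
    omega
  have hdvd : Polynomial.cyclotomic p ℚ ∣ Q := by
    rw [Polynomial.cyclotomic_eq_minpoly_rat hprim hp.out.pos]
    exact minpoly.dvd ℚ ζ hQ0
  obtain ⟨R, hR⟩ := hdvd
  by_cases hR0 : R = 0
  · rw [hR0, mul_zero] at hR
    have h1 := hcv c
    have h2 := hcv d
    rw [hR, Polynomial.coeff_zero] at h1 h2
    have : ((x c : ℤ) : ℚ) = ((x d : ℤ) : ℚ) := by rw [← h1, ← h2]
    exact_mod_cast this
  · have hc0 : Polynomial.cyclotomic p ℚ ≠ 0 := Polynomial.cyclotomic_ne_zero p ℚ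
    have hQne : Q ≠ 0 := by
      rw [hR]
      exact mul_ne_zero hc0 hR0
    have hnd : Q.natDegree < p := (Polynomial.natDegree_lt_iff_degree_lt hQne).2 hdeg
    have hRd : R.natDegree = 0 := by
      rw [hR, Polynomial.natDegree_mul hc0 hR0, Polynomial.natDegree_cyclotomic,
        Nat.totient_prime hp.out] at hnd
      have := hp.out.two_le
      omega
    rw [Polynomial.eq_C_of_natDegree_eq_zero hRd, Polynomial.cyclotomic_prime] at hR
    have hall : ∀ c : ZMod p, ((x c : ℤ) : ℚ) = R.coeff 0 := by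
      intro c
      rw [← hcv c, hR, Polynomial.coeff_mul_C, Polynomial.finsetSum_coeff,
        sum_eq_single c.val]
      · rw [Polynomial.coeff_X_pow, if_pos rfl, one_mul]
      · intro b _ hb
        rw [Polynomial.coeff_X_pow, if_neg (Ne.symm hb)]
      · intro h1
        exact absurd (mem_range.2 (ZMod.val_lt c)) h1
    have : ((x c : ℤ) : ℚ) = ((x d : ℤ) : ℚ) := by rw [hall c, hall d]
    exact_mod_cast this

private theorem cos_eig {p : ℕ} [hp : Fact p.Prime] (D : Set (ZMod p)) (μ : ℂ) :
    ((Sd (cay D)).map Complex.ofRealHom).charpoly.eval μ = 0 ↔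
      ∃ k : ZMod p, μ = ∑ c : ZMod p, ((cosS D c : ℤ) : ℂ) * ZMod.stdAddChar (c * k) := by
  have hM : ∀ a b, ((Sd (cay D)).map Complex.ofRealHom) a b = ((cosS D (b - a) : ℤ) : ℂ) := by
    intro a b
    rw [Matrix.map_apply, cos_sd]
    simp
  have hker : ∀ v : ZMod p → ℂ, (Matrix.scalar (ZMod p) μ - (Sd (cay D)).map Complex.ofRealHom).mulVec v
      = fun a => μ * v a - ∑ b, ((cosS D (b - a) : ℤ) : ℂ) * v b := by
    intro v
    funext a
    rw [Matrix.sub_mulVec, Pi.sub_apply]
    congr 1
    · simp [Matrix.scalar_apply, Matrix.mulVec_diagonal]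
    · unfold Matrix.mulVec dotProduct
      apply sum_congr rfl
      intro b _
      show ((Sd (cay D)).map Complex.ofRealHom) a b * v b = _
      rw [hM]
  rw [Matrix.eval_charpoly, ← Matrix.exists_mulVec_eq_zero_iff]
  constructor
  · rintro ⟨v, hv0, hv⟩
    rw [hker] at hv
    have hv1 : ∀ a, ∑ b, ((cosS D (b - a) : ℤ) : ℂ) * v b = μ * v a := by
      intro a
      have := congrFun hv a
      simp only [Pi.zero_apply] at this
      linear_combination -this
    have hF : ∃ k : ZMod p, ∑ a : ZMod p, ZMod.stdAddChar (-(a * k)) * v a ≠ 0 := by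
      by_contra hcon
      push Not at hcon
      apply hv0
      have h1 : ZMod.dft v = 0 := by
        funext k
        rw [ZMod.dft_apply]
        simpa only [smul_eq_mul, Pi.zero_apply] using hcon k
      exact (LinearEquiv.map_eq_zero_iff _).1 h1
    obtain ⟨k, hk⟩ := hF
    refine ⟨k, ?_⟩
    have key : μ * ∑ a : ZMod p, ZMod.stdAddChar (-(a * k)) * v a =
        (∑ c : ZMod p, ((cosS D c : ℤ) : ℂ) * ZMod.stdAddChar (c * k)) *
          ∑ a : ZMod p, ZMod.stdAddChar (-(a * k)) * v a := by
      calc μ * ∑ a : ZMod p, ZMod.stdAddChar (-(a * k)) * v a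
          = ∑ a : ZMod p, ∑ b : ZMod p, ZMod.stdAddChar (-(a * k)) *
              (((cosS D (b - a) : ℤ) : ℂ) * v b) := by
            rw [mul_sum]
            apply sum_congr rfl
            intro a _
            rw [← mul_sum, hv1 a]
            ring
        _ = ∑ b : ZMod p, ∑ a : ZMod p, ZMod.stdAddChar (-(a * k)) *
              (((cosS D (b - a) : ℤ) : ℂ) * v b) := sum_comm
        _ = ∑ b : ZMod p, ∑ c : ZMod p, ZMod.stdAddChar (-((b - c) * k)) *
              (((cosS D c : ℤ) : ℂ) * v b) := by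
            apply sum_congr rfl
            intro b _
            refine Fintype.sum_equiv (Equiv.subLeft b) _ _ (fun a => ?_)
            simp only [Equiv.subLeft_apply]
            rw [sub_sub_cancel]
        _ = (∑ c : ZMod p, ((cosS D c : ℤ) : ℂ) * ZMod.stdAddChar (c * k)) *
          ∑ a : ZMod p, ZMod.stdAddChar (-(a * k)) * v a := by
            rw [sum_mul_sum, sum_comm]
            apply sum_congr rfl
            intro c _
            apply sum_congr rfl
            intro b _
            have e1 : -((b - c) * k) = c * k + -(b * k) := by ring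
            rw [e1, AddChar.map_add_eq_mul]
            ring
    exact mul_right_cancel₀ hk key
  · rintro ⟨k, hk⟩
    refine ⟨fun a => ZMod.stdAddChar (a * k), ?_, ?_⟩
    · intro h0
      have := congrFun h0 0
      simp at this
    · rw [hker]
      funext a
      rw [Pi.zero_apply, sub_eq_zero, hk, sum_mul]
      refine Fintype.sum_equiv (Equiv.addLeft a) _ _ (fun c => ?_)
      simp only [Equiv.coe_addLeft]
      rw [add_sub_cancel_left, add_mul, AddChar.map_add_eq_mul]
      ring

theorem cospectral {p : ℕ} [Fact p.Prime] (hp : 3 ≤ p) (D D' : Set (ZMod p))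
    (h : (Sd (cay D)).charpoly = (Sd (cay D')).charpoly) : SwEq (cay D) (cay D') := by
  have hpp : p.Prime := Fact.out
  have hC : ((Sd (cay D)).map Complex.ofRealHom).charpoly =
      ((Sd (cay D')).map Complex.ofRealHom).charpoly := by
    rw [Matrix.charpoly_map, Matrix.charpoly_map, h]
  have h1 := (cos_eig D' (∑ c : ZMod p, ((cosS D' c : ℤ) : ℂ) * ZMod.stdAddChar (c * 1))).2
    ⟨1, rfl⟩
  rw [← hC] at h1
  obtain ⟨k, hk⟩ := (cos_eig D _).1 h1
  simp only [mul_one] at hk
  have hz : ∀ D : Set (ZMod p), cosS D 0 = 0 := by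
    intro D
    unfold cosS
    rw [if_pos rfl]
  have hsg : ∀ (D : Set (ZMod p)) (c : ZMod p), c ≠ 0 → cosS D c = 1 ∨ cosS D c = -1 := by
    intro D c hc
    unfold cosS
    rw [if_neg hc]
    split_ifs
    · exact Or.inr rfl
    · exact Or.inl rfl
  by_cases hk0 : k = 0
  · exfalso
    subst hk0
    simp only [mul_zero, AddChar.map_zero_eq_one, mul_one] at hk
    set m : ℤ := ∑ c : ZMod p, cosS D c with hm
    have h2 : ∑ c : ZMod p, (((cosS D' c - if c = 0 then m else 0 : ℤ)) : ℂ) *
        ZMod.stdAddChar c = 0 := by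
      have e1 : ∀ c : ZMod p, (((cosS D' c - if c = 0 then m else 0 : ℤ)) : ℂ) *
          ZMod.stdAddChar c = ((cosS D' c : ℤ) : ℂ) * ZMod.stdAddChar c -
            (if c = 0 then (m : ℂ) else 0) := by
        intro c
        by_cases hc : c = 0
        · subst hc
          simp
        · simp [hc]
      simp only [e1]
      rw [sum_sub_distrib, hk, sum_ite_eq' univ (0 : ZMod p) (fun _ => (m : ℂ)),
        if_pos (mem_univ _), hm]
      push_cast
      ring
    have h10 : (1 : ZMod p) ≠ 0 := by
      have : Fact (1 < p) := ⟨by omega⟩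
      exact one_ne_zero
    have h3 := cos_indep (fun c : ZMod p => cosS D' c - if c = 0 then m else 0) h2 0 1
    simp only [hz, if_true, if_neg h10, sub_zero] at h3
    -- m is even
    have hev : Even m := by
      have e2 : m = ∑ c ∈ univ.erase (0 : ZMod p), cosS D c := by
        rw [hm, ← add_sum_erase univ _ (mem_univ (0 : ZMod p)), hz, zero_add]
      have e3 : ((m : ℤ) : ZMod 2) = 0 := by
        rw [e2]
        push_cast
        have e4 : ∀ c ∈ univ.erase (0 : ZMod p), ((cosS D c : ℤ) : ZMod 2) = 1 := by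
          intro c hc
          rcases hsg D c (mem_erase.1 hc).1 with h5 | h5
          · rw [h5]; rfl
          · rw [h5]; decide
        rw [sum_congr rfl e4, sum_const, card_erase_of_mem (mem_univ _), card_univ, ZMod.card,
          nsmul_eq_mul, mul_one]
        have hodd : Odd p := hpp.odd_of_ne_two (by omega)
        obtain ⟨t, ht⟩ := hodd
        rw [ht, Nat.add_sub_cancel]
        push_cast
        have : (2 : ZMod 2) = 0 := by decide
        rw [this, zero_mul]
      rwa [ZMod.intCast_eq_zero_iff_even] at e3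
    obtain ⟨t, ht⟩ := hev
    rcases hsg D' 1 h10 with h5 | h5 <;> rw [h5] at h3 <;> omega
  · have h2 : ∑ c : ZMod p, (((cosS D' c - cosS D (c * k⁻¹) : ℤ)) : ℂ) *
        ZMod.stdAddChar c = 0 := by
      have e1 : ∑ c : ZMod p, ((cosS D c : ℤ) : ℂ) * ZMod.stdAddChar (c * k) =
          ∑ c : ZMod p, ((cosS D (c * k⁻¹) : ℤ) : ℂ) * ZMod.stdAddChar c := by
        refine Fintype.sum_equiv (Equiv.mulRight₀ k hk0) _ _ (fun c => ?_)
        show _ = ((cosS D (c * k * k⁻¹) : ℤ) : ℂ) * ZMod.stdAddChar (c * k)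
        rw [mul_assoc, mul_inv_cancel₀ hk0, mul_one]
      rw [e1] at hk
      have e2 : ∀ c : ZMod p, (((cosS D' c - cosS D (c * k⁻¹) : ℤ)) : ℂ) *
          ZMod.stdAddChar c = ((cosS D' c : ℤ) : ℂ) * ZMod.stdAddChar c -
            ((cosS D (c * k⁻¹) : ℤ) : ℂ) * ZMod.stdAddChar c := by
        intro c
        push_cast
        ring
      simp only [e2]
      rw [sum_sub_distrib, hk, sub_self]
    have h3 : ∀ c : ZMod p, cosS D' c = cosS D (c * k⁻¹) := by
      intro c
      have h4 := cos_indep (fun c : ZMod p => cosS D' c - cosS D (c * k⁻¹)) h2 c 0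
      simp only [zero_mul, hz, sub_self] at h4
      linarith
    refine swEq_iff.2 ⟨Equiv.mulRight₀ k hk0, fun a b c => ?_⟩
    have h4 : ∀ a b : ZMod p, (cay D').Adj (a * k) (b * k) ↔ (cay D).Adj a b := by
      intro a b
      rw [cos_adj, cos_adj, h3]
      have e3 : (b * k - a * k) * k⁻¹ = b - a := by
        rw [← sub_mul, mul_assoc, mul_inv_cancel₀ hk0, mul_one]
      rw [e3]
    have h5 : ∀ a b : ZMod p, (cay D').Adj (Equiv.mulRight₀ k hk0 a) (Equiv.mulRight₀ k hk0 b) ↔
        (cay D).Adj a b := h4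
    unfold T s
    simp only [h5]

end RGC
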