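import Pool.Agent.RGC.Defs

/-!
# RGC: a moment problem (Mathlib only)

With `δ = f - g` and `m = n - 2` the polynomial `∑ δ c (1 + X)^c` is `δ m X^m`, so
`δ c = (-1)^(m-c) C(m, c) δ m`; the sum of the absolute values is `2^m |δ m| ≤ 2 n (n - 1)`.
-/

set_option autoImplicit false

namespace RGC

open Finset
open scoped Classical

variable {V W : Type}

private theorem num_pow {n : ℕ} (hn : 10 ≤ n) : 2 * (n * (n - 1)) < 2 ^ (n - 2) := by
  induction n, hn using Nat.le_induction with
  | base => norm_num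
  | succ n hn ih =>
    obtain ⟨k, rfl⟩ : ∃ k, n = k + 2 := ⟨n - 2, by omega⟩
    have e1 : k + 2 + 1 - 2 = k + 1 := by omega
    have e2 : k + 2 - 2 = k := by omega
    have e3 : k + 2 + 1 - 1 = k + 2 := by omega
    have e4 : k + 2 - 1 = k + 1 := by omega
    rw [e2, e4] at ih
    rw [e1, e3, pow_succ]
    nlinarith

private theorem num_inv (m : ℕ) (δ : ℕ → ℤ)
    (h : ∀ j < m, ∑ c ∈ range (m + 1), δ c * (c.choose j : ℤ) = 0) {i : ℕ} (hi : i ≤ m) :
    δ i = δ m * ((-1) ^ (m - i) * (m.choose i : ℤ)) := by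
  have h1 : ∑ c ∈ range (m + 1), Polynomial.C (δ c) * (Polynomial.X + 1) ^ c =
      Polynomial.C (δ m) * Polynomial.X ^ m := by
    ext j
    rw [Polynomial.finsetSum_coeff, Polynomial.coeff_C_mul, Polynomial.coeff_X_pow]
    have h2 : ∑ c ∈ range (m + 1), (Polynomial.C (δ c) * (Polynomial.X + 1) ^ c).coeff j =
        ∑ c ∈ range (m + 1), δ c * (c.choose j : ℤ) := by
      refine sum_congr rfl fun c _ => ?_
      rw [Polynomial.coeff_C_mul, Polynomial.coeff_X_add_one_pow]
    rw [h2]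
    rcases lt_trichotomy j m with hj | hj | hj
    · rw [h j hj, if_neg hj.ne, mul_zero]
    · rw [if_pos hj, hj, sum_range_succ, Nat.choose_self, Nat.cast_one]
      rw [sum_eq_zero, zero_add]
      intro c hc
      rw [Nat.choose_eq_zero_of_lt (mem_range.1 hc), Nat.cast_zero, mul_zero]
    · rw [if_neg hj.ne', mul_zero]
      refine sum_eq_zero fun c hc => ?_
      have := mem_range.1 hc
      rw [Nat.choose_eq_zero_of_lt (by omega), Nat.cast_zero, mul_zero]
  have h3 := congrArg (Polynomial.compRingHom (Polynomial.X + Polynomial.C (-1))) h1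
  rw [map_sum] at h3
  simp only [Polynomial.coe_compRingHom_apply] at h3
  rw [Polynomial.mul_comp (Polynomial.C (δ m)), Polynomial.C_comp, Polynomial.pow_comp,
    Polynomial.X_comp] at h3
  have h4 : ∑ c ∈ range (m + 1), (Polynomial.C (δ c) * (Polynomial.X + 1) ^ c).comp
      (Polynomial.X + Polynomial.C (-1)) = ∑ c ∈ range (m + 1), Polynomial.C (δ c) * Polynomial.X ^ c := by
    refine sum_congr rfl fun c _ => ?_
    rw [Polynomial.mul_comp, Polynomial.C_comp, Polynomial.pow_comp, Polynomial.add_comp,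
      Polynomial.X_comp, Polynomial.one_comp, map_neg, map_one, neg_add_cancel_right]
  rw [h4] at h3
  have h5 := congrArg (fun p => Polynomial.coeff p i) h3
  beta_reduce at h5
  rw [Polynomial.finsetSum_coeff, Polynomial.coeff_C_mul, Polynomial.coeff_X_add_C_pow] at h5
  rw [← h5, sum_eq_single i]
  · rw [Polynomial.coeff_C_mul, Polynomial.coeff_X_pow, if_pos rfl, mul_one]
  · intro c _ hc
    rw [Polynomial.coeff_C_mul, Polynomial.coeff_X_pow, if_neg hc.symm, mul_zero]
  · intro h6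
    exact absurd (mem_range.2 (by omega)) h6

theorem moments {n : ℕ} (hn : 10 ≤ n) (f g : ℕ → ℕ)
    (hf : ∀ c, n - 2 < c → f c = 0) (hg : ∀ c, n - 2 < c → g c = 0)
    (hsum : ∑ c ∈ range (n - 1), f c = n * (n - 1))
    (hmom : ∀ j, j + 3 ≤ n →
      ∑ c ∈ range (n - 1), f c * c.choose j = ∑ c ∈ range (n - 1), g c * c.choose j) :
    ∀ c, f c = g c := by
  obtain ⟨m, rfl⟩ : ∃ m, n = m + 2 := ⟨n - 2, by omega⟩
  have e1 : m + 2 - 1 = m + 1 := by omega
  have e2 : m + 2 - 2 = m := by omega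
  have hpow := num_pow hn
  rw [e1, e2] at hpow
  rw [e1] at hsum hmom
  rw [e2] at hf hg
  have hinv : ∀ i ≤ m, (f i : ℤ) - g i =
      ((f m : ℤ) - g m) * ((-1) ^ (m - i) * (m.choose i : ℤ)) := by
    intro i hi
    refine num_inv m (fun c => (f c : ℤ) - g c) (fun j hj => ?_) hi
    have h1 := hmom j (by omega)
    have h2 : ∑ c ∈ range (m + 1), ((f c : ℤ) - g c) * (c.choose j : ℤ) =
        ((∑ c ∈ range (m + 1), f c * c.choose j : ℕ) : ℤ) -
          ((∑ c ∈ range (m + 1), g c * c.choose j : ℕ) : ℤ) := by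
      rw [Nat.cast_sum, Nat.cast_sum, ← sum_sub_distrib]
      refine sum_congr rfl fun c _ => ?_
      rw [Nat.cast_mul, Nat.cast_mul, sub_mul]
    rw [h2, h1, sub_self]
  have hg0 : ∑ c ∈ range (m + 1), g c = (m + 2) * (m + 1) := by
    have h1 := hmom 0 (by omega)
    simp only [Nat.choose_zero_right, mul_one] at h1
    rw [← h1, hsum]
  have habs : |(f m : ℤ) - g m| * 2 ^ m ≤ 2 * ((m + 2) * (m + 1)) := by
    have h1 : |(f m : ℤ) - g m| * 2 ^ m = ∑ c ∈ range (m + 1), |(f c : ℤ) - g c| := by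
      have h2 : ∀ c ∈ range (m + 1), |(f c : ℤ) - g c| = |(f m : ℤ) - g m| * (m.choose c : ℤ) := by
        intro c hc
        rw [hinv c (by have := mem_range.1 hc; omega), abs_mul, abs_mul, abs_pow, abs_neg, abs_one,
          one_pow, one_mul, Nat.abs_cast]
      rw [sum_congr rfl h2, ← mul_sum]
      congr 1
      rw [← Nat.cast_sum, Nat.sum_range_choose]
      push_cast
      rfl
    have h3 : ∑ c ∈ range (m + 1), |(f c : ℤ) - g c| ≤
        ∑ c ∈ range (m + 1), ((f c : ℤ) + g c) := by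
      refine sum_le_sum fun c _ => ?_
      refine (abs_sub _ _).trans ?_
      rw [Nat.abs_cast, Nat.abs_cast]
    have h4 : ∑ c ∈ range (m + 1), ((f c : ℤ) + g c) = 2 * ((m + 2) * (m + 1)) := by
      rw [sum_add_distrib, ← Nat.cast_sum, ← Nat.cast_sum, hsum, hg0]
      push_cast
      ring
    rw [h1]
    exact h3.trans h4.le
  have h0 : (f m : ℤ) - g m = 0 := by
    by_contra hne
    have h1 : 1 ≤ |(f m : ℤ) - g m| := Int.one_le_abs hne
    have h2 : (2 : ℤ) ^ m ≤ |(f m : ℤ) - g m| * 2 ^ m := by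
      have h3 : (0 : ℤ) < 2 ^ m := by positivity
      nlinarith
    have h3 : (2 * ((m + 2) * (m + 1)) : ℤ) < 2 ^ m := by exact_mod_cast hpow
    linarith
  intro c
  rcases Nat.lt_or_ge m c with hc | hc
  · rw [hf c hc, hg c hc]
  · have h1 := hinv c hc
    rw [h0, zero_mul] at h1
    omega

end RGC
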