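import Pool.Agent.RGC.Kel
import Pool.Agent.RGC.Num
import Pool.Agent.RGC.CdCut

/-! # RGC: the distribution of the codegrees is reconstructible -/

set_option autoImplicit false

namespace RGC

open Finset
open scoped Classical

variable {V W : Type}

private theorem dist_fib [Fintype V] (G : SimpleGraph V) (φ : ℕ → ℕ) :
    ∑ p ∈ (univ : Finset V).offDiag, φ (cd G p.1 p.2) =
      ∑ c ∈ range (Fintype.card V - 1),
        ((univ : Finset V).offDiag.filter fun p => cd G p.1 p.2 = c).card * φ c := by
  have hmaps : ∀ p ∈ (univ : Finset V).offDiag, cd G p.1 p.2 ∈ range (Fintype.card V - 1) := by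
    intro p hp
    have h1 := cd_le G (mem_offDiag.1 hp).2.2
    rw [mem_range]
    omega
  rw [← Finset.sum_fiberwise_of_maps_to hmaps]
  refine Finset.sum_congr rfl fun c _ => ?_
  rw [Finset.sum_congr rfl (g := fun _ => φ c)]
  · rw [Finset.sum_const, smul_eq_mul]
  · intro p hp
    rw [(mem_filter.1 hp).2]

private theorem dist_zero [Fintype V] (G : SimpleGraph V) {c : ℕ}
    (hc : Fintype.card V - 2 < c) :
    ((univ : Finset V).offDiag.filter fun p => cd G p.1 p.2 = c).card = 0 := by
  rw [Finset.card_eq_zero, Finset.filter_eq_empty_iff]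
  intro p hp h
  have h1 := cd_le G (mem_offDiag.1 hp).2.2
  omega

theorem dist_cd [Fintype V] (hn : 10 ≤ Fintype.card V) {G H : SimpleGraph V} (h : DeckEq G H)
    (c : ℕ) :
    ((univ : Finset V).offDiag.filter fun p => cd G p.1 p.2 = c).card =
      ((univ : Finset V).offDiag.filter fun p => cd H p.1 p.2 = c).card := by
  have key := moments hn
    (fun c => ((univ : Finset V).offDiag.filter fun p => cd G p.1 p.2 = c).card)
    (fun c => ((univ : Finset V).offDiag.filter fun p => cd H p.1 p.2 = c).card)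
    (fun c hc => by
      have h0 := dist_zero G hc
      exact h0) (fun c hc => by
      have h0 := dist_zero H hc
      exact h0)
  refine key ?_ ?_ c
  · have h1 := dist_fib G (fun _ => 1)
    simp only [mul_one] at h1
    rw [← h1, Finset.sum_const, smul_eq_mul, mul_one, offDiag_card, Finset.card_univ,
      Nat.mul_sub, mul_one]
  · intro j hj
    have h1 := dist_fib G (fun c => c.choose j)
    have h2 := dist_fib H (fun c => c.choose j)
    have h3 := kelly_cd h hj
    rw [← h1, ← h2]
    exact h3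

/-- every function of the codegree has the same sum over the pairs -/
theorem dist_sum [Fintype V] (hn : 10 ≤ Fintype.card V) {G H : SimpleGraph V} (h : DeckEq G H)
    (φ : ℕ → ℕ) :
    ∑ p ∈ (univ : Finset V).offDiag, φ (cd G p.1 p.2) =
      ∑ p ∈ (univ : Finset V).offDiag, φ (cd H p.1 p.2) := by
  rw [dist_fib, dist_fib]
  refine Finset.sum_congr rfl fun c _ => ?_
  rw [dist_cd hn h c]

/-- every codegree of `H` is a codegree of `G` -/
theorem cd_mem [Fintype V] (hn : 10 ≤ Fintype.card V) {G H : SimpleGraph V} (h : DeckEq G H)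
    {a b : V} (hab : a ≠ b) : ∃ a' b', a' ≠ b' ∧ cd G a' b' = cd H a b := by
  have h1 := dist_cd hn h (cd H a b)
  have h2 : 0 < ((univ : Finset V).offDiag.filter fun p => cd H p.1 p.2 = cd H a b).card := by
    refine Finset.card_pos.2 ⟨(a, b), ?_⟩
    rw [mem_filter, mem_offDiag]
    exact ⟨⟨mem_univ _, mem_univ _, hab⟩, rfl⟩
  rw [← h1] at h2
  obtain ⟨p, hp⟩ := Finset.card_pos.1 h2
  rw [mem_filter, mem_offDiag] at hp
  exact ⟨p.1, p.2, hp.1.2.2, hp.2⟩

theorem cd_mem' [Fintype V] (hn : 10 ≤ Fintype.card V) {G H : SimpleGraph V} (h : DeckEq G H)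
    {a b : V} (hab : a ≠ b) : ∃ a' b', a' ≠ b' ∧ cd H a' b' = cd G a b := by
  have h1 := dist_cd hn h (cd G a b)
  have h2 : 0 < ((univ : Finset V).offDiag.filter fun p => cd G p.1 p.2 = cd G a b).card := by
    refine Finset.card_pos.2 ⟨(a, b), ?_⟩
    rw [mem_filter, mem_offDiag]
    exact ⟨⟨mem_univ _, mem_univ _, hab⟩, rfl⟩
  rw [h1] at h2
  obtain ⟨p, hp⟩ := Finset.card_pos.1 h2
  rw [mem_filter, mem_offDiag] at hp
  exact ⟨p.1, p.2, hp.1.2.2, hp.2⟩

end RGC
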