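import Pool.Agent.RGC.Off
import Pool.Agent.RGC.Dist

/-!
# RGC: half cuts

Two extensions of a card with the same deck differ by a cut, and exactly half of the pairs of the cut
form odd triples with the new vertex.
-/

set_option autoImplicit false

namespace RGC

open Finset
open scoped Classical

variable {V W : Type}

/-- indicator of an odd triple, as an integer -/
private noncomputable def iT (G : SimpleGraph V) (v b w : V) : ℤ := if T G v b w = 1 then 1 else 0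

private theorem iT_comm (G : SimpleGraph V) (v b w : V) : iT G v b w = iT G v w b := by
  unfold iT
  rw [T_swap']

private theorem cd_iT [Fintype V] (G : SimpleGraph V) (v b : V) :
    ((cd G v b : ℕ) : ℤ) = ∑ w, iT G v b w := by
  unfold cd iT
  rw [natCast_card_filter]

/-- indicator of a proposition -/
private noncomputable def iP (p : Prop) : ℤ := if p then 1 else 0

private theorem iP_pos {p : Prop} (h : p) : iP p = 1 := if_pos h

private theorem iP_neg {p : Prop} (h : ¬ p) : iP p = 0 := if_neg h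

private theorem card_pairs [Fintype V] (P : V → V → Prop) :
    (({p : V × V | P p.1 p.2}.ncard : ℕ) : ℤ) = ∑ b, ∑ w, iP (P b w) := by
  have h1 : {p : V × V | P p.1 p.2}.ncard = (univ.filter fun p : V × V => P p.1 p.2).card := by
    rw [← Set.ncard_coe_finset]
    congr 1
    ext p
    simp
  rw [h1, natCast_card_filter, Fintype.sum_prod_type]
  rfl

theorem half [Fintype V] (hV : 4 ≤ Fintype.card V) {G H : SimpleGraph V} (hdeck : DeckEq G H)
    {v : V} (h : OffEq G H v) {d : V → ZMod 2}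
    (hd : ∀ a b, a ≠ v → b ≠ v → T H v a b = T G v a b + d a + d b) :
    HalfCut G v {a | a ≠ v ∧ d a = 1} := by
  set c : V → V → ℤ := fun b w => if (b ≠ v ∧ d b = 1) ∧ ¬ (w ≠ v ∧ d w = 1) ∧ w ≠ v then
    1 - 2 * iT G v b w else 0 with hc
  have hF : ∀ b w, iT H v b w - iT G v b w = c b w + c w b := by
    intro b w
    simp only [hc]
    by_cases hb : b = v
    · subst hb
      unfold iT
      simp [T_left]
    by_cases hw : w = v
    · subst hw
      unfold iT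
      simp [T_outer]
    rw [iT_comm G v w b]
    unfold iT
    rw [hd b w hb hw]
    have h11 : (1 : ZMod 2) + 1 = 0 := by decide
    rcases z2c (d b) with h1 | h1 <;> rcases z2c (d w) with h2 | h2 <;>
      rcases z2c (T G v b w) with h3 | h3 <;> simp [h1, h2, h3, hb, hw, h11]
  have h1 := two_oddThrough G v
  have h2 := two_oddThrough H v
  rw [off_self hV hdeck h] at h2
  have h3 : ∑ b, ∑ w, iT H v b w = ∑ b, ∑ w, iT G v b w := by
    have e1 : ∀ X : SimpleGraph V, ∑ b, ∑ w, iT X v b w = ((∑ b, cd X v b : ℕ) : ℤ) := by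
      intro X
      rw [Nat.cast_sum]
      exact sum_congr rfl (fun b _ => (cd_iT X v b).symm)
    rw [e1, e1, ← h1, ← h2]
  have h4 : ∑ b, ∑ w, c b w = 0 := by
    have e1 : ∑ b, ∑ w, (iT H v b w - iT G v b w) = 0 := by
      simp only [sum_sub_distrib]
      rw [h3, sub_self]
    simp only [hF, sum_add_distrib] at e1
    have e2 : ∑ b, ∑ w, c w b = ∑ b, ∑ w, c b w := sum_comm
    rw [e2] at e1
    omega
  have h5 : ∑ b, ∑ w, c b w =
      (∑ b, ∑ w, iP (b ∈ {a | a ≠ v ∧ d a = 1} ∧ w ∉ {a | a ≠ v ∧ d a = 1} ∧ w ≠ v)) -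
      2 * (∑ b, ∑ w, iP ((b ∈ {a | a ≠ v ∧ d a = 1} ∧ w ∉ {a | a ≠ v ∧ d a = 1} ∧ w ≠ v) ∧
        OddTriple G v b w)) := by
    rw [mul_sum, ← sum_sub_distrib]
    apply sum_congr rfl
    intro b _
    rw [mul_sum, ← sum_sub_distrib]
    apply sum_congr rfl
    intro w _
    simp only [hc, Set.mem_ofPred_eq, oddTriple_iff]
    unfold iT
    by_cases e1 : (b ≠ v ∧ d b = 1) ∧ ¬ (w ≠ v ∧ d w = 1) ∧ w ≠ v
    · rw [if_pos e1, iP_pos e1]
      by_cases e2 : T G v b w = 1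
      · rw [if_pos e2, iP_pos ⟨e1, e2⟩]
      · rw [if_neg e2, iP_neg (fun h => e2 h.2)]
    · rw [if_neg e1, iP_neg e1, iP_neg (fun h => e1 h.1)]
      ring
  have c1 := card_pairs (fun b w => b ∈ {a | a ≠ v ∧ d a = 1} ∧ w ∉ {a | a ≠ v ∧ d a = 1} ∧ w ≠ v)
  have c2 := card_pairs (fun b w => (b ∈ {a | a ≠ v ∧ d a = 1} ∧
    w ∉ {a | a ≠ v ∧ d a = 1} ∧ w ≠ v) ∧ OddTriple G v b w)
  unfold HalfCut
  rw [h4] at h5
  have h6 : (2 : ℤ) * (({p : V × V | (p.1 ∈ {a | a ≠ v ∧ d a = 1} ∧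
      p.2 ∉ {a | a ≠ v ∧ d a = 1} ∧ p.2 ≠ v) ∧ OddTriple G v p.1 p.2}.ncard : ℕ) : ℤ) =
      (({p : V × V | p.1 ∈ {a | a ≠ v ∧ d a = 1} ∧ p.2 ∉ {a | a ≠ v ∧ d a = 1} ∧
        p.2 ≠ v}.ncard : ℕ) : ℤ) := by
    rw [c1, c2]
    linarith
  exact_mod_cast h6

/-- no half cut at `v` -/
theorem crit4 [Fintype V] (hV : 4 ≤ Fintype.card V) {G H : SimpleGraph V} (h : DeckEq G H)
    {v : V} (hv : ∀ D : Set V, v ∉ D → D.Nonempty → (∃ b, b ≠ v ∧ b ∉ D) → ¬ HalfCut G v D) :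
    SwEq G H := by
  obtain ⟨π, hπ⟩ := transport h
  obtain ⟨H', e, -, hoff⟩ := hπ v
  have hsw : SwEq H H' := swEq_iff.2 ⟨e.symm.toEquiv, fun a b c => T_iso e.symm a b c⟩
  have hdeck : DeckEq G H' := deck_congr_right hsw h
  obtain ⟨d, -, hd⟩ := cut hoff
  have hhalf := half hV hdeck hoff hd
  have hall : ∀ a b, a ≠ v → b ≠ v → d a = d b := by
    by_contra hcon
    push Not at hcon
    obtain ⟨a, b, ha, hb, hab⟩ := hcon
    have key : ∀ x y : ZMod 2, x ≠ y → (x = 1 ∧ y ≠ 1) ∨ (y = 1 ∧ x ≠ 1) := by decide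
    rcases key _ _ hab with ⟨h1, h2⟩ | ⟨h1, h2⟩
    · exact hv {a | a ≠ v ∧ d a = 1} (fun h => h.1 rfl) ⟨a, ha, h1⟩ ⟨b, hb, fun h => h2 h.2⟩ hhalf
    · exact hv {a | a ≠ v ∧ d a = 1} (fun h => h.1 rfl) ⟨b, hb, h1⟩ ⟨a, ha, fun h => h2 h.2⟩ hhalf
  exact SwEq.trans (swEq_of_T (T_eq_of_cut hoff hd hall)) hsw.symm

/-- every half cut at `v` contains a forced pair -/
theorem crit [Fintype V] (hn : 10 ≤ Fintype.card V) {G H : SimpleGraph V} (h : DeckEq G H)
    {v : V} (hv : ∀ D : Set V, v ∉ D → D.Nonempty → (∃ b, b ≠ v ∧ b ∉ D) → HalfCut G v D →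
      ∃ a ∈ D, ∃ b, b ∉ D ∧ Forced G v a b) : SwEq G H := by
  obtain ⟨π, hπ⟩ := transport h
  obtain ⟨H', e, -, hoff⟩ := hπ v
  have hsw : SwEq H H' := swEq_iff.2 ⟨e.symm.toEquiv, fun a b c => T_iso e.symm a b c⟩
  have hdeck : DeckEq G H' := deck_congr_right hsw h
  obtain ⟨d, -, hd⟩ := cut hoff
  have step : ∀ a b, Forced G v a b → d a = d b := by
    intro a b hf
    obtain ⟨hab, ha, hb, hcase⟩ := hf
    by_contra hne
    have hcut := cd_cut hoff hd ha hb
    obtain ⟨a', b', hab', hcd⟩ := cd_mem hn hdeck hab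
    rcases hcase with ⟨hodd, hx⟩ | ⟨hodd, hx⟩
    · have hT : T G a b v = 0 := by
        rcases z2c (T G a b v) with h0 | h1
        · exact h0
        · exact absurd ((oddTriple_iff G a b v).2 h1) hodd
      have h1 := hcut.2.1 hne hT
      exact hx a' b' hab' (by rw [codeg_eq, codeg_eq, hcd, h1])
    · have hT : T G a b v = 1 := (oddTriple_iff G a b v).1 hodd
      have h1 := hcut.2.2 hne hT
      exact hx a' b' hab' (by rw [codeg_eq, codeg_eq, hcd, h1])
  have hhalf := half (by omega) hdeck hoff hd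
  have hno : ∀ a b, a ≠ v → b ≠ v → d a = 1 → d b ≠ 1 → False := by
    intro a b ha hb h1 h2
    obtain ⟨x, hx, y, hy, hf⟩ := hv {a | a ≠ v ∧ d a = 1} (fun h => h.1 rfl) ⟨a, ha, h1⟩
      ⟨b, hb, fun h => h2 h.2⟩ hhalf
    have h3 := step x y hf
    exact hy ⟨hf.2.2.1, by rw [← h3]; exact hx.2⟩
  have hall : ∀ a b, a ≠ v → b ≠ v → d a = d b := by
    intro a b ha hb
    by_contra hab
    have key : ∀ x y : ZMod 2, x ≠ y → (x = 1 ∧ y ≠ 1) ∨ (y = 1 ∧ x ≠ 1) := by decide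
    rcases key _ _ hab with ⟨h1, h2⟩ | ⟨h1, h2⟩
    · exact hno a b ha hb h1 h2
    · exact hno b a hb ha h1 h2
  exact SwEq.trans (swEq_of_T (T_eq_of_cut hoff hd hall)) hsw.symm

end RGC
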