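import Pool.Agent.RGC.Eul

/-!
# RGC: transitive classes of prime order are cyclic

MODULE Cyc. Plan. Let `Γ` be the subgroup of `Equiv.Perm V` of all `g` preserving `T G`. It is
transitive, so `p = |V|` divides `|Γ|` (orbit-stabiliser: `MulAction.card_orbit_mul_card_stabilizer_eq_card_group`
or `MulAction.IsPretransitive`), so by Cauchy (`exists_prime_orderOf_dvd_card`) there is `g ∈ Γ` of
order `p`; a permutation of order `p` of a set of `p` elements is a `p`-cycle
(`Equiv.Perm.isCycle_of_prime_order'` or via `cycleType`). So fixing `x₀`, `j ↦ g^j x₀` is a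
bijection `e : ZMod p ≃ V` with `e (j + 1) = g (e j)` (`Equiv.Perm.IsCycle.zpowersEquivSupport`, or
by counting: injective because `g^j x₀ = x₀` for `0 < j < p` would give `g^j` trivial on the cycle).
Put `D = {j : (E G).Adj (e 0) (e j)}`. `E G` is invariant under `g` (`E_iso`), so
`(E G).Adj (e a) (e b) ↔ (E G).Adj (e 0) (e (b - a))`, i.e. `cay D` is `E G` (use the symmetry:
`j ∈ D ↔ -j ∈ D`). So `T (cay D) a b c = T (E G) (e a) (e b) (e c) = T G (e a) (e b) (e c)` (`T_E`).
-/

set_option autoImplicit false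

namespace RGC

open Finset
open scoped Classical

variable {V W : Type}

/-- the permutations preserving the triples of `G` -/
private def cycΓ (G : SimpleGraph V) : Subgroup (Equiv.Perm V) where
  carrier := {g | ∀ a b c, T G (g a) (g b) (g c) = T G a b c}
  mul_mem' := by
    intro g h hg hh a b c
    show T G (g (h a)) (g (h b)) (g (h c)) = _
    rw [hg, hh]
  one_mem' := fun _ _ _ => rfl
  inv_mem' := by
    intro g hg a b c
    rw [← hg]
    simp

theorem exists_cay [Fintype V] {p : ℕ} (hp : p.Prime) (hp2 : p ≠ 2) (hV : Fintype.card V = p)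
    {G : SimpleGraph V}
    (htr : ∀ u v, ∃ g : Equiv.Perm V, (∀ a b c, T G (g a) (g b) (g c) = T G a b c) ∧ g u = v) :
    ∃ D : Set (ZMod p), SwEq G (cay D) := by
  have : Fact p.Prime := ⟨hp⟩
  have : NeZero p := ⟨hp.ne_zero⟩
  have hodd : Odd (Fintype.card V) := by
    rw [hV]
    exact hp.odd_of_ne_two hp2
  have hne : Nonempty V := by
    rw [← Fintype.card_pos_iff, hV]
    exact hp.pos
  obtain ⟨v₀⟩ := hne
  have : MulAction.IsPretransitive (cycΓ G) V := by
    constructor
    intro x y
    obtain ⟨g, hg, hxy⟩ := htr x y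
    exact ⟨⟨g, hg⟩, hxy⟩
  have hdvd : p ∣ Nat.card (cycΓ G) := by
    have h1 := MulAction.index_stabilizer_of_transitive (cycΓ G) v₀
    have h2 := Subgroup.index_dvd_card (MulAction.stabilizer (cycΓ G) v₀)
    rw [h1, Nat.card_eq_fintype_card, hV] at h2
    exact h2
  obtain ⟨γ, hγ⟩ := exists_prime_orderOf_dvd_card' p hdvd
  obtain ⟨g, hg⟩ := γ
  have hord : orderOf g = p := by
    rw [← hγ]
    exact (Subgroup.orderOf_mk g hg).symm
  have hcyc : g.IsCycle := by
    apply Equiv.Perm.isCycle_of_prime_order''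
    · rw [hV]; exact hp
    · rw [hord, hV]
  have hsupp : ∀ x, g x ≠ x := by
    have h1 : g.support.card = Fintype.card V := by
      rw [← hcyc.orderOf, hord, hV]
    have h2 : g.support = univ := (card_eq_iff_eq_univ _).1 h1
    intro x
    rw [← Equiv.Perm.mem_support, h2]
    exact mem_univ x
  let f : ZMod p → V := fun j => (g ^ j.val) v₀
  have hmod : ∀ k : ℕ, g ^ (k % p) = g ^ k := by
    intro k
    rw [← hord, pow_mod_orderOf]
  have hadd : ∀ a b : ZMod p, f (a + b) = (g ^ a.val) (f b) := by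
    intro a b
    show (g ^ (a + b).val) v₀ = (g ^ a.val) ((g ^ b.val) v₀)
    rw [ZMod.val_add, hmod, pow_add]
    rfl
  have hsurj : Function.Surjective f := by
    intro y
    obtain ⟨i, hi⟩ := hcyc.exists_pow_eq (hsupp v₀) (hsupp y)
    refine ⟨(i : ZMod p), ?_⟩
    show (g ^ (i : ZMod p).val) v₀ = y
    rw [ZMod.val_natCast, hmod]
    exact hi
  have hbij : Function.Bijective f :=
    (Fintype.bijective_iff_surjective_and_card f).2 ⟨hsurj, by rw [ZMod.card, hV]⟩
  let e : ZMod p ≃ V := Equiv.ofBijective f hbij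
  have he : ∀ j, e j = f j := fun _ => rfl
  have hpow : ∀ k : ℕ, ∀ a b c, T G ((g ^ k) a) ((g ^ k) b) ((g ^ k) c) = T G a b c := by
    intro k
    have : g ^ k ∈ cycΓ G := (cycΓ G).pow_mem hg k
    exact this
  have hE : ∀ a b : ZMod p, s (E G) (e a) (e b) = s (E G) (e 0) (e (b - a)) := by
    intro a b
    have h1 := E_iso (g ^ a.val) (hpow a.val) (e 0) (e (b - a))
    rw [he, he, ← hadd, ← hadd, add_zero, add_sub_cancel] at h1
    exact h1
  let D : Set (ZMod p) := {j | (E G).Adj (e 0) (e j)}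
  have hD : ∀ a b : ZMod p, s (cay D) a b = s (E G) (e a) (e b) := by
    intro a b
    by_cases hab : a = b
    · subst hab
      rw [s_self, s_self]
    have h1 : (cay D).Adj a b ↔ (E G).Adj (e a) (e b) := by
      show (a ≠ b ∧ ((E G).Adj (e 0) (e (b - a)) ∨ (E G).Adj (e 0) (e (a - b)))) ↔ _
      rw [← s_eq_one, ← s_eq_one, ← s_eq_one, ← hE, ← hE, s_comm (E G) (e b) (e a)]
      tauto
    unfold s
    simp only [h1]
  refine ⟨D, swEq_iff.2 ⟨e.symm, fun a b c => ?_⟩⟩
  unfold T
  rw [hD, hD, hD]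
  simp only [Equiv.apply_symm_apply]
  exact T_E hodd G a b c

end RGC
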