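import Mathlib

/-!
# Switching classes: definitions (MP_87adae_co, project RGC)
-/

set_option autoImplicit false

namespace RGC

open Finset
open scoped Classical

variable {V W : Type}

/-- The graph obtained from `X` by switching on `τ`. -/
def sw (X : SimpleGraph V) (τ : Set V) : SimpleGraph V where
  Adj u w := u ≠ w ∧ Xor (X.Adj u w) (Xor (u ∈ τ) (w ∈ τ))
  symm := ⟨fun u w h => ⟨h.1.symm, by
    have := h.2
    rw [X.adj_comm, xor_comm (w ∈ τ)]
    exact this⟩⟩
  loopless := ⟨fun u h => h.1 rfl⟩

/-- `X` and `Y` are switching equivalent. -/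
def SwEq (X : SimpleGraph V) (Y : SimpleGraph W) : Prop :=
  ∃ τ : Set V, Nonempty (Y ≃g sw X τ)

/-- The card `G - v`. -/
def cardOf (G : SimpleGraph V) (v : V) : SimpleGraph {x : V // x ≠ v} :=
  G.comap Subtype.val

/-- The decks can be matched so that matched cards are switching equivalent. -/
def DeckEq (G : SimpleGraph V) (H : SimpleGraph W) : Prop :=
  ∃ π : V ≃ W, ∀ v, SwEq (cardOf G v) (cardOf H (π v))

/-- The switching class of `G` is reconstructible. -/
def Recon (G : SimpleGraph V) : Prop :=
  ∀ H : SimpleGraph V, DeckEq G H → SwEq G H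

/-- The vertices `a, b, c` are distinct and span an odd number of edges. -/
def OddTriple (G : SimpleGraph V) (a b c : V) : Prop :=
  a ≠ b ∧ b ≠ c ∧ a ≠ c ∧ Xor (G.Adj a b) (Xor (G.Adj b c) (G.Adj a c))

/-- The number of odd triples containing `a` and `b`. -/
noncomputable def codeg (G : SimpleGraph V) (a b : V) : ℕ :=
  {w : V | OddTriple G a b w}.ncard

/-- The number of odd triples (as sets of three vertices) that contain the vertex `v`. -/
noncomputable def oddThrough (G : SimpleGraph V) (v : V) : ℕ :=
  {t : Finset V | v ∈ t ∧ ∃ a b c, t = {a, b, c} ∧ OddTriple G a b c}.ncard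

/-- `G` is `k`-regular, adjacent vertices have `l` common neighbours, and distinct nonadjacent
vertices have `m` common neighbours or none (amply regular; contains all strongly regular and all
distance-regular graphs). -/
def AmplyRegular (G : SimpleGraph V) (k l m : ℕ) : Prop :=
  (∀ v, (G.neighborSet v).ncard = k) ∧
  (∀ u w, G.Adj u w → (G.commonNeighbors u w).ncard = l) ∧
  (∀ u w, u ≠ w → ¬ G.Adj u w →
    (G.commonNeighbors u w).ncard = 0 ∨ (G.commonNeighbors u w).ncard = m)

/-- `c` is an eigenvalue of the Laplacian matrix of the card `G - v`: some nonzero function `f`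
(defined to be `0` at `v`) satisfies `∑_{w ~ u, w ≠ v} (f u - f w) = c f u` for all `u ≠ v`. -/
def LaplaceEigenvalue [Fintype V] (G : SimpleGraph V) (v : V) (c : ℝ) : Prop :=
  ∃ f : V → ℝ, f ≠ 0 ∧ f v = 0 ∧
    ∀ u, u ≠ v → ∑ w, (if G.Adj u w ∧ w ≠ v then f u - f w else 0) = c * f u

/-- The Cayley graph of the additive group `A` with connection set `D ∪ -D` (without `0`). -/
def cay {A : Type} [AddCommGroup A] (D : Set A) : SimpleGraph A where
  Adj a b := a ≠ b ∧ (b - a ∈ D ∨ a - b ∈ D)
  symm := ⟨fun _ _ h => ⟨h.1.symm, h.2.symm⟩⟩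
  loopless := ⟨fun _ h => h.1 rfl⟩

/-- The eigenvalue of the Cayley graph of `D` at the character `χ`. -/
noncomputable def cayEig {A : Type} [AddCommGroup A] [Fintype A] (D : Set A) (χ : AddChar A ℂ) : ℂ :=
  ∑ a, if (cay D).Adj 0 a then χ a else 0

/-- Every isomorphism from the subclass of `G` on `V ∖ {u, v}` onto a subclass of `G` extends to an
automorphism of the class of `G`. -/
def Extends (G : SimpleGraph V) (u v : V) : Prop :=
  ∀ e : Equiv.Perm V,
    (∀ x y z, x ≠ u → x ≠ v → y ≠ u → y ≠ v → z ≠ u → z ≠ v →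
      (OddTriple G (e x) (e y) (e z) ↔ OddTriple G x y z)) →
    ∃ g : Equiv.Perm V, (∀ x y z, OddTriple G (g x) (g y) (g z) ↔ OddTriple G x y z) ∧
      ∀ x, x ≠ u → x ≠ v → g x = e x

/-- The pair `a, b` of vertices other than `v` is forced at `v`: reversing the parity of the triple
`a, b, v` would change the codegree of `a, b` by one, to a number that is not a codegree of `G`. -/
def Forced (G : SimpleGraph V) (v a b : V) : Prop :=
  a ≠ b ∧ a ≠ v ∧ b ≠ v ∧
    ((¬ OddTriple G a b v ∧ ∀ x y, x ≠ y → codeg G x y ≠ codeg G a b + 1) ∨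
      (OddTriple G a b v ∧ ∀ x y, x ≠ y → codeg G x y + 1 ≠ codeg G a b))

/-- Exactly half of the pairs `a ∈ D`, `b ∉ D`, `b ≠ v`, form odd triples with `v`
(used for sets `D` that do not contain `v`). -/
def HalfCut (G : SimpleGraph V) (v : V) (D : Set V) : Prop :=
  2 * {p : V × V | (p.1 ∈ D ∧ p.2 ∉ D ∧ p.2 ≠ v) ∧ OddTriple G v p.1 p.2}.ncard =
    {p : V × V | p.1 ∈ D ∧ p.2 ∉ D ∧ p.2 ≠ v}.ncard

/-! ### working notions -/

/-- indicator of adjacency modulo two -/
noncomputable def s (G : SimpleGraph V) (u w : V) : ZMod 2 := if G.Adj u w then 1 else 0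

/-- parity of a triple -/
noncomputable def T (G : SimpleGraph V) (a b c : V) : ZMod 2 := s G a b + s G b c + s G a c

/-- the codegree, as a finset cardinality -/
noncomputable def cd [Fintype V] (G : SimpleGraph V) (a b : V) : ℕ :=
  (univ.filter fun w : V => T G a b w = 1).card

/-- `G` and `H` have the same triples off `v` -/
def OffEq (G H : SimpleGraph V) (v : V) : Prop :=
  ∀ a b c, a ≠ v → b ≠ v → c ≠ v → T H a b c = T G a b c

/-- The even graph of the class (for odd order): `a ~ b` iff the codegree is odd. -/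
noncomputable def E [Fintype V] (G : SimpleGraph V) : SimpleGraph V where
  Adj a b := a ≠ b ∧ Odd (cd G a b)
  symm := ⟨fun a b h => ⟨h.1.symm, by
    have e : cd G b a = cd G a b := by
      unfold cd
      congr 1
      ext w
      simp only [mem_filter, mem_univ, true_and]
      have : T G b a w = T G a b w := by
        unfold T s
        rw [G.adj_comm b a]
        ring
      rw [this]
    rw [e]
    exact h.2⟩⟩
  loopless := ⟨fun _ h => h.1 rfl⟩

/-- the Seidel matrix -/
noncomputable def Sd (G : SimpleGraph V) : Matrix V V ℝ :=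
  fun a b => if a = b then 0 else if G.Adj a b then -1 else 1

end RGC
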