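import Pool.Agent.RGC.Defs

/-!
# RGC: the graph with all edges at a vertex deleted
-/

set_option autoImplicit false

namespace RGC

open Finset
open scoped Classical

variable {V W : Type}

/-- all edges at `v` deleted -/
def del (X : SimpleGraph V) (v : V) : SimpleGraph V where
  Adj a b := X.Adj a b ∧ a ≠ v ∧ b ≠ v
  symm := ⟨fun _ _ h => ⟨h.1.symm, h.2.2, h.2.1⟩⟩
  loopless := ⟨fun _ h => h.1.ne rfl⟩

end RGC
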