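import Pool.Agent.RGC.CdCut

/-!
# RGC: the even graph of a class of odd order

The parity of the codegree is the sum of the parities of the triples; for odd order the graph of the
pairs of odd codegree is the even graph of the class.
-/

set_option autoImplicit false

namespace RGC

open Finset
open scoped Classical

variable {V W : Type}

private theorem eul_cd [Fintype V] (G : SimpleGraph V) (a b : V) :
    ((cd G a b : ℕ) : ZMod 2) = ∑ w, T G a b w := by
  unfold cd
  rw [Finset.natCast_card_filter]
  refine sum_congr rfl fun w _ => ?_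
  rcases z2c (T G a b w) with h | h
  · rw [h]
    rfl
  · rw [h]
    rfl

private theorem eul_adj [Fintype V] (G : SimpleGraph V) {a b : V} (h : a ≠ b) :
    s (E G) a b = ((cd G a b : ℕ) : ZMod 2) := by
  unfold s
  by_cases h1 : Odd (cd G a b)
  · have h2 : (E G).Adj a b := ⟨h, h1⟩
    rw [if_pos h2, eq_comm, ZMod.natCast_eq_one_iff_odd]
    exact h1
  · have h2 : ¬ (E G).Adj a b := fun h3 => h1 h3.2
    rw [if_neg h2, eq_comm, ZMod.natCast_eq_zero_iff_even]
    exact Nat.not_odd_iff_even.1 h1

private theorem eul_card [Fintype V] (hodd : Odd (Fintype.card V)) :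
    ((Fintype.card V : ℕ) : ZMod 2) = 1 :=
  ZMod.natCast_eq_one_iff_odd.2 hodd

theorem s_E [Fintype V] (hodd : Odd (Fintype.card V)) (G : SimpleGraph V) {a b : V} (h : a ≠ b) :
    s (E G) a b = s G a b + ∑ w, s G a w + ∑ w, s G b w := by
  rw [eul_adj G h, eul_cd]
  simp only [T]
  rw [sum_add_distrib, sum_add_distrib, sum_const, card_univ, nsmul_eq_mul, eul_card hodd, one_mul]
  ring

private theorem eul_all [Fintype V] (hodd : Odd (Fintype.card V)) (G : SimpleGraph V) (a b : V) :
    s (E G) a b = s G a b + ∑ w, s G a w + ∑ w, s G b w := by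
  by_cases h : a = b
  · subst h
    rw [s_self, s_self, add_assoc, z2, add_zero]
  · exact s_E hodd G h

theorem s_E_one [Fintype V] (G : SimpleGraph V) {a b : V} (h : a ≠ b) :
    s (E G) a b = 1 ↔ Odd (cd G a b) := by
  rw [eul_adj G h, ZMod.natCast_eq_one_iff_odd]

theorem T_E [Fintype V] (hodd : Odd (Fintype.card V)) (G : SimpleGraph V) (a b c : V) :
    T (E G) a b c = T G a b c := by
  unfold T
  rw [eul_all hodd G a b, eul_all hodd G b c, eul_all hodd G a c]
  have key : ∀ x y z p q r : ZMod 2, (x + p + q) + (y + q + r) + (z + p + r) = x + y + z := by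
    decide
  exact key _ _ _ _ _ _

theorem deg_E [Fintype V] (hodd : Odd (Fintype.card V)) (G : SimpleGraph V) (a : V) :
    ∑ w, s (E G) a w = 0 := by
  have h1 : ∑ w, s (E G) a w = ∑ w, (s G a w + ∑ u, s G a u + ∑ u, s G w u) :=
    sum_congr rfl fun w _ => eul_all hodd G a w
  have h2 : ∑ w, ∑ u, s G w u = 0 := by
    rw [← sum_product']
    refine sum_involution (fun p _ => (p.2, p.1)) ?_ ?_ ?_ ?_
    · intro p _
      show s G p.1 p.2 + s G p.2 p.1 = 0
      rw [s_comm G p.2 p.1, z2]
    · intro p _ hp he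
      apply hp
      have h3 : p.2 = p.1 := congrArg Prod.fst he
      show s G p.1 p.2 = 0
      rw [h3, s_self]
    · intro p _
      exact mem_product.2 ⟨mem_univ _, mem_univ _⟩
    · intro p _
      rfl
  rw [h1, sum_add_distrib, sum_add_distrib, h2, sum_const, card_univ, nsmul_eq_mul, eul_card hodd,
    one_mul, z2, add_zero]

theorem E_iso [Fintype V] [Fintype W] {G : SimpleGraph V} {H : SimpleGraph W} (e : V ≃ W)
    (he : ∀ a b c, T H (e a) (e b) (e c) = T G a b c) (a b : V) :
    s (E H) (e a) (e b) = s (E G) a b := by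
  by_cases h : a = b
  · subst h
    rw [s_self, s_self]
  · rw [eul_adj G h, eul_adj H (fun h1 => h (e.injective h1)), cd_iso e he]

theorem E_unique [Fintype V] (hodd : Odd (Fintype.card V)) {G X : SimpleGraph V}
    (hX : ∀ a, ∑ w, s X a w = 0) (hT : ∀ a b c, T X a b c = T G a b c) : E G = X := by
  have h1 : ∀ a b, s (E G) a b = s X a b := by
    intro a b
    have h2 := E_iso (G := X) (H := G) (Equiv.refl V) (fun a b c => (hT a b c).symm) a b
    rw [Equiv.refl_apply, Equiv.refl_apply] at h2
    rw [h2, eul_all hodd X a b, hX, hX, add_zero, add_zero]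
  ext a b
  rw [← s_eq_one, ← s_eq_one, h1]

/-- the neighbourhoods of `v` in the two even graphs are equal or complementary -/
theorem E_off [Fintype V] (hodd : Odd (Fintype.card V)) {G H : SimpleGraph V} {v : V}
    (h : OffEq G H v) {a b : V} (ha : a ≠ v) (hb : b ≠ v) :
    s (E H) v a + s (E G) v a = s (E H) v b + s (E G) v b := by
  by_cases hab : a = b
  · rw [hab]
  have h1 : ((cd H a b : ℕ) : ZMod 2) + ((cd G a b : ℕ) : ZMod 2) = T H a b v + T G a b v := by
    rw [eul_cd, eul_cd, ← sum_add_distrib]
    refine sum_eq_single v (fun w _ hw => ?_) (fun h2 => absurd (mem_univ v) h2)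
    rw [h a b w ha hb hw, z2]
  rw [← eul_adj H hab, ← eul_adj G hab, ← T_E hodd H, ← T_E hodd G] at h1
  unfold T at h1
  rw [s_comm (E H) b v, s_comm (E H) a v, s_comm (E G) b v, s_comm (E G) a v] at h1
  have key : ∀ x y p q p' q' : ZMod 2, x + y = (x + p + q) + (y + p' + q') →
      q + q' = p + p' := by
    decide
  exact key _ _ _ _ _ _ h1

end RGC
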