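import Pool.Agent.RGC.Bas

/-!
# RGC: classes of even order whose vertices lie in equally many odd triples modulo two

The proof is that of the earlier hand-in EvenParity (helper56), restated over the definitions of this
project, together with the double count of the odd triples through a vertex.
-/

set_option autoImplicit false

namespace RGC

open Finset
open scoped Classical

variable {V W : Type}

/-- indicator of a proposition modulo two -/
noncomputable def ind (p : Prop) : ZMod 2 := if p then 1 else 0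

theorem ind_congr {p q : Prop} (h : p ↔ q) : ind p = ind q := by
  have : p = q := propext h
  rw [this]

theorem ind_one {p : Prop} (a : ZMod 2) (h : p ↔ a = 1) : ind p = a := by
  have h2 : ∀ a : ZMod 2, a ≠ 1 → a = 0 := by decide
  unfold ind
  by_cases hp : p
  · rw [if_pos hp, h.1 hp]
  · rw [if_neg hp, h2 a (fun h' => hp (h.2 h'))]

theorem s_sw_ind (X : SimpleGraph V) (τ : Set V) {u w : V} (h : u ≠ w) :
    s (sw X τ) u w = s X u w + ind (u ∈ τ) + ind (w ∈ τ) := by
  have h2 : (1 : ZMod 2) + 1 = 0 := by decide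
  unfold s sw ind
  by_cases h1 : X.Adj u w <;> by_cases h3 : u ∈ τ <;> by_cases h4 : w ∈ τ <;>
    simp [h, h1, h3, h4, Xor, h2]

/-- the triple `u, v, w` is odd (the three vertices are distinct and span an odd number of edges) -/
def OT (G : SimpleGraph V) (u v w : V) : Prop :=
  u ≠ v ∧ v ≠ w ∧ u ≠ w ∧ s G u v + s G v w + s G u w = 1

theorem OT_sw (X : SimpleGraph V) (τ : Set V) (u v w : V) :
    OT (sw X τ) u v w ↔ OT X u v w := by
  have key : ∀ a b c x y z : ZMod 2, (a + x + y) + (b + y + z) + (c + x + z) = a + b + c := by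
    decide
  unfold OT
  constructor
  · rintro ⟨h1, h3, h4, h5⟩
    rw [s_sw_ind X τ h1, s_sw_ind X τ h3, s_sw_ind X τ h4, key] at h5
    exact ⟨h1, h3, h4, h5⟩
  · rintro ⟨h1, h3, h4, h5⟩
    refine ⟨h1, h3, h4, ?_⟩
    rw [s_sw_ind X τ h1, s_sw_ind X τ h3, s_sw_ind X τ h4, key]
    exact h5

theorem s_iso {G : SimpleGraph V} {H : SimpleGraph W} (e : G ≃g H) (u w : V) :
    s H (e u) (e w) = s G u w := by
  unfold s
  simp only [e.map_adj_iff]

theorem OT_iso {G : SimpleGraph V} {H : SimpleGraph W} (e : G ≃g H) (u v w : V) :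
    OT H (e u) (e v) (e w) ↔ OT G u v w := by
  unfold OT
  simp only [s_iso, ne_eq, EmbeddingLike.apply_eq_iff_eq]

theorem s_card (G : SimpleGraph V) (v : V) (a b : {x : V // x ≠ v}) :
    s (cardOf G v) a b = s G a.1 b.1 := rfl

theorem OT_card (G : SimpleGraph V) (v : V) (a b c : {x : V // x ≠ v}) :
    OT (cardOf G v) a b c ↔ OT G a.1 b.1 c.1 := by
  unfold OT
  simp only [s_card, ne_eq, Subtype.ext_iff]

theorem OT_rot (G : SimpleGraph V) (a b c : V) : OT G a b c ↔ OT G b a c := by
  unfold OT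
  constructor
  · rintro ⟨h1, h2, h3, h4⟩
    exact ⟨h1.symm, h3, h2, by rw [← h4, s_comm G b a]; ring⟩
  · rintro ⟨h1, h2, h3, h4⟩
    exact ⟨h1.symm, h3, h2, by rw [← h4, s_comm G a b]; ring⟩

theorem OT_rot2 (G : SimpleGraph V) (a b c : V) : OT G a b c ↔ OT G a c b := by
  unfold OT
  constructor
  · rintro ⟨h1, h2, h3, h4⟩
    exact ⟨h3, h2.symm, h1, by rw [← h4, s_comm G c b]; ring⟩
  · rintro ⟨h1, h2, h3, h4⟩
    exact ⟨h3, h2.symm, h1, by rw [← h4, s_comm G b c]; ring⟩

section Count

variable [Fintype V] [Fintype W]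

/-- twice the number of odd triples containing `v` -/
noncomputable def D2 (G : SimpleGraph V) (v : V) : ℕ :=
  (univ.filter (fun p : V × V => OT G v p.1 p.2)).card

/-- the number of odd triples containing `u` and `v` -/
noncomputable def D1 (G : SimpleGraph V) (u v : V) : ℕ :=
  (univ.filter (fun w : V => OT G u v w)).card

/-- six times the number of odd triples -/
noncomputable def N3 (G : SimpleGraph V) : ℕ := ∑ v, D2 G v

theorem D2_iso {G : SimpleGraph V} {H : SimpleGraph W} (e : G ≃g H) (v : V) :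
    D2 H (e v) = D2 G v := by
  symm
  apply card_bij (fun p _ => (e p.1, e p.2))
  · intro p hp
    rw [mem_filter] at hp ⊢
    exact ⟨mem_univ _, (OT_iso e _ _ _).2 hp.2⟩
  · intro p _ q _ h
    have h1 := (Prod.mk.inj h).1
    have h2 := (Prod.mk.inj h).2
    exact Prod.ext (e.injective h1) (e.injective h2)
  · intro q hq
    refine ⟨(e.symm q.1, e.symm q.2), ?_, ?_⟩
    · rw [mem_filter] at hq ⊢
      refine ⟨mem_univ _, (OT_iso e _ _ _).1 ?_⟩
      simpa using hq.2
    · simp

theorem D2_sw (X : SimpleGraph V) (τ : Set V) (v : V) : D2 (sw X τ) v = D2 X v := by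
  unfold D2
  congr 1
  ext p
  simp [OT_sw]

theorem D2_card (G : SimpleGraph V) (v : V) (u : {x : V // x ≠ v}) :
    D2 G u.1 = D2 (cardOf G v) u + 2 * D1 G u.1 v := by
  have h1 : (univ.filter (fun p : V × V => OT G u.1 p.1 p.2)).card =
      (univ.filter (fun p : V × V => OT G u.1 p.1 p.2 ∧ p.1 ≠ v ∧ p.2 ≠ v)).card +
      ((univ.filter (fun p : V × V => OT G u.1 p.1 p.2 ∧ p.1 = v)).card +
      (univ.filter (fun p : V × V => OT G u.1 p.1 p.2 ∧ p.2 = v)).card) := by
    rw [← card_union_of_disjoint, ← card_union_of_disjoint]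
    · congr 1
      ext p
      simp only [mem_filter, mem_univ, true_and, mem_union]
      tauto
    · rw [disjoint_left]
      intro p hp hq
      simp only [mem_filter, mem_univ, true_and, mem_union] at hp hq
      tauto
    · rw [disjoint_left]
      intro p hp hq
      simp only [mem_filter, mem_univ, true_and] at hp hq
      exact hp.1.2.1 (hp.2.trans hq.2.symm)
  have h2 : (univ.filter (fun p : V × V => OT G u.1 p.1 p.2 ∧ p.1 ≠ v ∧ p.2 ≠ v)).card =
      D2 (cardOf G v) u := by
    symm
    apply card_bij (fun p _ => (p.1.1, p.2.1))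
    · intro p hp
      rw [mem_filter] at hp ⊢
      exact ⟨mem_univ _, (OT_card G v _ _ _).1 hp.2, p.1.2, p.2.2⟩
    · intro p _ q _ h
      exact Prod.ext (Subtype.ext (Prod.mk.inj h).1) (Subtype.ext (Prod.mk.inj h).2)
    · intro q hq
      rw [mem_filter] at hq
      exact ⟨(⟨q.1, hq.2.2.1⟩, ⟨q.2, hq.2.2.2⟩),
        mem_filter.2 ⟨mem_univ _, (OT_card G v _ _ _).2 hq.2.1⟩, rfl⟩
  have h3 : (univ.filter (fun p : V × V => OT G u.1 p.1 p.2 ∧ p.1 = v)).card = D1 G u.1 v := by
    symm
    apply card_bij (fun w _ => (v, w))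
    · intro w hw
      rw [mem_filter] at hw ⊢
      exact ⟨mem_univ _, hw.2, rfl⟩
    · intro a _ b _ h
      exact (Prod.mk.inj h).2
    · intro q hq
      rw [mem_filter] at hq
      obtain ⟨-, h, rfl⟩ := hq
      exact ⟨q.2, mem_filter.2 ⟨mem_univ _, h⟩, rfl⟩
  have h4 : (univ.filter (fun p : V × V => OT G u.1 p.1 p.2 ∧ p.2 = v)).card = D1 G u.1 v := by
    symm
    apply card_bij (fun w _ => (w, v))
    · intro w hw
      rw [mem_filter] at hw ⊢
      exact ⟨mem_univ _, (OT_rot2 _ _ _ _).1 hw.2, rfl⟩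
    · intro a _ b _ h
      exact (Prod.mk.inj h).1
    · intro q hq
      rw [mem_filter] at hq
      obtain ⟨-, h, rfl⟩ := hq
      exact ⟨q.1, mem_filter.2 ⟨mem_univ _, (OT_rot2 _ _ _ _).1 h⟩, rfl⟩
  unfold D2 at h2 ⊢
  rw [h1, h2, h3, h4]
  ring

theorem D1_self (G : SimpleGraph V) (v : V) : D1 G v v = 0 := by
  unfold D1
  rw [card_eq_zero, filter_eq_empty_iff]
  intro w _ h
  exact h.1 rfl

theorem sum_D1 (G : SimpleGraph V) (v : V) : ∑ u : {x : V // x ≠ v}, D1 G u.1 v = D2 G v := by
  have h1 : ∑ u : {x : V // x ≠ v}, D1 G u.1 v = ∑ u : V, D1 G u v := by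
    have h2 : ∑ u : {x : V // x ≠ v}, D1 G u.1 v = ∑ u ∈ univ.filter (fun x => x ≠ v), D1 G u v :=
      (sum_subtype (univ.filter (fun x => x ≠ v)) (fun x => by simp) (fun u => D1 G u v)).symm
    rw [h2]
    apply sum_subset (subset_univ _)
    intro x _ hx
    have : x = v := by simpa using hx
    rw [this, D1_self]
  rw [h1]
  unfold D1 D2
  rw [← card_sigma]
  symm
  apply card_bij (fun p _ => (⟨p.1, p.2⟩ : (_ : V) × V))
  · intro p hp
    rw [mem_filter] at hp
    rw [mem_sigma, mem_filter]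
    exact ⟨mem_univ _, mem_univ _, (OT_rot _ _ _ _).1 hp.2⟩
  · rintro ⟨a, b⟩ _ ⟨c, d⟩ _ h
    simpa using h
  · rintro ⟨a, b⟩ hq
    rw [mem_sigma, mem_filter] at hq
    exact ⟨(a, b), mem_filter.2 ⟨mem_univ _, (OT_rot _ _ _ _).1 hq.2.2⟩, rfl⟩

theorem sum_erase (F : V → ℕ) (v : V) :
    ∑ u : {x : V // x ≠ v}, F u.1 + F v = ∑ u, F u := by
  have h2 : ∑ u : {x : V // x ≠ v}, F u.1 = ∑ u ∈ univ.erase v, F u :=
    (sum_subtype (univ.erase v) (fun x => by simp) F).symm
  rw [h2, sum_erase_add _ _ (mem_univ v)]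

theorem N3_card (G : SimpleGraph V) (v : V) : N3 (cardOf G v) + 3 * D2 G v = N3 G := by
  have h1 : ∑ u : {x : V // x ≠ v}, D2 G u.1 = N3 (cardOf G v) + 2 * D2 G v := by
    rw [← sum_D1 G v, mul_sum]
    unfold N3
    rw [← sum_add_distrib]
    exact sum_congr rfl (fun u _ => D2_card G v u)
  have h2 := sum_erase (fun u => D2 G u) v
  unfold N3 at h1 ⊢
  omega

theorem sum_N3_card (G : SimpleGraph V) :
    ∑ v, N3 (cardOf G v) + 3 * N3 G = Fintype.card V * N3 G := by
  have h1 : ∑ v, (N3 (cardOf G v) + 3 * D2 G v) = ∑ _v : V, N3 G :=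
    sum_congr rfl (fun v _ => N3_card G v)
  rw [sum_add_distrib, ← mul_sum, sum_const, smul_eq_mul, card_univ] at h1
  exact h1

theorem N3_SwEq {X : SimpleGraph V} {Y : SimpleGraph W} (h : SwEq X Y) : N3 Y = N3 X := by
  obtain ⟨τ, ⟨e⟩⟩ := h
  unfold N3
  symm
  rw [← e.toEquiv.sum_comp]
  apply sum_congr rfl
  intro y _
  rw [← D2_sw X τ]
  exact D2_iso e y

theorem cast_D1 (G : SimpleGraph V) (w : V) (y : {x : V // x ≠ w}) :
    ((D1 G y.1 w : ℕ) : ZMod 2) =
      ∑ x : {x : V // x ≠ w}, if x = y then 0 else s G w y.1 + s G y.1 x.1 + s G w x.1 := by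
  have h1 : D1 G y.1 w = (univ.filter (fun x : {x : V // x ≠ w} =>
      x ≠ y ∧ s G w y.1 + s G y.1 x.1 + s G w x.1 = 1)).card := by
    symm
    apply card_bij (fun x _ => x.1)
    · intro x hx
      rw [mem_filter] at hx ⊢
      obtain ⟨-, h2, h3⟩ := hx
      refine ⟨mem_univ _, y.2, fun h => x.2 h.symm, fun h => h2 (Subtype.ext h.symm), ?_⟩
      rw [← h3, s_comm G y.1 w]
      ring
    · intro a _ b _ h
      exact Subtype.ext h
    · intro z hz
      rw [mem_filter] at hz
      obtain ⟨-, h2, h3, h4, h5⟩ := hz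
      refine ⟨⟨z, fun h => h3 h.symm⟩, mem_filter.2 ⟨mem_univ _, ?_, ?_⟩, rfl⟩
      · intro h
        exact h4 (congrArg Subtype.val h).symm
      · rw [← h5, s_comm G y.1 w]
        ring
  rw [h1, natCast_card_filter]
  apply sum_congr rfl
  intro x _
  have h2 : ∀ a : ZMod 2, (if a = 1 then (1 : ZMod 2) else 0) = a := by decide
  by_cases hx : x = y
  · simp [hx]
  · rw [if_neg hx, ← h2 (s G w y.1 + s G y.1 x.1 + s G w x.1)]
    simp [hx, h2]

/-- Extending an isomorphism of cards. -/
theorem extend (G : SimpleGraph W) (H : SimpleGraph V) (v : V) (w : W)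
    (τ : Set {x : V // x ≠ v}) (e : cardOf G w ≃g sw (cardOf H v) τ)
    (hV : Even (Fintype.card V))
    (hpar : ∀ y : {y : W // y ≠ w}, D1 G y.1 w % 2 = D1 H (e y).1 v % 2) : SwEq G H := by
  have hs : ∀ y y' : {y : W // y ≠ w}, y ≠ y' → s G y.1 y'.1 =
      s H (e y).1 (e y').1 + ind (e y ∈ τ) + ind (e y' ∈ τ) := by
    intro y y' hy
    have h1 := s_iso e y y'
    rw [s_sw_ind _ _ (fun h => hy (e.injective h)), s_card, s_card] at h1
    exact h1.symm
  -- the correction
  let σ : {y : W // y ≠ w} → ZMod 2 := fun y =>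
    s H v (e y).1 + s G w y.1 + ind (e y ∈ τ)
  have hdouble : ∀ a : ZMod 2, a + a = 0 := by decide
  have hσ : ∀ y : {y : W // y ≠ w}, ∑ x : {y : W // y ≠ w}, (σ y + σ x) = 0 := by
    intro y
    have h1 : ((D1 G y.1 w : ℕ) : ZMod 2) = ((D1 H (e y).1 v : ℕ) : ZMod 2) := by
      rw [ZMod.natCast_eq_natCast_iff]
      exact hpar y
    rw [cast_D1, cast_D1, ← e.toEquiv.sum_comp] at h1
    have h2 : ∑ x : {y : W // y ≠ w}, ((if x = y then 0 else
        s G w y.1 + s G y.1 x.1 + s G w x.1) + (if e x = e y then 0 else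
        s H v (e y).1 + s H (e y).1 (e x).1 + s H v (e x).1)) = 0 := by
      rw [sum_add_distrib, h1]
      exact hdouble _
    rw [← h2]
    apply sum_congr rfl
    intro x _
    by_cases hx : x = y
    · subst hx
      simp [hdouble]
    · have hx' : e x ≠ e y := fun h => hx (e.injective h)
      rw [if_neg hx, if_neg hx', hs y x (fun h => hx h.symm)]
      simp only [σ]
      have key : ∀ a b c d f g h : ZMod 2, a + b + c + (d + f + g) =
          b + (h + c + g) + f + (a + h + d) := by decide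
      exact key _ _ _ _ _ _ _
  have hcardW : Fintype.card W = Fintype.card V := by
    have h1 := Fintype.card_congr e.toEquiv
    have h2 : Fintype.card {y : W // y ≠ w} + 1 = Fintype.card W := by
      rw [Fintype.card_subtype_compl (fun y => y = w), Fintype.card_subtype_eq]
      have : 0 < Fintype.card W := Fintype.card_pos_iff.2 ⟨w⟩
      omega
    have h3 : Fintype.card {x : V // x ≠ v} + 1 = Fintype.card V := by
      rw [Fintype.card_subtype_compl (fun y => y = v), Fintype.card_subtype_eq]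
      have : 0 < Fintype.card V := Fintype.card_pos_iff.2 ⟨v⟩
      omega
    omega
  have hcard : ((Fintype.card {y : W // y ≠ w} : ℕ) : ZMod 2) = 1 := by
    have h2 : Fintype.card {y : W // y ≠ w} + 1 = Fintype.card W := by
      rw [Fintype.card_subtype_compl (fun y => y = w), Fintype.card_subtype_eq]
      have : 0 < Fintype.card W := Fintype.card_pos_iff.2 ⟨w⟩
      omega
    rw [hcardW] at h2
    obtain ⟨k, hk⟩ := hV
    have : Fintype.card {y : W // y ≠ w} % 2 = 1 % 2 := by omega
    have h3 := (ZMod.natCast_eq_natCast_iff _ _ 2).2 this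
    rw [h3]
    simp
  have hconst : ∀ y, σ y = ∑ x, σ x := by
    intro y
    have h1 := hσ y
    rw [sum_add_distrib, sum_const, card_univ, nsmul_eq_mul, hcard, one_mul] at h1
    have key : ∀ a b : ZMod 2, a + b = 0 → a = b := by decide
    exact key _ _ h1
  set c : ZMod 2 := ∑ x, σ x with hc
  -- the bijection
  let E : V ≃ W :=
    { toFun := fun u => if h : u = v then w else (e.symm ⟨u, h⟩).1
      invFun := fun y => if h : y = w then v else (e ⟨y, h⟩).1
      left_inv := by
        intro u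
        by_cases h : u = v
        · simp [h]
        · have h2 : (e.symm ⟨u, h⟩).1 ≠ w := (e.symm ⟨u, h⟩).2
          simp [h, h2]
      right_inv := by
        intro y
        by_cases h : y = w
        · simp [h]
        · have h2 : (e ⟨y, h⟩).1 ≠ v := (e ⟨y, h⟩).2
          simp [h, h2] }
  have hEv : E v = w := by simp [E]
  have hEe : ∀ y : {y : W // y ≠ w}, E (e y).1 = y.1 := by
    intro y
    have h2 : (e y).1 ≠ v := (e y).2
    simp [E, h2]
  let τ' : Set W := {z | (∃ h : z ≠ w, e ⟨z, h⟩ ∈ τ) ∨ (z = w ∧ c = 1)}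
  have hτ1 : ∀ y : {y : W // y ≠ w}, (y.1 ∈ τ' ↔ e y ∈ τ) := by
    intro y
    constructor
    · rintro (⟨h, h2⟩ | ⟨h, -⟩)
      · exact h2
      · exact absurd h y.2
    · intro h
      exact Or.inl ⟨y.2, h⟩
  have hτ2 : w ∈ τ' ↔ c = 1 := by
    constructor
    · rintro (⟨h, -⟩ | ⟨-, h⟩)
      · exact absurd rfl h
      · exact h
    · intro h
      exact Or.inr ⟨rfl, h⟩
  have hcite : ind (w ∈ τ') = c := ind_one c hτ2
  have hite : ∀ y : {y : W // y ≠ w}, ind (y.1 ∈ τ') = ind (e y ∈ τ) :=
    fun y => ind_congr (hτ1 y)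
  -- the identity of indicators
  have hvy : ∀ y : {y : W // y ≠ w}, s (sw G τ') w y.1 = s H v (e y).1 := by
    intro y
    rw [s_sw_ind G τ' (fun h => y.2 h.symm), hcite, hite, ← hconst y]
    simp only [σ]
    have key : ∀ a b d : ZMod 2, b + (a + b + d) + d = a := by decide
    exact key _ _ _
  have hyy : ∀ y y' : {y : W // y ≠ w}, y ≠ y' →
      s (sw G τ') y.1 y'.1 = s H (e y).1 (e y').1 := by
    intro y y' hy
    rw [s_sw_ind G τ' (fun h => hy (Subtype.ext h)), hs y y' hy, hite, hite]
    have key : ∀ a b d : ZMod 2, a + b + d + b + d = a := by decide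
    exact key _ _ _
  have hall : ∀ u u' : V, u ≠ u' → s (sw G τ') (E u) (E u') = s H u u' := by
    intro u u' huu
    by_cases hu : u = v
    · subst hu
      have hu' : u' ≠ u := fun h => huu h.symm
      obtain ⟨y', hy'⟩ := e.surjective ⟨u', hu'⟩
      have h1 : (e y').1 = u' := by rw [hy']
      rw [hEv, ← h1, hEe]
      exact hvy y'
    · by_cases hu' : u' = v
      · subst hu'
        obtain ⟨y, hy⟩ := e.surjective ⟨u, hu⟩
        have h1 : (e y).1 = u := by rw [hy]
        rw [hEv, ← h1, hEe, s_comm, s_comm H]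
        exact hvy y
      · obtain ⟨y, hy⟩ := e.surjective ⟨u, hu⟩
        obtain ⟨y', hy'⟩ := e.surjective ⟨u', hu'⟩
        have h1 : (e y).1 = u := by rw [hy]
        have h2 : (e y').1 = u' := by rw [hy']
        have h3 : y ≠ y' := by
          intro h
          apply huu
          rw [← h1, ← h2, h]
        rw [← h1, ← h2, hEe, hEe]
        exact hyy y y' h3
  refine ⟨τ', ⟨⟨E, ?_⟩⟩⟩
  intro u u'
  by_cases huu : u = u'
  · subst huu
    simp
  · have h1 := hall u u' huu
    unfold s at h1
    by_cases h2 : H.Adj u u'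
    · rw [if_pos h2] at h1
      by_cases h3 : (sw G τ').Adj (E u) (E u')
      · exact iff_of_true h3 h2
      · rw [if_neg h3] at h1
        exact absurd h1 (by decide)
    · rw [if_neg h2] at h1
      by_cases h3 : (sw G τ').Adj (E u) (E u')
      · rw [if_pos h3] at h1
        exact absurd h1 (by decide)
      · exact iff_of_false h3 h2

/-- `T` is an odd triple of `G`: three vertices with an odd number of edges between them. -/
def IsOddTriple (G : SimpleGraph V) (T : Finset V) : Prop :=
  ∃ a b c : V, T = {a, b, c} ∧ OT G a b c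

/-- The number of odd triples of `G` that contain the vertex `v`. -/
noncomputable def oddTriples (G : SimpleGraph V) (v : V) : ℕ :=
  (univ.filter (fun T : Finset V => v ∈ T ∧ IsOddTriple G T)).card

theorem D2_eq (G : SimpleGraph V) (v : V) : D2 G v = 2 * oddTriples G v := by
  unfold D2 oddTriples
  have hmaps : ∀ p ∈ univ.filter (fun p : V × V => OT G v p.1 p.2),
      ({v, p.1, p.2} : Finset V) ∈
        univ.filter (fun T : Finset V => v ∈ T ∧ IsOddTriple G T) := by
    intro p hp
    rw [mem_filter] at hp ⊢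
    exact ⟨mem_univ _, by simp, v, p.1, p.2, rfl, hp.2⟩
  rw [card_eq_sum_card_fiberwise hmaps, mul_comm, ← smul_eq_mul, ← sum_const]
  apply sum_congr rfl
  intro T hT
  obtain ⟨-, hvT, a, b, c, rfl, h1, h2, h3, h4⟩ := mem_filter.1 hT
  -- write the triple as `{v, x, y}`
  obtain ⟨x, y, hxy, hO⟩ : ∃ x y, ({a, b, c} : Finset V) = {v, x, y} ∧ OT G v x y := by
    have hv : v = a ∨ v = b ∨ v = c := by simpa using hvT
    rcases hv with rfl | rfl | rfl
    · exact ⟨b, c, rfl, h1, h2, h3, h4⟩
    · refine ⟨a, c, ?_, (OT_rot _ _ _ _).1 ⟨h1, h2, h3, h4⟩⟩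
      ext z
      simp only [mem_insert, mem_singleton]
      tauto
    · refine ⟨a, b, ?_, (OT_rot _ _ _ _).1 ((OT_rot2 _ _ _ _).1 ⟨h1, h2, h3, h4⟩)⟩
      ext z
      simp only [mem_insert, mem_singleton]
      tauto
  rw [hxy]
  obtain ⟨g1, g2, g3, g4⟩ := hO
  have hset : (univ.filter (fun p : V × V => OT G v p.1 p.2)).filter
      (fun p => ({v, p.1, p.2} : Finset V) = {v, x, y}) = {(x, y), (y, x)} := by
    ext ⟨p, q⟩
    simp only [mem_filter, mem_univ, true_and, mem_insert, mem_singleton, Prod.mk.injEq]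
    constructor
    · rintro ⟨⟨k1, k2, k3, k4⟩, k5⟩
      have hp : p ∈ ({v, x, y} : Finset V) := by rw [← k5]; simp
      have hq : q ∈ ({v, x, y} : Finset V) := by rw [← k5]; simp
      simp only [mem_insert, mem_singleton] at hp hq
      rcases hp with hp | hp | hp
      · exact absurd hp.symm k1
      · rcases hq with hq | hq | hq
        · exact absurd hq.symm k3
        · exact absurd (hp.trans hq.symm) k2
        · exact Or.inl ⟨hp, hq⟩
      · rcases hq with hq | hq | hq
        · exact absurd hq.symm k3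
        · exact Or.inr ⟨hp, hq⟩
        · exact absurd (hp.trans hq.symm) k2
    · rintro (⟨rfl, rfl⟩ | ⟨rfl, rfl⟩)
      · exact ⟨⟨g1, g2, g3, g4⟩, rfl⟩
      · refine ⟨(OT_rot2 _ _ _ _).1 ⟨g1, g2, g3, g4⟩, ?_⟩
        ext z
        simp only [mem_insert, mem_singleton]
        tauto
  rw [hset, card_pair]
  intro h
  exact g2 (Prod.mk.inj h).1

end Count

/-- On an even number `n ≥ 4` of vertices, the switching class of `G` is reconstructible from its
deck whenever the numbers of odd triples through the vertices of `G` all have the same parity. -/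
theorem even_parity' [Fintype V] (hV : Even (Fintype.card V)) (h4 : 4 ≤ Fintype.card V)
    (G : SimpleGraph V) (hpar : ∀ u v, oddTriples G u % 2 = oddTriples G v % 2)
    {H : SimpleGraph V} (h : DeckEq H G) : SwEq G H := by
  obtain ⟨π, hπ⟩ := h
  have hN : ∀ v, N3 (cardOf G (π v)) = N3 (cardOf H v) := fun v => N3_SwEq (hπ v)
  have h1 := sum_N3_card G
  have h2 := sum_N3_card H
  rw [← π.sum_comp, sum_congr rfl (fun v _ => hN v)] at h1
  have hNN : N3 G = N3 H := by
    obtain ⟨m, hm⟩ : ∃ m, Fintype.card V = m + 4 := ⟨Fintype.card V - 4, by omega⟩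
    rw [hm] at h1 h2
    have h5 : (m + 1) * N3 G = (m + 1) * N3 H := by
      have e1 : ∑ v, N3 (cardOf H v) = (m + 1) * N3 G := by
        have : (m + 4) * N3 G = (m + 1) * N3 G + 3 * N3 G := by ring
        omega
      have e2 : ∑ v, N3 (cardOf H v) = (m + 1) * N3 H := by
        have : (m + 4) * N3 H = (m + 1) * N3 H + 3 * N3 H := by ring
        omega
      omega
    exact Nat.eq_of_mul_eq_mul_left (Nat.succ_pos m) h5
  have hD : ∀ v, D2 G (π v) = D2 H v := by
    intro v
    have e1 := N3_card G (π v)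
    have e2 := N3_card H v
    have e3 := hN v
    omega
  have hne : Nonempty V := Fintype.card_pos_iff.1 (by omega)
  obtain ⟨v⟩ := hne
  obtain ⟨τ, ⟨e⟩⟩ := hπ v
  refine extend G H v (π v) τ e hV ?_
  intro y
  have e1 := D2_card G (π v) y
  have e2 := D2_card H v (e y)
  have e3 : D2 (cardOf G (π v)) y = D2 (cardOf H v) (e y) := by
    rw [← D2_sw (cardOf H v) τ]
    exact (D2_iso e y).symm
  have e4 : D2 H (e y).1 = D2 G (π (e y).1) := (hD _).symm
  have e5 := hpar y.1 (π (e y).1)
  have e6 := D2_eq G y.1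
  have e7 := D2_eq G (π (e y).1)
  omega

theorem OT_iff (G : SimpleGraph V) (a b c : V) : OT G a b c ↔ OddTriple G a b c := by
  rw [oddTriple_iff]
  unfold OT
  constructor
  · rintro ⟨-, -, -, h⟩
    exact h
  · intro h
    refine ⟨?_, ?_, ?_, h⟩
    · rintro rfl; rw [T_left] at h; exact absurd h (by decide)
    · rintro rfl; rw [T_right] at h; exact absurd h (by decide)
    · rintro rfl; rw [T_outer] at h; exact absurd h (by decide)

theorem oddThrough_eq [Fintype V] (G : SimpleGraph V) (v : V) :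
    oddThrough G v = oddTriples G v := by
  unfold oddThrough oddTriples
  rw [← Set.ncard_coe_finset]
  congr 1
  ext t
  simp only [Set.mem_ofPred_eq, coe_filter, mem_univ, true_and, IsOddTriple, OT_iff]

/-- `n ≥ 4` even, all vertices in equally many odd triples modulo two -/
theorem even_parity [Fintype V] (hV : Even (Fintype.card V)) (h4 : 4 ≤ Fintype.card V)
    {G H : SimpleGraph V} (hpar : ∀ u v, oddThrough G u % 2 = oddThrough G v % 2)
    (h : DeckEq G H) : SwEq G H := by
  apply even_parity' hV h4 G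
  · intro u v
    rw [← oddThrough_eq, ← oddThrough_eq]
    exact hpar u v
  · obtain ⟨π, hπ⟩ := h
    refine ⟨π.symm, fun v => ?_⟩
    have := (hπ (π.symm v)).symm
    rwa [Equiv.apply_symm_apply] at this

/-- twice the number of odd triples through a vertex is the sum of its codegrees -/
theorem two_oddThrough [Fintype V] (G : SimpleGraph V) (v : V) :
    2 * oddThrough G v = ∑ b, cd G v b := by
  rw [oddThrough_eq, ← D2_eq, ← sum_D1]
  have h1 : ∀ u, D1 G u v = cd G v u := by
    intro u
    unfold D1 cd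
    congr 1
    ext w
    simp only [mem_filter, mem_univ, true_and]
    rw [OT_iff, oddTriple_iff, T_swap]
  have h2 : ∑ u : {x : V // x ≠ v}, D1 G u.1 v = ∑ u ∈ univ.filter (fun x => x ≠ v), D1 G u v :=
    (sum_subtype (univ.filter (fun x => x ≠ v)) (fun x => by simp) (fun u => D1 G u v)).symm
  rw [h2, ← sum_congr rfl (fun u _ => h1 u)]
  apply sum_subset (subset_univ _)
  intro x _ hx
  have : x = v := by simpa using hx
  rw [this, D1_self]

end RGC
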