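import Pool.Agent.RGC.Dist

/-!
# RGC: the forcing criterion

MODULE Force. Plan. `transport` at `v` gives `e : H' ≃g H` and `OffEq G H' v`; `cut` gives `d`.
`DeckEq G H'` by `deck_congr_right` (`swEq_iff`, `T_iso e.symm`). If `Forced G v a b` and
`d a ≠ d b`, then by `cd_cut`: if `T G a b v = 0` then `cd H' a b = cd G a b + 1`, and by `cd_mem`
(for `H'`) this is a codegree of `G`, contradiction (`codeg_eq`, `oddTriple_iff`, `z2c`); if
`T G a b v = 1` then `cd H' a b + 1 = cd G a b`, the same. So `d a = d b` for forced pairs, hence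
(induction on `Relation.ReflTransGen`) for all `a, b ≠ v`; `T_eq_of_cut`, `swEq_of_T`, and
`SwEq.trans` with the isomorphism `H' ≃g H`.
-/

set_option autoImplicit false

namespace RGC

open Finset
open scoped Classical

variable {V W : Type}

theorem force [Fintype V] (hn : 10 ≤ Fintype.card V) {G H : SimpleGraph V} (h : DeckEq G H)
    {v : V} (hv : ∀ a b, a ≠ v → b ≠ v → Relation.ReflTransGen (Forced G v) a b) : SwEq G H := by
  obtain ⟨π, hπ⟩ := transport h
  obtain ⟨H', e, -, hoff⟩ := hπ v
  have hsw : SwEq H H' := swEq_iff.2 ⟨e.symm.toEquiv, fun a b c => T_iso e.symm a b c⟩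
  have hdeck : DeckEq G H' := deck_congr_right hsw h
  obtain ⟨d, -, hd⟩ := cut hoff
  have step : ∀ a b, Forced G v a b → d a = d b := by
    intro a b hf
    obtain ⟨hab, ha, hb, hcase⟩ := hf
    by_contra hne
    have hcut := cd_cut hoff hd ha hb
    obtain ⟨a', b', hab', hcd⟩ := cd_mem hn hdeck hab
    rcases hcase with ⟨hodd, hx⟩ | ⟨hodd, hx⟩
    · have hT : T G a b v = 0 := by
        rcases z2c (T G a b v) with h0 | h1
        · exact h0
        · exact absurd ((oddTriple_iff G a b v).2 h1) hodd
      have h1 := hcut.2.1 hne hT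
      exact hx a' b' hab' (by rw [codeg_eq, codeg_eq, hcd, h1])
    · have hT : T G a b v = 1 := (oddTriple_iff G a b v).1 hodd
      have h1 := hcut.2.2 hne hT
      exact hx a' b' hab' (by rw [codeg_eq, codeg_eq, hcd, h1])
  have hall : ∀ a b, a ≠ v → b ≠ v → d a = d b := by
    intro a b ha hb
    have hr := hv a b ha hb
    clear hb
    induction hr with
    | refl => rfl
    | tail _ hbc ih => exact ih.trans (step _ _ hbc)
  exact SwEq.trans (swEq_of_T (T_eq_of_cut hoff hd hall)) hsw.symm

end RGC
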