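import Pool.Agent.RGC.Dist
import Pool.Agent.RGC.Eul

/-! RGC: codegree gaps, first type. -/

set_option autoImplicit false

namespace RGC

open Finset
open scoped Classical

variable {V W : Type}

theorem gapA [Fintype V] (hn : 10 ≤ Fintype.card V) (hodd : Odd (Fintype.card V))
    {G H : SimpleGraph V} (h : DeckEq G H)
    (hE : ∀ a b c d, a ≠ b → c ≠ d → cd G c d = cd G a b + 1 → Even (cd G a b)) :
    SwEq G H := by
  have hoddE : ∀ {a b : V}, a ≠ b → ∀ x : ZMod 2, (x = 0 → Even (cd G a b)) →
      (x = 1 → Odd (cd G a b)) → x = s (E G) a b := by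
    intro a b hab x h0 h1
    have h2 := s_E_one G hab
    rcases z2c x with hx | hx
    · rw [hx]
      rcases z2c (s (E G) a b) with h3 | h3
      · exact h3.symm
      · exact absurd (h2.1 h3) (Nat.not_odd_iff_even.2 (h0 hx))
    · rw [hx, h2.2 (h1 hx)]
  by_cases hmix : ∃ v x y, x ≠ v ∧ y ≠ v ∧ s (E G) x v ≠ s (E G) y v
  · obtain ⟨v, x, y, hx, hy, hxy⟩ := hmix
    obtain ⟨π, hπ⟩ := transport h
    obtain ⟨H', e, -, hoff⟩ := hπ v
    obtain ⟨d, -, hd⟩ := cut hoff
    have hH' : SwEq H' H := swEq_iff.2 ⟨e.toEquiv, fun a b c => T_iso e a b c⟩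
    have hdeck : DeckEq G H' := deck_congr_right hH'.symm h
    have hcross : ∀ a b, a ≠ v → b ≠ v → d a ≠ d b → s (E G) a v = s (E G) b v := by
      intro a b ha hb hab
      have hne : a ≠ b := fun h => hab (by rw [h])
      obtain ⟨-, c0, c1⟩ := cd_cut hoff hd ha hb
      obtain ⟨a', b', hab', hcd⟩ := cd_mem hn hdeck hne
      have h1 : T G a b v = s (E G) a b := by
        refine hoddE hne _ (fun h0 => ?_) (fun h1 => ?_)
        · exact hE a b a' b' hne hab' (by rw [hcd]; exact c0 hab h0)
        · have h2 := c1 hab h1
          rw [← hcd] at h2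
          have h3 := hE a' b' a b hab' hne h2.symm
          rw [← h2]
          exact h3.add_one
      rw [← T_E hodd] at h1
      unfold T at h1
      have key : ∀ x y z : ZMod 2, x + y + z = x → z = y := by decide
      exact key _ _ _ h1
    have hdxy : d x = d y := by
      by_contra hc
      exact hxy (hcross x y hx hy hc)
    have hconst : ∀ b, b ≠ v → d b = d x := by
      intro b hb
      by_contra hc
      have h1 := hcross b x hb hx hc
      have h2 := hcross b y hb hy (by rw [← hdxy]; exact hc)
      exact hxy (by rw [← h1, ← h2])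
    have hT := T_eq_of_cut hoff hd (fun a b ha hb => by rw [hconst a ha, hconst b hb])
    exact (swEq_of_T hT).trans hH'
  · push Not at hmix
    obtain ⟨c, hc⟩ : ∃ c : ZMod 2, ∀ x y, x ≠ y → s (E G) x y = c := by
      have hV : 1 < Fintype.card V := by omega
      obtain ⟨u, w, huw⟩ := Fintype.one_lt_card_iff.1 hV
      refine ⟨s (E G) u w, fun x y hxy => ?_⟩
      have hA : ∀ a b z, a ≠ z → b ≠ z → s (E G) a z = s (E G) b z := fun a b z ha hb => hmix z a b ha hb
      by_cases h1 : x = w
      · subst h1
        rw [s_comm, hA y u x hxy.symm huw]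
      · rw [s_comm, hA y w x hxy.symm (Ne.symm h1), s_comm, hA x u w h1 huw]
    have hTG : ∀ a b w, a ≠ b → w ≠ a → w ≠ b → T G a b w = c := by
      intro a b w hab hwa hwb
      rw [← T_E hodd]
      unfold T
      rw [hc a b hab, hc b w hwb.symm, hc a w hwa.symm, z2, zero_add]
    rcases z2c c with h0 | h1
    · have hcdG : ∀ a b, a ≠ b → cd G a b = 0 := by
        intro a b hab
        unfold cd
        rw [card_eq_zero, filter_eq_empty_iff]
        intro w _ hw
        by_cases hwa : w = a
        · rw [hwa, T_outer] at hw
          exact absurd hw (by decide)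
        by_cases hwb : w = b
        · rw [hwb, T_right] at hw
          exact absurd hw (by decide)
        rw [hTG a b w hab hwa hwb, h0] at hw
        exact absurd hw (by decide)
      have hTH0 : ∀ a b w, a ≠ b → T H a b w = 0 := by
        intro a b w hab
        obtain ⟨a', b', hab', hcd⟩ := cd_mem hn h hab
        rw [hcdG a' b' hab'] at hcd
        have h2 := hcd.symm
        unfold cd at h2
        rw [card_eq_zero, filter_eq_empty_iff] at h2
        rcases z2c (T H a b w) with h3 | h3
        · exact h3
        · exact absurd h3 (h2 (mem_univ w))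
      refine swEq_of_T fun a b w => ?_
      by_cases hab : a = b
      · rw [hab, T_left, T_left]
      rw [hTH0 a b w hab]
      by_cases hwa : w = a
      · rw [hwa, T_outer]
      by_cases hwb : w = b
      · rw [hwb, T_right]
      rw [hTG a b w hab hwa hwb, h0]
    · have hsub : ∀ (X : SimpleGraph V) (a b : V), (univ.filter fun w : V => T X a b w = 1) ⊆
          (univ.erase a).erase b := by
        intro X a b w hw
        have hw1 := (mem_filter.1 hw).2
        rw [mem_erase, mem_erase]
        refine ⟨?_, ?_, mem_univ _⟩
        · rintro rfl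
          rw [T_right] at hw1
          exact absurd hw1 (by decide)
        · rintro rfl
          rw [T_outer] at hw1
          exact absurd hw1 (by decide)
      have hcard : ∀ a b : V, a ≠ b → ((univ.erase a).erase b).card = Fintype.card V - 2 := by
        intro a b hab
        rw [card_erase_of_mem (mem_erase.2 ⟨hab.symm, mem_univ _⟩), card_erase_of_mem (mem_univ _),
          card_univ]
        omega
      have hcdG : ∀ a b, a ≠ b → cd G a b = Fintype.card V - 2 := by
        intro a b hab
        rw [← hcard a b hab]
        unfold cd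
        refine le_antisymm (card_le_card (hsub G a b)) (card_le_card fun w hw => ?_)
        rw [mem_erase, mem_erase] at hw
        rw [mem_filter]
        exact ⟨mem_univ _, by rw [hTG a b w hab hw.2.1 hw.1, h1]⟩
      have hTH1 : ∀ a b w, a ≠ b → w ≠ a → w ≠ b → T H a b w = 1 := by
        intro a b w hab hwa hwb
        obtain ⟨a', b', hab', hcd⟩ := cd_mem hn h hab
        rw [hcdG a' b' hab', ← hcard a b hab] at hcd
        have h2 := eq_of_subset_of_card_le (hsub H a b) (le_of_eq hcd)
        have h3 : w ∈ (univ.erase a).erase b := mem_erase.2 ⟨hwb, mem_erase.2 ⟨hwa, mem_univ _⟩⟩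
        rw [← h2] at h3
        exact (mem_filter.1 h3).2
      refine swEq_of_T fun a b w => ?_
      by_cases hab : a = b
      · rw [hab, T_left, T_left]
      by_cases hwa : w = a
      · rw [hwa, T_outer, T_outer]
      by_cases hwb : w = b
      · rw [hwb, T_right, T_right]
      rw [hTG a b w hab hwa hwb, h1, hTH1 a b w hab hwa hwb]

end RGC
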