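import Pool.Agent.RGC.Eul
import Pool.Agent.RGC.Del

/-!
# RGC: two deletions
-/

set_option autoImplicit false

namespace RGC

open Finset
open scoped Classical

variable {V W : Type}

private theorem gt_del (X : SimpleGraph V) (v a b : V) :
    s (del X v) a b = if a = v ∨ b = v then 0 else s X a b := by
  have hd : (del X v).Adj a b ↔ X.Adj a b ∧ a ≠ v ∧ b ≠ v := Iff.rfl
  by_cases h : a = v ∨ b = v
  · rw [if_pos h, s_eq_zero, hd]
    rintro ⟨-, h1, h2⟩
    rcases h with h | h
    exacts [h1 h, h2 h]
  · rw [if_neg h]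
    push Not at h
    by_cases h1 : X.Adj a b
    · rw [s_eq_one.2 h1, s_eq_one, hd]
      exact ⟨h1, h⟩
    · rw [s_eq_zero.2 h1, s_eq_zero, hd]
      exact fun h2 => h1 h2.1

private theorem gt_sum [Fintype V] {X : SimpleGraph V} (hX : ∀ a, ∑ w, s X a w = 0) (v a : V) :
    ∑ w, s (del X v) a w = s X a v := by
  by_cases h : a = v
  · subst h
    rw [s_self]
    refine sum_eq_zero fun w _ => ?_
    rw [gt_del, if_pos (Or.inl rfl)]
  · have h1 := hX a
    rw [← add_sum_erase _ _ (mem_univ v)] at h1
    have h2 : ∑ w ∈ univ.erase v, s X a w = ∑ w ∈ univ.erase v, s (del X v) a w := by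
      refine sum_congr rfl fun w hw => ?_
      rw [gt_del, if_neg]
      rintro (h3 | h3)
      exacts [h h3, (mem_erase.1 hw).1 h3]
    rw [← add_sum_erase _ _ (mem_univ v), gt_del, if_pos (Or.inr rfl), zero_add, ← h2]
    have : ∀ x y : ZMod 2, x + y = 0 → y = x := by decide
    exact this _ _ h1

private theorem gt_E [Fintype V] (hodd : Odd (Fintype.card V)) {X : SimpleGraph V}
    (hX : ∀ a, ∑ w, s X a w = 0) (v : V) {a b : V} (h : a ≠ b) :
    s (E (del X v)) a b = (if a = v ∨ b = v then 0 else s X a b) + s X a v + s X b v := by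
  rw [s_E hodd _ h, gt_sum hX, gt_sum hX, gt_del]

private theorem gt_key [Fintype V] (hodd : Odd (Fintype.card V)) {X : SimpleGraph V}
    (hX : ∀ a, ∑ w, s X a w = 0) {v w : V} (hvw : v ≠ w) {a b : V} (h : a ≠ b) :
    s (del (E (del X v)) w) (Equiv.swap v w a) (Equiv.swap v w b) =
      s (del X w) a b + (if a = w then 0 else s X a v) + (if b = w then 0 else s X b v) := by
  have h' : Equiv.swap v w a ≠ Equiv.swap v w b := fun h1 => h ((Equiv.swap v w).injective h1)
  rw [gt_del, gt_del, gt_E hodd hX v h']
  have z0 : ∀ x : ZMod 2, x + x = 0 := z2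
  by_cases hav : a = v
  · subst hav
    rw [Equiv.swap_apply_left, if_pos (Or.inl rfl), if_neg hvw, s_self, add_zero]
    by_cases hbw : b = w
    · rw [if_pos (Or.inr hbw), if_pos hbw, add_zero]
    · rw [if_neg hbw, if_neg, s_comm X b a, z0]
      rintro (h1 | h1)
      exacts [hvw h1, hbw h1]
  · by_cases haw : a = w
    · subst haw
      rw [Equiv.swap_apply_right]
      by_cases hbv : b = v
      · subst hbv
        rw [Equiv.swap_apply_left, if_pos (Or.inr rfl), if_pos (Or.inl rfl), if_pos rfl,
          if_neg hvw, s_self, add_zero, add_zero]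
      · have hba : b ≠ a := fun h1 => h h1.symm
        rw [Equiv.swap_apply_of_ne_of_ne hbv hba, if_neg, if_pos (Or.inl rfl), s_self,
          if_pos (Or.inl rfl), if_pos rfl, if_neg hba]
        rintro (h1 | h1)
        exacts [hvw h1, hba h1]
    · rw [Equiv.swap_apply_of_ne_of_ne hav haw]
      by_cases hbv : b = v
      · subst hbv
        rw [Equiv.swap_apply_left, if_pos (Or.inr rfl), if_neg haw, if_neg hvw, s_self, add_zero,
          if_neg, z0]
        rintro (h1 | h1)
        exacts [haw h1, hvw h1]
      · by_cases hbw : b = w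
        · subst hbw
          rw [Equiv.swap_apply_right, if_neg, if_pos (Or.inr rfl), s_self, if_pos (Or.inr rfl),
            if_neg haw, if_pos rfl]
          rintro (h1 | h1)
          exacts [haw h1, hvw h1]
        · rw [Equiv.swap_apply_of_ne_of_ne hbv hbw, if_neg, if_neg, if_neg, if_neg haw, if_neg hbw]
          · rintro (h1 | h1)
            exacts [haw h1, hbw h1]
          · rintro (h1 | h1)
            exacts [hav h1, hbv h1]
          · rintro (h1 | h1)
            exacts [haw h1, hbw h1]

theorem del_twist [Fintype V] (hodd : Odd (Fintype.card V)) {X : SimpleGraph V}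
    (hX : ∀ a, ∑ w, s X a w = 0) {v w : V} (hvw : v ≠ w) :
    SwEq (del (E (del X v)) w) (del X w) := by
  refine SwEq.symm (swEq_iff.2 ⟨Equiv.swap v w, fun a b c => ?_⟩)
  by_cases h1 : a = b
  · subst h1
    rw [T_left, T_left]
  by_cases h2 : b = c
  · subst h2
    rw [T_right, T_right]
  by_cases h3 : a = c
  · subst h3
    rw [T_outer, T_outer]
  unfold T
  rw [gt_key hodd hX hvw h1, gt_key hodd hX hvw h2, gt_key hodd hX hvw h3]
  have key : ∀ p q r x y z : ZMod 2,
      (p + x + y) + (q + y + z) + (r + x + z) = p + q + r := by decide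
  exact key _ _ _ _ _ _

end RGC
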