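import Pool.Agent.RGC.GapS
import Pool.Agent.RGC.GapT

/-!
# RGC: codegree gaps, second type

MODULE GapB. Plan. Suppose `¬ SwEq G H`. `gapB_step` at two different vertices `v ≠ w` of `G` gives
`SwEq (del (E G) v) H`, `SwEq (del (E G) w) H`. The hypotheses hold for `H` as well (`cd_mem'`,
`cd_mem`), and `DeckEq H G`, `¬ SwEq H G`, so `gapB_step` for `H` gives `SwEq (del (E H) u) G` for all
`u`. Let `f : V ≃ V` preserve `T` from `K = del (E G) v` to `H` and `u = f w`. By `E_iso`,
`T (del (E K) w) = T (del (E H) u)` up to `f`, so `SwEq (del (E K) w) G`; by `del_twist` (`X = E G`,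
`deg_E`) `SwEq (del (E K) w) (del (E G) w)`. So `G ~ del (E K) w ~ del (E G) w ~ H`, contradiction.
-/

set_option autoImplicit false

namespace RGC

open Finset
open scoped Classical

variable {V W : Type}

private theorem gapB_del {X : SimpleGraph V} {Y : SimpleGraph V} (f : V ≃ V)
    (hf : ∀ a b, s Y (f a) (f b) = s X a b) (w a b : V) :
    s (del Y (f w)) (f a) (f b) = s (del X w) a b := by
  have h1 : Y.Adj (f a) (f b) ↔ X.Adj a b := by
    rw [← s_eq_one, ← s_eq_one, hf]
  have h2 : (del Y (f w)).Adj (f a) (f b) ↔ (del X w).Adj a b := by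
    show (Y.Adj (f a) (f b) ∧ f a ≠ f w ∧ f b ≠ f w) ↔ (X.Adj a b ∧ a ≠ w ∧ b ≠ w)
    rw [h1, f.injective.ne_iff, f.injective.ne_iff]
  unfold s
  by_cases h3 : (del X w).Adj a b
  · rw [if_pos h3, if_pos (h2.2 h3)]
  · rw [if_neg h3, if_neg (fun h => h3 (h2.1 h))]

private theorem gapB_symm {G H : SimpleGraph V} (h : DeckEq G H) : DeckEq H G := by
  obtain ⟨π, hπ⟩ := h
  refine ⟨π.symm, fun v => ?_⟩
  have h1 := hπ (π.symm v)
  rw [Equiv.apply_symm_apply] at h1
  exact h1.symm

theorem gapB [Fintype V] (hn : 10 ≤ Fintype.card V) (hodd : Odd (Fintype.card V))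
    {G H : SimpleGraph V} (h : DeckEq G H)
    (hE : ∀ a b c d, a ≠ b → c ≠ d → cd G c d = cd G a b + 1 → Odd (cd G a b)) :
    SwEq G H := by
  by_contra hcon
  have hG : ∀ v, SwEq (del (E G) v) H := fun v =>
    (gapB_step hn hodd h hE v).resolve_left hcon
  have hE' : ∀ a b c d, a ≠ b → c ≠ d → cd H c d = cd H a b + 1 → Odd (cd H a b) := by
    intro a b c d hab hcd h1
    obtain ⟨a', b', hab', e1⟩ := cd_mem hn h hab
    obtain ⟨c', d', hcd', e2⟩ := cd_mem hn h hcd
    rw [← e1]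
    refine hE a' b' c' d' hab' hcd' ?_
    rw [e1, e2, h1]
  have hH : ∀ u, SwEq (del (E H) u) G := fun u =>
    (gapB_step hn hodd (gapB_symm h) hE' u).resolve_left (fun h1 => hcon h1.symm)
  obtain ⟨v, w, hvw⟩ := Fintype.one_lt_card_iff.1 (show 1 < Fintype.card V by omega)
  obtain ⟨f, hf⟩ := swEq_iff.1 (hG v)
  have h1 : ∀ a b, s (E H) (f a) (f b) = s (E (del (E G) v)) a b := fun a b => E_iso f hf a b
  have h2 : SwEq (del (E (del (E G) v)) w) (del (E H) (f w)) := by
    refine swEq_iff.2 ⟨f, fun a b c => ?_⟩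
    unfold T
    rw [gapB_del f h1, gapB_del f h1, gapB_del f h1]
  have h3 := h2.trans (hH (f w))
  have h4 := del_twist hodd (deg_E hodd G) hvw
  exact hcon ((h3.symm.trans h4).trans (hG w))

end RGC
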