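import Pool.Agent.RGC.Dist
import Pool.Agent.RGC.Eul
import Pool.Agent.RGC.Del

/-!
# RGC: codegree gaps, second type: one vertex

Pairs separated by the cut contain exactly one neighbour of `v` in the even graph, so the cut is constant or it is
the neighbourhood of `v` in the even graph.
-/

set_option autoImplicit false

namespace RGC

open Finset
open scoped Classical

variable {V W : Type}

private theorem gapS_z1 : ∀ x y z t : ZMod 2, x + y + z = t → x = 1 + t → z + y = 1 := by decide

private theorem gapS_z2 : ∀ x y : ZMod 2, x + y = 1 → x ≠ y := by decide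

private theorem gapS_z3 : ∀ a b x y da db dx dy : ZMod 2, dx ≠ dy → (x ≠ y) →
    (a = x → da = dx) → (a = y → da = dy) → (b = x → db = dx) → (b = y → db = dy) →
    da + db = a + b := by decide

private theorem gapS_del {X : SimpleGraph V} {v a b : V} (ha : a ≠ v) (hb : b ≠ v) :
    s (del X v) a b = s X a b := by
  unfold s del
  simp [ha, hb]

private theorem gapS_del_v (X : SimpleGraph V) (v a : V) : s (del X v) v a = 0 := by
  unfold s del
  simp

theorem gapB_step [Fintype V] (hn : 10 ≤ Fintype.card V) (hodd : Odd (Fintype.card V))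
    {G H : SimpleGraph V} (h : DeckEq G H)
    (hE : ∀ a b c d, a ≠ b → c ≠ d → cd G c d = cd G a b + 1 → Odd (cd G a b)) (v : V) :
    SwEq G H ∨ SwEq (del (E G) v) H := by
  obtain ⟨π, hπ⟩ := transport h
  obtain ⟨H', e, -, hoff⟩ := hπ v
  have hHH : SwEq H' H := swEq_iff.2 ⟨e.toEquiv, fun a b c => T_iso e a b c⟩
  have hdeck : DeckEq G H' := deck_congr_right hHH.symm h
  obtain ⟨d, -, hd⟩ := cut hoff
  have cross : ∀ a b, a ≠ v → b ≠ v → d a ≠ d b → s (E G) a v ≠ s (E G) b v := by
    intro a b ha hb hab
    have hne : a ≠ b := fun hh => hab (by rw [hh])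
    obtain ⟨-, h1, h2⟩ := cd_cut hoff hd ha hb
    obtain ⟨a', b', hne', hcd⟩ := cd_mem hn hdeck hne
    have hT := T_E hodd G a b v
    apply gapS_z2
    rcases z2c (T G a b v) with h0 | h0
    · have h3 := h1 hab h0
      rw [h3] at hcd
      have h4 := hE a b a' b' hne hne' hcd
      have h5 := (s_E_one G hne).2 h4
      rw [h0] at hT
      exact gapS_z1 _ _ _ _ hT (by rw [h5, add_zero])
    · have h3 := h2 hab h0
      rw [← hcd] at h3
      have h4 := hE a' b' a b hne' hne h3.symm
      have h5 : s (E G) a b = 0 := by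
        rcases z2c (s (E G) a b) with h6 | h6
        · exact h6
        · exfalso
          have h7 := (s_E_one G hne).1 h6
          rw [← h3] at h7
          exact (Nat.not_even_iff_odd.2 h7) h4.add_one
      rw [h0] at hT
      exact gapS_z1 _ _ _ _ hT (by rw [h5]; decide)
  by_cases hc : ∀ a b, a ≠ v → b ≠ v → d a = d b
  · left
    exact (swEq_of_T (T_eq_of_cut hoff hd hc)).trans hHH
  · right
    push Not at hc
    obtain ⟨x, y, hx, hy, hxy⟩ := hc
    have hsxy := cross x y hx hy hxy
    have same : ∀ a b, a ≠ v → b ≠ v → s (E G) a v = s (E G) b v → d a = d b := by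
      intro a b ha hb hab
      by_contra hne
      exact cross a b ha hb hne hab
    have hsum : ∀ a b, a ≠ v → b ≠ v → d a + d b = s (E G) a v + s (E G) b v := by
      intro a b ha hb
      exact gapS_z3 _ _ _ _ _ _ _ _ hxy hsxy (same a x ha hx) (same a y ha hy) (same b x hb hx)
        (same b y hb hy)
    have hoff2 : OffEq (del (E G) v) H' v := by
      intro a b c ha hb hc
      rw [hoff a b c ha hb hc, ← T_E hodd G a b c]
      unfold T
      rw [gapS_del ha hb, gapS_del hb hc, gapS_del ha hc]
    have hd2 : ∀ a b, a ≠ v → b ≠ v →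
        T H' v a b = T (del (E G) v) v a b + (fun _ : V => (0 : ZMod 2)) a + (fun _ : V => (0 : ZMod 2)) b := by
      intro a b ha hb
      have h1 := hd a b ha hb
      have h2 := hsum a b ha hb
      have h3 : T (del (E G) v) v a b = s (E G) a b := by
        unfold T
        rw [gapS_del_v, gapS_del ha hb, gapS_del_v, zero_add, add_zero]
      have h4 := T_E hodd G v a b
      rw [h1, add_assoc, h2, h3, ← h4]
      unfold T
      rw [s_comm (E G) v a, s_comm (E G) v b]
      have key : ∀ p q r : ZMod 2, p + q + r + (p + r) = q + 0 + 0 := by decide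
      exact key _ _ _
    exact (swEq_of_T (T_eq_of_cut hoff2 hd2 (fun _ _ _ _ => rfl))).trans hHH

end RGC
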