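import Pool.Agent.RGC.Bas

/-!
# RGC: Gleason's lemma

MODULE Gle. Plan. The relation (some automorphism maps `u` to `v`) is an equivalence relation. Suppose
there are two different classes `O₁, O₂`. For `v ∈ O₁` the involution `ι` fixing only `v` maps `O₂`
to itself without fixed points, so `|O₂|` is even (`Finset.card_involution`-type lemma:
`Function.Involutive.card_fixedPoints...`, or `Finset.sum_involution` mod 2), and acts on `O₁` with
exactly one fixed point, so `|O₁|` is odd. Exchanging the roles, `|O₂|` is odd, contradiction.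
-/

set_option autoImplicit false

namespace RGC

open Finset
open scoped Classical

variable {V W : Type}

theorem gleason [Fintype V] {H : SimpleGraph V}
    (h : ∀ v, ∃ ι : Equiv.Perm V, (∀ x, ι (ι x) = x) ∧ (∀ x, ι x = x ↔ x = v) ∧
      ∀ a b c, T H (ι a) (ι b) (ι c) = T H a b c) (u v : V) :
    ∃ g : Equiv.Perm V, (∀ a b c, T H (g a) (g b) (g c) = T H a b c) ∧ g u = v := by
  by_contra hcon
  let R : V → V → Prop := fun x y =>
    ∃ g : Equiv.Perm V, (∀ a b c, T H (g a) (g b) (g c) = T H a b c) ∧ g x = y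
  have hnR : ¬ R u v := hcon
  have hsymm : ∀ x y, R x y → R y x := by
    rintro x y ⟨g, hg, rfl⟩
    refine ⟨g.symm, fun a b c => ?_, by simp⟩
    rw [← hg]
    simp
  have htrans : ∀ x y z, R x y → R y z → R x z := by
    rintro x y z ⟨g, hg, rfl⟩ ⟨g', hg', rfl⟩
    exact ⟨g.trans g', fun a b c => by
      show T H (g' (g a)) (g' (g b)) (g' (g c)) = _
      rw [hg', hg], rfl⟩
  have hrefl : ∀ x, R x x := fun x => ⟨Equiv.refl V, fun _ _ _ => rfl, rfl⟩
  let S : Finset V := univ.filter fun x => R v x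
  have hS : ∀ x, x ∈ S ↔ R v x := fun x => by simp [S]
  have h11 : (1 : ZMod 2) + 1 = 0 := by decide
  have hpar : ∀ (w : V) (Q : Finset V), (∀ ι : Equiv.Perm V, (∀ x, ι (ι x) = x) →
      (∀ x, ι x = x ↔ x = w) → (∀ a b c, T H (ι a) (ι b) (ι c) = T H a b c) →
      ∀ x ∈ Q, ι x ∈ Q) → w ∉ Q → ((Q.card : ℕ) : ZMod 2) = 0 := by
    intro w Q hQ hw
    obtain ⟨ι, h1, h2, h3⟩ := h w
    have h4 : ∑ _x ∈ Q, (1 : ZMod 2) = 0 := by
      apply sum_involution (fun x _ => ι x)
      · intro _ _
        exact h11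
      · intro x hx _ hfix
        have := (h2 x).1 hfix
        subst this
        exact hw hx
      · intro x hx
        exact hQ ι h1 h2 h3 x hx
      · intro x hx
        exact h1 x
    rw [sum_const, nsmul_eq_mul, mul_one] at h4
    exact h4
  have hstab : ∀ ι : Equiv.Perm V, (∀ a b c, T H (ι a) (ι b) (ι c) = T H a b c) →
      ∀ x ∈ S, ι x ∈ S := by
    intro ι hι x hx
    rw [hS] at hx ⊢
    exact htrans v x _ hx ⟨ι, hι, rfl⟩
  have he1 : ((S.card : ℕ) : ZMod 2) = 0 := by
    apply hpar u S
    · intro ι _ _ h3 x hx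
      exact hstab ι h3 x hx
    · rw [hS]
      intro h5
      exact hnR (hsymm _ _ h5)
  have he2 : (((S.erase v).card : ℕ) : ZMod 2) = 0 := by
    apply hpar v (S.erase v)
    · intro ι h1 h2 h3 x hx
      rw [mem_erase] at hx ⊢
      refine ⟨?_, hstab ι h3 x hx.2⟩
      intro h5
      apply hx.1
      have h6 : ι v = v := (h2 v).2 rfl
      have h7 : ι x = ι v := by rw [h5, h6]
      exact ι.injective h7
    · simp
  have hvS : v ∈ S := (hS v).2 (hrefl v)
  have he3 : (S.erase v).card + 1 = S.card := card_erase_add_one hvS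
  rw [← he3, Nat.cast_add, he2] at he1
  exact absurd he1 (by decide)

end RGC
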