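import Pool.Agent.RGC.Dist

/-!
# RGC: the gluing criterion
-/

set_option autoImplicit false

namespace RGC

open Finset
open scoped Classical

variable {V W : Type}

private theorem glu_z2 {x y : ZMod 2} (h : x = 1 ↔ y = 1) : x = y := by
  revert x y
  decide

private theorem glu_self {X : SimpleGraph V} {Y : SimpleGraph V} (e : X ≃g Y) : SwEq X Y :=
  swEq_iff.2 ⟨e.toEquiv, fun a b c => T_iso e a b c⟩

private noncomputable def glu_t (X : SimpleGraph V) (a b c : V) : ℤ :=
  if T X a b c = 1 then 1 else 0

private theorem glu_cd [Fintype V] (X : SimpleGraph V) (a b : V) :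
    (cd X a b : ℤ) = ∑ c, glu_t X a b c := by
  unfold cd glu_t
  rw [card_filter]
  push_cast
  rfl

private theorem glu_sum [Fintype V] (X : SimpleGraph V) :
    ((∑ p ∈ (univ : Finset V).offDiag, cd X p.1 p.2 : ℕ) : ℤ) = ∑ a, ∑ b, ∑ c, glu_t X a b c := by
  have h1 : ∑ p ∈ (univ : Finset V).offDiag, cd X p.1 p.2
      = ∑ p ∈ (univ : Finset V) ×ˢ (univ : Finset V), cd X p.1 p.2 := by
    apply Finset.sum_subset
    · intro p _
      exact mem_product.2 ⟨mem_univ _, mem_univ _⟩
    · intro p _ hp
      have h2 : p.1 = p.2 := by
        by_contra h3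
        exact hp (mem_offDiag.2 ⟨mem_univ _, mem_univ _, h3⟩)
      rw [h2, cd_self]
  rw [h1, Finset.sum_product]
  push_cast
  refine Finset.sum_congr rfl fun a _ => Finset.sum_congr rfl fun b _ => glu_cd X a b

/-- the difference of the totals -/
private theorem glu_tot [Fintype V] {G H' : SimpleGraph V} {u v : V} (huv : u ≠ v)
    (hu : OffEq G H' u) (hv : OffEq G H' v)
    (h1 : ∀ w, w ≠ u → w ≠ v → T H' u v w = T G u v w + 1) :
    (∑ a, ∑ b, ∑ c, glu_t H' a b c) - (∑ a, ∑ b, ∑ c, glu_t G a b c)
      = 6 * ((Fintype.card V : ℤ) - 2 - 2 * cd G u v) := by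
  set f : V → ℤ := fun w => if w = u ∨ w = v then 0 else 1 - 2 * glu_t G u v w with hf
  have fu : f u = 0 := by rw [hf]; exact if_pos (Or.inl rfl)
  have fv : f v = 0 := by rw [hf]; exact if_pos (Or.inr rfl)
  have fw : ∀ w, w ≠ u → w ≠ v → f w = glu_t H' u v w - glu_t G u v w := by
    intro w hwu hwv
    have h2 := h1 w hwu hwv
    rw [hf]
    simp only [hwu, hwv, or_self, if_false]
    unfold glu_t
    rw [h2]
    rcases z2c (T G u v w) with h3 | h3
    · rw [h3, if_neg (by decide), if_pos (by decide)]
      norm_num
    · rw [h3, if_pos rfl, if_neg (by decide)]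
      norm_num
  have symm1 : ∀ (X : SimpleGraph V) (a b c : V), glu_t X a b c = glu_t X b a c := by
    intro X a b c
    unfold glu_t
    rw [T_swap]
  have symm2 : ∀ (X : SimpleGraph V) (a b c : V), glu_t X a b c = glu_t X a c b := by
    intro X a b c
    unfold glu_t
    rw [T_swap']
  have t0 : ∀ (X : SimpleGraph V) (a c : V), glu_t X a a c = 0 := by
    intro X a c
    unfold glu_t
    rw [T_left, if_neg (by decide)]
  have t1 : ∀ (X : SimpleGraph V) (a c : V), glu_t X a c c = 0 := by
    intro X a c
    unfold glu_t
    rw [T_right, if_neg (by decide)]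
  have t2 : ∀ (X : SimpleGraph V) (a c : V), glu_t X a c a = 0 := by
    intro X a c
    unfold glu_t
    rw [T_outer, if_neg (by decide)]
  have key : ∀ a b c : V, glu_t H' a b c - glu_t G a b c =
      (if a = u then (if b = v then f c else 0) else 0)
      + (if a = v then (if b = u then f c else 0) else 0)
      + (if a = u then (if c = v then f b else 0) else 0)
      + (if a = v then (if c = u then f b else 0) else 0)
      + (if b = u then (if c = v then f a else 0) else 0)
      + (if b = v then (if c = u then f a else 0) else 0) := by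
    intro a b c
    have offu : a ≠ u → b ≠ u → c ≠ u → glu_t H' a b c = glu_t G a b c := by
      intro h2 h3 h4
      unfold glu_t
      rw [hu a b c h2 h3 h4]
    have offv : a ≠ v → b ≠ v → c ≠ v → glu_t H' a b c = glu_t G a b c := by
      intro h2 h3 h4
      unfold glu_t
      rw [hv a b c h2 h3 h4]
    by_cases ha : a = u
    · subst ha
      by_cases hb : b = a
      · subst hb
        by_cases hc : c = v
        · subst hc
          simp [t0, fu, huv, huv.symm]
        · simp [t0, huv, hc, huv.symm]
      · by_cases hb2 : b = v
        · subst hb2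
          by_cases hc : c = a
          · subst hc
            simp [t2, fu, huv, huv.symm]
          · by_cases hc2 : c = b
            · subst hc2
              simp [t1, fv, huv, huv.symm]
            · simp [huv, huv.symm, hc, hc2, fw c hc hc2]
        · by_cases hc : c = v
          · subst hc
            rw [symm2 H', symm2 G]
            simp [huv, huv.symm, hb, hb2, fw b hb hb2]
          · simp [huv, huv.symm, hb, hb2, hc, offv huv hb2 hc]
    · by_cases ha2 : a = v
      · subst ha2
        by_cases hb : b = u
        · subst hb
          by_cases hc : c = b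
          · subst hc
            simp [t1, fu, huv, huv.symm]
          · by_cases hc2 : c = a
            · subst hc2
              simp [t2, fv, huv, huv.symm]
            · rw [symm1 H', symm1 G]
              simp [huv, huv.symm, hc, hc2, fw c hc hc2]
        · by_cases hc : c = u
          · subst hc
            by_cases hb2 : b = a
            · subst hb2
              simp [t0, fv, huv, huv.symm]
            · have e1 : ∀ X : SimpleGraph V, glu_t X a b c = glu_t X c a b := by
                intro X
                rw [symm1 X c a b, symm2 X a c b]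
              rw [e1 H', e1 G]
              simp [huv, huv.symm, hb, hb2, fw b hb hb2]
          · simp [huv, huv.symm, hb, hc, offu ha hb hc]
      · by_cases hb : b = u
        · subst hb
          by_cases hc : c = v
          · subst hc
            have e1 : ∀ X : SimpleGraph V, glu_t X a b c = glu_t X b c a := by
              intro X
              rw [symm1 X a b c, symm2 X b a c]
            rw [e1 H', e1 G]
            simp [huv, huv.symm, ha, ha2, fw a ha ha2]
          · simp [huv, huv.symm, ha, ha2, hc, offv ha2 huv hc]
        · by_cases hb2 : b = v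
          · subst hb2
            by_cases hc : c = u
            · subst hc
              have e1 : ∀ X : SimpleGraph V, glu_t X a b c = glu_t X c b a := by
                intro X
                rw [symm1 X a b c, symm2 X b a c, symm1 X b c a]
              rw [e1 H', e1 G]
              simp [huv, huv.symm, ha, ha2, fw a ha ha2]
            · simp [huv, huv.symm, ha, ha2, hc, offu ha hb hc]
          · by_cases hc : c = u
            · subst hc
              simp [huv, huv.symm, ha, ha2, hb, hb2, offv ha2 hb2 huv]
            · simp [ha, ha2, hb, hb2, hc, offu ha hb hc]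
  have hsf : ∑ w, f w = (Fintype.card V : ℤ) - 2 - 2 * cd G u v := by
    rw [glu_cd, Finset.mul_sum]
    have e1 : ∀ w, f w = 1 - (if w = u then 1 else 0) - (if w = v then 1 else 0)
        - 2 * glu_t G u v w := by
      intro w
      by_cases hw : w = u
      · subst hw
        rw [fu, t2]
        simp [huv]
      · by_cases hw2 : w = v
        · subst hw2
          rw [fv, t1]
          simp [hw]
        · rw [hf]
          simp [hw, hw2]
    rw [Finset.sum_congr rfl fun w _ => e1 w, Finset.sum_sub_distrib, Finset.sum_sub_distrib,
      Finset.sum_sub_distrib]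
    simp
    ring
  rw [← hsf]
  have h2 : (∑ a, ∑ b, ∑ c, glu_t H' a b c) - (∑ a, ∑ b, ∑ c, glu_t G a b c)
      = ∑ a, ∑ b, ∑ c, (glu_t H' a b c - glu_t G a b c) := by
    simp only [Finset.sum_sub_distrib]
  rw [h2]
  simp only [key, Finset.sum_add_distrib]
  simp only [Finset.sum_ite_eq', Finset.mem_univ, if_true, Finset.sum_ite_irrel,
    Finset.sum_const_zero]
  ring

theorem glue [Fintype V] (hn : 10 ≤ Fintype.card V) {G H : SimpleGraph V} (h : DeckEq G H)
    {u v : V} (huv : u ≠ v)
    (h1 : ∀ a b, a ≠ b → cd G a b ≠ 0 ∧ cd G a b + 2 ≠ Fintype.card V)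
    (h2 : 2 * cd G u v + 2 ≠ Fintype.card V) (h3 : Extends G u v) : SwEq G H := by
  obtain ⟨π, hπ⟩ := transport h
  obtain ⟨H', e, he, hoff⟩ := hπ u
  obtain ⟨H'', e'', he'', hoff''⟩ := hπ (π.symm (e v))
  rw [Equiv.apply_symm_apply] at he''
  set x := π.symm (e v) with hx
  -- the permutation
  set α : Equiv.Perm V := e.toEquiv.trans e''.symm.toEquiv with hα
  have hαa : ∀ a, e'' (α a) = e a := by
    intro a
    show e'' (e''.symm (e a)) = e a
    exact e''.apply_symm_apply _
  have hαv : α v = x := by
    apply e''.injective
    rw [hαa, he'']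
  have hT : ∀ a b c, T H'' (α a) (α b) (α c) = T H' a b c := by
    intro a b c
    rw [← T_iso e'', hαa, hαa, hαa, T_iso e]
  have hstar : ∀ a b c, a ≠ v → b ≠ v → c ≠ v → T G (α a) (α b) (α c) = T H' a b c := by
    intro a b c ha hb hc
    rw [← hT]
    refine (hoff'' _ _ _ ?_ ?_ ?_).symm
    · rw [← hαv]
      exact fun h5 => ha (α.injective h5)
    · rw [← hαv]
      exact fun h5 => hb (α.injective h5)
    · rw [← hαv]
      exact fun h5 => hc (α.injective h5)
  obtain ⟨g, hg, hgα⟩ := h3 α (by
    intro a b c ha ha' hb hb' hc hc'
    rw [oddTriple_iff, oddTriple_iff, hstar a b c ha' hb' hc', hoff a b c ha hb hc])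
  have hgT : ∀ a b c, T G (g a) (g b) (g c) = T G a b c := by
    intro a b c
    apply glu_z2
    rw [← oddTriple_iff, ← oddTriple_iff]
    exact hg a b c
  have hD : DeckEq G H' := deck_congr_right (glu_self e).symm h
  have hswap : ∀ w, w ≠ u → w ≠ v → α w = g w := fun w hw hw' => (hgα w hw hw').symm
  have hcase : ∀ w : V, g w = α u ∨ g w = α v ∨ (w ≠ u ∧ w ≠ v) := by
    intro w
    by_cases h5 : g w = α u
    · exact Or.inl h5
    by_cases h6 : g w = α v
    · exact Or.inr (Or.inl h6)
    refine Or.inr (Or.inr ?_)
    obtain ⟨z, hz⟩ := α.surjective (g w)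
    have hzu : z ≠ u := fun h7 => h5 (by rw [← hz, h7])
    have hzv : z ≠ v := fun h7 => h6 (by rw [← hz, h7])
    have h7 : w = z := by
      apply g.injective
      rw [← hz, hswap z hzu hzv]
    rw [h7]
    exact ⟨hzu, hzv⟩
  -- a third vertex
  obtain ⟨w0, hw0⟩ : ∃ w0 : V, w0 ∉ ({u, v} : Finset V) := by
    by_contra hcon
    push Not at hcon
    have h5 : (univ : Finset V) ⊆ {u, v} := fun w _ => hcon w
    have h6 := (card_le_card h5).trans card_le_two
    rw [card_univ] at h6
    omega
  have hw0u : w0 ≠ u := fun h5 => hw0 (by rw [h5]; exact mem_insert_self _ _)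
  have hw0v : w0 ≠ v := fun h5 => hw0 (by rw [h5]; exact mem_insert_of_mem (mem_singleton_self _))
  rcases hcase u with hgu | hgu | hgu
  · -- first case
    have hua : ∀ a b, a ≠ u → a ≠ v → b ≠ u → b ≠ v → T H' u a b = T G u a b := by
      intro a b ha ha' hb hb'
      rw [← hstar u a b huv ha' hb', hswap a ha ha', hswap b hb hb', ← hgu, hgT]
    have hconst : ∀ a b, a ≠ u → a ≠ v → b ≠ u → b ≠ v →
        T H' u v a + T G u v a = T H' u v b + T G u v b := by
      intro a b ha ha' hb hb'
      have e1 := T_four H' u v a b
      have e2 := T_four G u v a b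
      rw [hua a b ha ha' hb hb', hoff v a b huv.symm ha hb] at e1
      have e3 : ∀ p q r t p' q' : ZMod 2, p + q + r + t = 0 → p' + q' + r + t = 0 →
          p + p' = q + q' := by decide
      exact e3 _ _ _ _ _ _ e1 e2
    rcases z2c (T H' u v w0 + T G u v w0) with h5 | h5
    · -- equal
      have h6 : ∀ a, a ≠ u → a ≠ v → T H' u v a = T G u v a := by
        intro a ha ha'
        have e1 := hconst a w0 ha ha' hw0u hw0v
        rw [h5] at e1
        have e3 : ∀ p q : ZMod 2, p + q = 0 → p = q := by decide
        exact e3 _ _ e1
      have h7 : ∀ a b, a ≠ u → b ≠ u → T H' u a b = T G u a b + 0 + 0 := by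
        intro a b ha hb
        rw [add_zero, add_zero]
        by_cases ha' : a = v
        · subst ha'
          by_cases hb' : b = a
          · subst hb'
            rw [T_right, T_right]
          · exact h6 b hb hb'
        · by_cases hb' : b = v
          · subst hb'
            rw [T_swap', T_swap' G]
            exact h6 a ha ha'
          · exact hua a b ha ha' hb hb'
      have h8 := T_eq_of_cut hoff (d := fun _ => 0) h7 (fun _ _ _ _ => rfl)
      exact (swEq_of_T h8).trans (glu_self e)
    · exfalso
      have h6 : ∀ a, a ≠ u → a ≠ v → T H' u v a = T G u v a + 1 := by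
        intro a ha ha'
        have e1 := hconst a w0 ha ha' hw0u hw0v
        rw [h5] at e1
        have e3 : ∀ p q : ZMod 2, p + q = 1 → p = q + 1 := by decide
        exact e3 _ _ e1
      have hoffv : OffEq G H' v := by
        intro a b c ha hb hc
        by_cases ha' : a = u
        · subst ha'
          by_cases hb' : b = a
          · subst hb'
            rw [T_left, T_left]
          by_cases hc' : c = a
          · subst hc'
            rw [T_outer, T_outer]
          exact hua b c hb' hb hc' hc
        by_cases hb' : b = u
        · subst hb'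
          by_cases hc' : c = b
          · subst hc'
            rw [T_right, T_right]
          rw [T_swap, T_swap G]
          exact hua a c ha' ha hc' hc
        by_cases hc' : c = u
        · subst hc'
          rw [← T_rot, ← T_rot G]
          exact hua a b ha' ha hb' hb
        exact hoff a b c ha' hb' hc'
      have e1 := glu_tot huv hoff hoffv h6
      have e2 := dist_sum hn hD (fun c => c)
      have e3 : ((∑ p ∈ (univ : Finset V).offDiag, cd G p.1 p.2 : ℕ) : ℤ)
          = ((∑ p ∈ (univ : Finset V).offDiag, cd H' p.1 p.2 : ℕ) : ℤ) := by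
        exact_mod_cast e2
      rw [glu_sum, glu_sum] at e3
      rw [e3, sub_self] at e1
      apply h2
      omega
  · -- second case
    exfalso
    have hgv : g v = α u := by
      rcases hcase v with h5 | h5 | h5
      · exact h5
      · exact absurd (g.injective (hgu.trans h5.symm)) huv
      · exact absurd rfl h5.2
    have hua : ∀ a b, a ≠ u → a ≠ v → b ≠ u → b ≠ v → T H' u a b = T H' v a b := by
      intro a b ha ha' hb hb'
      rw [← hstar u a b huv ha' hb', hswap a ha ha', hswap b hb hb', ← hgv, hgT,
        hoff v a b huv.symm ha hb]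
    have hconst : ∀ w, w ≠ u → w ≠ v → T H' u v w = T H' u v w0 := by
      intro w hw hw'
      have e1 := T_four H' u v w w0
      rw [hua w w0 hw hw' hw0u hw0v] at e1
      have e3 : ∀ p q r : ZMod 2, p + q + r + r = 0 → p = q := by decide
      exact e3 _ _ _ e1
    obtain ⟨a', b', hab', hcd⟩ := cd_mem hn hD huv
    rcases cd_all H' huv (T H' u v w0) hconst with h5 | h5
    · exact (h1 a' b' hab').1 (hcd.trans h5)
    · exact (h1 a' b' hab').2 (by rw [hcd]; exact h5)
  · exact absurd rfl hgu.1

end RGC
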