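import Pool.Agent.RGC.Abl
import Pool.Agent.RGC.AblH

/-! RGC: abelian Cayley graphs of odd order: the involutions. -/

set_option autoImplicit false

namespace RGC

open Finset
open scoped Classical

variable {V W : Type}

private theorem inv_s {A : Type} [AddCommGroup A] (D : Set A) (a b : A) :
    s (cay D) (-a) (-b) = s (cay D) a b := by
  have h1 : (cay D).Adj (-a) (-b) ↔ (cay D).Adj a b := by
    show (-a ≠ -b ∧ (-b - -a ∈ D ∨ -a - -b ∈ D)) ↔ (a ≠ b ∧ (b - a ∈ D ∨ a - b ∈ D))
    have e1 : -b - -a = a - b := by abel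
    have e2 : -a - -b = b - a := by abel
    rw [e1, e2, ne_eq, neg_inj, or_comm]
  unfold s
  simp only [h1]

private theorem inv_T {A : Type} [AddCommGroup A] (D : Set A) (a b c : A) :
    T (cay D) (-a) (-b) (-c) = T (cay D) a b c := by
  unfold T
  rw [inv_s, inv_s, inv_s]

private theorem inv_odd {A : Type} [AddCommGroup A] [Fintype A] (hodd : Odd (Fintype.card A)) (a : A) :
    -a = a ↔ a = 0 := by
  constructor
  · intro h
    have h1 : a + a = 0 := by
      nth_rewrite 1 [← h]
      exact neg_add_cancel a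
    obtain ⟨k, hk⟩ := hodd
    have h2 : (Fintype.card A) • a = 0 := card_nsmul_eq_zero
    rw [hk, add_nsmul, mul_comm, mul_nsmul', two_nsmul, h1, nsmul_zero, zero_add, one_nsmul] at h2
    exact h2
  · rintro rfl
    exact neg_zero

theorem invol {A : Type} [AddCommGroup A] [Fintype A] (hn : 10 ≤ Fintype.card A)
    (hodd : Odd (Fintype.card A)) (D : Set A) {H : SimpleGraph A} (h : DeckEq (cay D) H) (y : A) :
    ∃ ι : Equiv.Perm A, (∀ x, ι (ι x) = x) ∧ (∀ x, ι x = x ↔ x = y) ∧
      ∀ a b c, T H (ι a) (ι b) (ι c) = T H a b c := by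
  obtain ⟨H', e, he, he0, hoff, hc, hcard⟩ := hyp hn hodd D h y
  obtain ⟨d, -, hd⟩ := cut hoff
  have hev := even_cut D hoff hc hcard hd
  have key0 : ∀ b c, T H' 0 (-b) (-c) = T H' 0 b c := by
    intro b c
    by_cases hb : b = 0
    · rw [hb, neg_zero, T_left, T_left]
    by_cases hc0 : c = 0
    · rw [hc0, neg_zero, T_outer, T_outer]
    rw [hd _ _ (neg_ne_zero.2 hb) (neg_ne_zero.2 hc0), hd b c hb hc0, hev b hb, hev c hc0]
    have h1 := inv_T D 0 b c
    rw [neg_zero] at h1
    rw [h1]
  have key : ∀ a b c, T H' (-a) (-b) (-c) = T H' a b c := by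
    intro a b c
    by_cases ha : a = 0
    · rw [ha, neg_zero, key0]
    by_cases hb : b = 0
    · rw [hb, neg_zero, T_rot, key0, T_rot H' a 0 c]
    by_cases hc0 : c = 0
    · rw [hc0, neg_zero, T_rot, T_rot, key0, T_rot H' a b 0, T_rot H' b 0 a]
    rw [hoff _ _ _ (neg_ne_zero.2 ha) (neg_ne_zero.2 hb) (neg_ne_zero.2 hc0), hoff a b c ha hb hc0,
      inv_T]
  refine ⟨e.symm.trans ((Equiv.neg A).trans e), ?_, ?_, ?_⟩
  · intro x
    simp
  · intro x
    have h1 : (e.symm.trans ((Equiv.neg A).trans e)) x = e (-(e.symm x)) := rfl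
    rw [h1]
    constructor
    · intro h2
      have h3 : -(e.symm x) = e.symm x := by
        apply e.injective
        rw [h2, Equiv.apply_symm_apply]
      have h4 := (inv_odd hodd _).1 h3
      rw [← he0, ← h4, Equiv.apply_symm_apply]
    · rintro rfl
      rw [← he0, Equiv.symm_apply_apply, neg_zero]
  · intro a b c
    have h1 : ∀ x, (e.symm.trans ((Equiv.neg A).trans e)) x = e (-(e.symm x)) := fun _ => rfl
    rw [h1, h1, h1, he, key, ← he]
    simp

end RGC
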