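import Pool.Agent.RGC.Trn

/-!
# RGC: Kelly's lemma for the codegrees
-/

set_option autoImplicit false

namespace RGC

open Finset
open scoped Classical

variable {V W : Type}

private noncomputable def kelF [Fintype V] (G : SimpleGraph V) (j : ℕ) : ℕ :=
  ∑ p ∈ (univ : Finset V).offDiag, (cd G p.1 p.2).choose j

private noncomputable def kelU [Fintype V] (G : SimpleGraph V) (a b : V) : Finset V :=
  univ.filter fun w : V => T G a b w = 1

private theorem kel_iso [Fintype V] [Fintype W] {G : SimpleGraph V} {H : SimpleGraph W}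
    (h : SwEq G H) (j : ℕ) : kelF G j = kelF H j := by
  obtain ⟨e, he⟩ := swEq_iff.1 h
  unfold kelF
  refine Finset.sum_bij (fun p _ => (e p.1, e p.2)) ?_ ?_ ?_ ?_
  · intro p hp
    rw [mem_offDiag] at hp ⊢
    exact ⟨mem_univ _, mem_univ _, fun h => hp.2.2 (e.injective h)⟩
  · intro p _ q _ h
    have h1 := congrArg Prod.fst h
    have h2 := congrArg Prod.snd h
    exact Prod.ext (e.injective h1) (e.injective h2)
  · intro q hq
    rw [mem_offDiag] at hq
    refine ⟨(e.symm q.1, e.symm q.2), ?_, ?_⟩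
    · rw [mem_offDiag]
      exact ⟨mem_univ _, mem_univ _, fun h => hq.2.2 (e.symm.injective h)⟩
    · exact Prod.ext (e.apply_symm_apply _) (e.apply_symm_apply _)
  · intro p _
    rw [cd_iso e he]

private theorem kel_cd [Fintype V] (G : SimpleGraph V) (v : V) (a b : {x : V // x ≠ v}) :
    cd (cardOf G v) a b = ((kelU G a.1 b.1).erase v).card := by
  unfold cd
  refine Finset.card_bij (fun w _ => w.1) ?_ ?_ ?_
  · intro w hw
    rw [mem_filter] at hw
    rw [mem_erase, kelU, mem_filter]
    exact ⟨w.2, mem_univ _, hw.2⟩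
  · intro x _ y _ h
    exact Subtype.ext h
  · intro w hw
    rw [mem_erase, kelU, mem_filter] at hw
    refine ⟨⟨w, hw.1⟩, ?_, rfl⟩
    rw [mem_filter]
    exact ⟨mem_univ _, hw.2.2⟩

private theorem kel_card [Fintype V] (G : SimpleGraph V) (v : V) (j : ℕ) :
    kelF (cardOf G v) j =
      ∑ p ∈ ((univ : Finset V).erase v).offDiag, (((kelU G p.1 p.2).erase v).card).choose j := by
  unfold kelF
  refine Finset.sum_bij (fun p _ => (p.1.1, p.2.1)) ?_ ?_ ?_ ?_
  · intro p hp
    rw [mem_offDiag] at hp ⊢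
    refine ⟨mem_erase.2 ⟨p.1.2, mem_univ _⟩, mem_erase.2 ⟨p.2.2, mem_univ _⟩, fun h => ?_⟩
    exact hp.2.2 (Subtype.ext h)
  · intro p _ q _ h
    have h1 := congrArg Prod.fst h
    have h2 := congrArg Prod.snd h
    exact Prod.ext (Subtype.ext h1) (Subtype.ext h2)
  · intro q hq
    rw [mem_offDiag] at hq
    refine ⟨(⟨q.1, (mem_erase.1 hq.1).1⟩, ⟨q.2, (mem_erase.1 hq.2.1).1⟩), ?_, rfl⟩
    rw [mem_offDiag]
    refine ⟨mem_univ _, mem_univ _, fun h => hq.2.2 ?_⟩
    exact congrArg Subtype.val h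
  · intro p _
    rw [kel_cd]

private theorem kel_binom (m j : ℕ) :
    m * (m - 1).choose j + j * m.choose j = m * m.choose j := by
  rcases Nat.lt_or_ge m j with h | h
  · rw [Nat.choose_eq_zero_of_lt h, Nat.choose_eq_zero_of_lt (by omega), mul_zero,
      mul_zero, add_zero]
  · rcases Nat.eq_zero_or_pos m with h0 | h0
    · subst h0
      have hj : j = 0 := by omega
      subst hj
      rfl
    · have h1 := Nat.choose_mul_succ_eq (m - 1) j
      have h2 : m - 1 + 1 = m := by omega
      rw [h2] at h1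
      have h3 : m * m.choose j = (m - j) * m.choose j + j * m.choose j := by
        rw [← Nat.add_mul, Nat.sub_add_cancel h]
      rw [h3, mul_comm m, h1, mul_comm (m.choose j)]

private theorem kel_pair [Fintype V] (G : SimpleGraph V) {a b : V} (hab : a ≠ b) (j : ℕ) :
    ∑ v ∈ (univ : Finset V) \ {a, b}, (((kelU G a b).erase v).card).choose j +
      j * (cd G a b).choose j = (Fintype.card V - 2) * (cd G a b).choose j := by
  have hU : kelU G a b ⊆ (univ : Finset V) \ {a, b} := by
    intro w hw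
    rw [kelU, mem_filter] at hw
    rw [mem_sdiff, mem_insert, mem_singleton]
    refine ⟨mem_univ _, ?_⟩
    rintro (rfl | rfl)
    · rw [T_outer] at hw
      exact absurd hw.2 (by decide)
    · rw [T_right] at hw
      exact absurd hw.2 (by decide)
  have hc : ((univ : Finset V) \ {a, b}).card = Fintype.card V - 2 := by
    rw [card_sdiff_of_subset (subset_univ _), card_univ, card_pair hab]
  have hm : cd G a b = (kelU G a b).card := rfl
  rw [hm]
  obtain ⟨m, hm'⟩ : ∃ m, m = (kelU G a b).card := ⟨_, rfl⟩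
  rw [← hm', ← hc, ← sum_sdiff hU]
  have e1 : ∑ v ∈ ((univ : Finset V) \ {a, b}) \ kelU G a b, (((kelU G a b).erase v).card).choose j =
      ((((univ : Finset V) \ {a, b}) \ kelU G a b).card) * m.choose j := by
    rw [sum_congr rfl (g := fun _ => m.choose j), sum_const, smul_eq_mul]
    intro v hv
    rw [mem_sdiff] at hv
    rw [erase_eq_of_notMem hv.2, ← hm']
  have e2 : ∑ v ∈ kelU G a b, (((kelU G a b).erase v).card).choose j = m * (m - 1).choose j := by
    rw [sum_congr rfl (g := fun _ => (m - 1).choose j), sum_const, smul_eq_mul, ← hm']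
    intro v hv
    rw [card_erase_of_mem hv, ← hm']
  have e3 : (((univ : Finset V) \ {a, b}) \ kelU G a b).card + m = ((univ : Finset V) \ {a, b}).card := by
    rw [hm']
    exact card_sdiff_add_card_eq_card hU
  rw [e1, e2, ← e3, Nat.add_mul, ← kel_binom m j]
  ring

private theorem kel_sum [Fintype V] (G : SimpleGraph V) (j : ℕ) :
    ∑ v, kelF (cardOf G v) j + j * kelF G j = (Fintype.card V - 2) * kelF G j := by
  have e1 : ∑ v, kelF (cardOf G v) j = ∑ p ∈ (univ : Finset V).offDiag,
      ∑ v ∈ (univ : Finset V) \ {p.1, p.2}, (((kelU G p.1 p.2).erase v).card).choose j := by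
    rw [sum_congr rfl fun v _ => kel_card G v j]
    refine Finset.sum_comm' ?_
    intro v p
    simp only [mem_univ, true_and, mem_offDiag, mem_erase, mem_sdiff, mem_insert, mem_singleton,
      not_or, and_true]
    constructor
    · rintro ⟨h1, h2, h3⟩
      exact ⟨⟨fun h => h1 h.symm, fun h => h2 h.symm⟩, h3⟩
    · rintro ⟨⟨h1, h2⟩, h3⟩
      exact ⟨fun h => h1 h.symm, fun h => h2 h.symm, h3⟩
  rw [e1]
  unfold kelF
  rw [mul_sum, mul_sum, ← sum_add_distrib]
  refine sum_congr rfl fun p hp => ?_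
  exact kel_pair G (mem_offDiag.1 hp).2.2 j

theorem kelly_cd [Fintype V] {G H : SimpleGraph V} (h : DeckEq G H) {j : ℕ}
    (hj : j + 3 ≤ Fintype.card V) :
    ∑ p ∈ (univ : Finset V).offDiag, (cd G p.1 p.2).choose j =
      ∑ p ∈ (univ : Finset V).offDiag, (cd H p.1 p.2).choose j := by
  obtain ⟨π, hπ⟩ := h
  have e1 : ∑ v, kelF (cardOf G v) j = ∑ v, kelF (cardOf H v) j := by
    rw [← Equiv.sum_comp π (fun v => kelF (cardOf H v) j)]
    exact sum_congr rfl fun v _ => kel_iso (hπ v) j
  have h1 := kel_sum G j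
  have h2 := kel_sum H j
  rw [e1] at h1
  obtain ⟨t, ht⟩ : ∃ t, Fintype.card V - 2 = j + (t + 1) := ⟨Fintype.card V - 3 - j, by omega⟩
  rw [ht] at h1 h2
  have h3 : (t + 1) * kelF G j = (t + 1) * kelF H j := by
    have h4 : (j + (t + 1)) * kelF G j = j * kelF G j + (t + 1) * kelF G j := by ring
    have h5 : (j + (t + 1)) * kelF H j = j * kelF H j + (t + 1) * kelF H j := by ring
    omega
  exact Nat.eq_of_mul_eq_mul_left (Nat.succ_pos t) h3

end RGC
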