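import Pool.Agent.RGC.Bas

/-! RGC: transport of the cards. -/

set_option autoImplicit false

namespace RGC

open Finset
open scoped Classical

variable {V W : Type}

private theorem trn_ext {v : V} {u : W} (e : {x : V // x ≠ v} ≃ {x : W // x ≠ u}) :
    ∃ e' : V ≃ W, e' v = u ∧ ∀ x (h : x ≠ v), e' x = (e ⟨x, h⟩).1 := by
  refine ⟨⟨fun x => if h : x = v then u else (e ⟨x, h⟩).1,
    fun y => if h : y = u then v else (e.symm ⟨y, h⟩).1, ?_, ?_⟩, ?_, ?_⟩
  · intro x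
    by_cases h : x = v
    · simp [h]
    · have h1 : (e ⟨x, h⟩).1 ≠ u := (e ⟨x, h⟩).2
      simp only [dif_neg h, dif_neg h1]
      have h2 : (⟨(e ⟨x, h⟩).1, h1⟩ : {x : W // x ≠ u}) = e ⟨x, h⟩ := rfl
      rw [h2, Equiv.symm_apply_apply]
  · intro y
    by_cases h : y = u
    · simp [h]
    · have h1 : (e.symm ⟨y, h⟩).1 ≠ v := (e.symm ⟨y, h⟩).2
      simp only [dif_neg h, dif_neg h1]
      have h2 : (⟨(e.symm ⟨y, h⟩).1, h1⟩ : {x : V // x ≠ v}) = e.symm ⟨y, h⟩ := rfl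
      rw [h2, Equiv.apply_symm_apply]
  · show (if h : v = v then u else (e ⟨v, h⟩).1) = u
    rw [dif_pos rfl]
  · intro x h
    show (if h : x = v then u else (e ⟨x, h⟩).1) = _
    rw [dif_neg h]

theorem transport {G H : SimpleGraph V} (h : DeckEq G H) :
    ∃ π : Equiv.Perm V, ∀ v, ∃ H' : SimpleGraph V, ∃ e : H' ≃g H, e v = π v ∧ OffEq G H' v := by
  obtain ⟨π, hπ⟩ := h
  refine ⟨π, fun v => ?_⟩
  obtain ⟨e, he⟩ := swEq_iff.1 (hπ v)
  obtain ⟨e', h1, h2⟩ := trn_ext e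
  refine ⟨H.comap e', SimpleGraph.Iso.comap e' H, h1, ?_⟩
  intro a b c ha hb hc
  show T H (e' a) (e' b) (e' c) = T G a b c
  rw [h2 a ha, h2 b hb, h2 c hc]
  exact he ⟨a, ha⟩ ⟨b, hb⟩ ⟨c, hc⟩

/-- cards at corresponding vertices of equivalent graphs are equivalent -/
theorem card_congr {G : SimpleGraph V} {G' : SimpleGraph W} (f : V ≃ W)
    (hf : ∀ a b c, T G' (f a) (f b) (f c) = T G a b c) (v : V) :
    SwEq (cardOf G v) (cardOf G' (f v)) := by
  refine swEq_iff.2 ⟨f.subtypeEquiv (fun x => ?_), fun a b c => hf a.1 b.1 c.1⟩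
  exact not_congr f.injective.eq_iff.symm

theorem deck_congr {U : Type} {G : SimpleGraph V} {G' : SimpleGraph W} {H : SimpleGraph U}
    (hG : SwEq G G') (h : DeckEq G H) : DeckEq G' H := by
  obtain ⟨f, hf⟩ := swEq_iff.1 hG
  obtain ⟨π, hπ⟩ := h
  refine ⟨f.symm.trans π, fun w => ?_⟩
  obtain ⟨v, rfl⟩ := f.surjective w
  have h1 : SwEq (cardOf G' (f v)) (cardOf H (π v)) := (card_congr f hf v).symm.trans (hπ v)
  have h2 : (f.symm.trans π) (f v) = π v := by simp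
  rw [h2]
  exact h1

theorem deck_congr_right {U : Type} {G : SimpleGraph V} {H : SimpleGraph U} {H' : SimpleGraph W}
    (hH : SwEq H H') (h : DeckEq G H) : DeckEq G H' := by
  obtain ⟨f, hf⟩ := swEq_iff.1 hH
  obtain ⟨π, hπ⟩ := h
  exact ⟨π.trans f, fun v => (hπ v).trans (card_congr f hf (π v))⟩

end RGC
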