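import Pool.Agent.RGC.Even
import Pool.Agent.RGC.Trn

/-!
# RGC: the numbers of odd triples through the vertices of two extensions of a card
-/

set_option autoImplicit false

namespace RGC

open Finset
open scoped Classical

variable {V W : Type}

private theorem off_ot {G H : SimpleGraph V} {v : V} (h : OffEq G H v) (a b c : {x : V // x ≠ v}) :
    OT (cardOf H v) a b c ↔ OT (cardOf G v) a b c := by
  rw [OT_card, OT_card, OT_iff, OT_iff, oddTriple_iff, oddTriple_iff, h a.1 b.1 c.1 a.2 b.2 c.2]

private theorem off_D2 [Fintype V] {G H : SimpleGraph V} {v : V} (h : OffEq G H v)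
    (u : {x : V // x ≠ v}) : D2 (cardOf H v) u = D2 (cardOf G v) u := by
  unfold D2
  congr 1
  ext p
  simp only [mem_filter, mem_univ, true_and]
  exact off_ot h _ _ _

private theorem off_N3 [Fintype V] {G H : SimpleGraph V} {v : V} (h : OffEq G H v) :
    N3 (cardOf H v) = N3 (cardOf G v) := by
  unfold N3
  exact sum_congr rfl (fun u _ => off_D2 h u)

private theorem deck_N3 [Fintype V] (hV : 4 ≤ Fintype.card V) {G H : SimpleGraph V}
    (h : DeckEq G H) : N3 G = N3 H := by
  obtain ⟨π, hπ⟩ := h
  have hN : ∀ v, N3 (cardOf H (π v)) = N3 (cardOf G v) := fun v => (N3_SwEq (hπ v).symm).symm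
  have h1 := sum_N3_card G
  have h2 := sum_N3_card H
  rw [← π.sum_comp, sum_congr rfl (fun v _ => hN v)] at h2
  obtain ⟨m, hm⟩ : ∃ m, Fintype.card V = m + 4 := ⟨Fintype.card V - 4, by omega⟩
  rw [hm] at h1 h2
  have h5 : (m + 1) * N3 G = (m + 1) * N3 H := by
    have e1 : ∑ v, N3 (cardOf G v) = (m + 1) * N3 G := by
      have : (m + 4) * N3 G = (m + 1) * N3 G + 3 * N3 G := by ring
      omega
    have e2 : ∑ v, N3 (cardOf G v) = (m + 1) * N3 H := by
      have : (m + 4) * N3 H = (m + 1) * N3 H + 3 * N3 H := by ring
      omega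
    omega
  exact Nat.eq_of_mul_eq_mul_left (Nat.succ_pos m) h5

private theorem D2_thr [Fintype V] (G : SimpleGraph V) (v : V) : D2 G v = 2 * oddThrough G v := by
  rw [oddThrough_eq, D2_eq]

/-- the vertex `v` lies in equally many odd triples of both extensions -/
theorem off_self [Fintype V] (hV : 4 ≤ Fintype.card V) {G H : SimpleGraph V} (hdeck : DeckEq G H)
    {v : V} (h : OffEq G H v) : oddThrough H v = oddThrough G v := by
  have h1 := N3_card G v
  have h2 := N3_card H v
  have h3 := deck_N3 hV hdeck
  have h4 := off_N3 h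
  have h5 := D2_thr G v
  have h6 := D2_thr H v
  omega

/-- the change of the codegree at `v` is the change of the number of odd triples -/
theorem off_cd [Fintype V] {G H : SimpleGraph V} {v u : V} (h : OffEq G H v) (hu : u ≠ v) :
    cd H u v + oddThrough G u = cd G u v + oddThrough H u := by
  have e : ∀ X : SimpleGraph V, D1 X u v = cd X u v := by
    intro X
    unfold D1 cd
    congr 1
    ext w
    simp only [mem_filter, mem_univ, true_and]
    rw [OT_iff, oddTriple_iff]
  have h1 := D2_card G v ⟨u, hu⟩
  have h2 := D2_card H v ⟨u, hu⟩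
  have h3 := off_D2 h ⟨u, hu⟩
  have h4 := D2_thr G u
  have h5 := D2_thr H u
  have e1 := e G
  have e2 := e H
  simp only at h1 h2
  omega

/-- two graphs with the same triples have the same numbers of odd triples through the vertices -/
theorem oddThrough_congr {G H : SimpleGraph V} (h : ∀ a b c, T H a b c = T G a b c) (v : V) :
    oddThrough H v = oddThrough G v := by
  unfold oddThrough
  simp only [oddTriple_iff, h]

end RGC
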