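import Pool.Agent.RGC.Even
import Pool.Agent.RGC.Amp

/-!
# RGC: in a regular graph all vertices lie in equally many odd triples modulo two
-/

set_option autoImplicit false

namespace RGC

open Finset
open scoped Classical

variable {V W : Type}

private theorem re_nbr [Fintype V] (G : SimpleGraph V) (v : V) :
    (G.neighborSet v).ncard = ∑ w, (if G.Adj v w then 1 else 0) := by
  rw [← card_filter, ← Set.ncard_coe_finset]
  congr 1
  ext w
  simp

private theorem re_cn [Fintype V] (G : SimpleGraph V) (v b : V) :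
    (G.commonNeighbors v b).ncard =
      ∑ w, (if G.Adj v w then 1 else 0) * (if G.Adj w b then 1 else 0) := by
  have h : ∀ w, (if G.Adj v w then 1 else 0) * (if G.Adj w b then 1 else 0) =
      if G.Adj v w ∧ G.Adj w b then 1 else 0 := by
    intro w
    by_cases h1 : G.Adj v w <;> by_cases h2 : G.Adj w b <;> simp [h1, h2]
  rw [sum_congr rfl (fun w _ => h w), ← card_filter, ← Set.ncard_coe_finset]
  congr 1
  ext w
  simp only [SimpleGraph.mem_commonNeighbors, coe_filter, mem_univ, true_and, Set.mem_ofPred_eq]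
  rw [G.adj_comm b w]

private theorem re_sum [Fintype V] {G : SimpleGraph V} {k : ℕ}
    (hk : ∀ v, (G.neighborSet v).ncard = k) (v : V) :
    ∑ b, (G.commonNeighbors v b).ncard = k * k := by
  have h1 : ∑ b, (G.commonNeighbors v b).ncard =
      ∑ w, (if G.Adj v w then 1 else 0) * k := by
    rw [sum_congr rfl (fun b _ => re_cn G v b), sum_comm]
    refine sum_congr rfl fun w _ => ?_
    rw [← mul_sum, ← re_nbr, hk]
  rw [h1, ← sum_mul, ← re_nbr, hk]

private theorem re_cd [Fintype V] {G : SimpleGraph V} {k : ℕ}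
    (hk : ∀ v, (G.neighborSet v).ncard = k) (v b : V) :
    (cd G v b : ℤ) = (2 * (k : ℤ) - 2 * ((G.commonNeighbors v b).ncard : ℤ)) +
      (if G.Adj v b then 1 else 0) *
        ((Fintype.card V : ℤ) - 4 * (k : ℤ) + 4 * ((G.commonNeighbors v b).ncard : ℤ)) := by
  by_cases hvb : v = b
  · subst hvb
    have h1 : cd G v v = 0 := by
      unfold cd
      rw [card_eq_zero, filter_eq_empty_iff]
      intro w _
      rw [T_left]
      decide
    have h2 : (G.commonNeighbors v v).ncard = k := by
      rw [← hk v]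
      congr 1
      ext w
      simp [SimpleGraph.mem_commonNeighbors]
    rw [h1, h2, if_neg (G.loopless.irrefl v)]
    push_cast
    ring
  · obtain ⟨h1, h2⟩ := cd_reg hk hvb
    by_cases h : G.Adj v b
    · have h3 := h1 h
      rw [if_pos h]
      have h4 : (cd G v b : ℤ) + 2 * k = Fintype.card V + 2 * ((G.commonNeighbors v b).ncard : ℤ) := by
        exact_mod_cast h3
      linarith
    · have h3 := h2 h
      rw [if_neg h]
      have h4 : (cd G v b : ℤ) + 2 * ((G.commonNeighbors v b).ncard : ℤ) = 2 * k := by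
        exact_mod_cast h3
      linarith

private theorem re_two [Fintype V] {G : SimpleGraph V} {k : ℕ}
    (hk : ∀ v, (G.neighborSet v).ncard = k) (v : V) :
    ∃ M : ℤ, 2 * (oddThrough G v : ℤ) = (2 * k * Fintype.card V - 2 * (k * k)
      + k * ((Fintype.card V : ℤ) - 4 * k)) + 4 * M := by
  refine ⟨∑ b, (if G.Adj v b then 1 else 0) * ((G.commonNeighbors v b).ncard : ℤ), ?_⟩
  have h1 : 2 * (oddThrough G v : ℤ) = ∑ b, (cd G v b : ℤ) := by
    exact_mod_cast two_oddThrough G v
  have h2 : ∑ b, ((G.commonNeighbors v b).ncard : ℤ) = k * k := by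
    exact_mod_cast re_sum hk v
  have h3 : ∑ b, (if G.Adj v b then (1 : ℤ) else 0) = k := by
    have := re_nbr G v
    rw [hk] at this
    rw [this]
    push_cast
    rfl
  rw [h1, sum_congr rfl (fun b _ => re_cd hk v b), sum_add_distrib, sum_sub_distrib, ← mul_sum,
    ← mul_sum, h2]
  have h4 : ∀ b, (if G.Adj v b then (1 : ℤ) else 0) *
        ((Fintype.card V : ℤ) - 4 * (k : ℤ) + 4 * ((G.commonNeighbors v b).ncard : ℤ)) =
      (if G.Adj v b then (1 : ℤ) else 0) * ((Fintype.card V : ℤ) - 4 * (k : ℤ)) +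
      4 * ((if G.Adj v b then (1 : ℤ) else 0) * ((G.commonNeighbors v b).ncard : ℤ)) :=
    fun b => by ring
  rw [sum_congr rfl (fun b _ => h4 b), sum_add_distrib, ← sum_mul, ← mul_sum, h3]
  simp only [sum_const, card_univ, nsmul_eq_mul]
  ring

theorem reg_oddThrough [Fintype V] {G : SimpleGraph V} {k : ℕ}
    (hk : ∀ v, (G.neighborSet v).ncard = k) (u v : V) :
    oddThrough G u % 2 = oddThrough G v % 2 := by
  obtain ⟨M, hM⟩ := re_two hk u
  obtain ⟨N, hN⟩ := re_two hk v
  omega

end RGC
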