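import Pool.Agent.RGC.Reg
import Pool.Agent.RGC.RegEv
import Pool.Agent.RGC.Off

/-!
# RGC: the Laplacian criterion

For a regular class of odd order a cut at `v` that gives a class with the same deck is an eigenfunction (after
subtracting its mean) of the Laplacian of the card `G - v` for the eigenvalue `(n - 1) / 2`.
-/

set_option autoImplicit false

namespace RGC

open Finset
open scoped Classical

variable {V W : Type}

/-- real indicator -/
private noncomputable def lapR (x : ZMod 2) : ℝ := if x = 1 then 1 else 0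

private theorem lapR_zero : lapR 0 = 0 := if_neg (by decide)

private theorem lapR_one : lapR 1 = 1 := if_pos rfl

private theorem lapR_inj {x y : ZMod 2} (h : lapR x = lapR y) : x = y := by
  rcases z2c x with rfl | rfl <;> rcases z2c y with rfl | rfl
  · rfl
  · rw [lapR_zero, lapR_one] at h
    norm_num at h
  · rw [lapR_zero, lapR_one] at h
    norm_num at h
  · rfl

private theorem lapR_flip {x y : ZMod 2} (h : x + y = 1) : lapR x = 1 - lapR y := by
  rcases z2c x with rfl | rfl <;> rcases z2c y with rfl | rfl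
  · exact absurd h (by decide)
  · rw [lapR_zero, lapR_one]
    norm_num
  · rw [lapR_zero, lapR_one]
    norm_num
  · exact absurd h (by decide)

private theorem lapR_cross (x p q : ZMod 2) :
    (lapR (x + p + q) - lapR x) * (2 * lapR p - 1) = (lapR p - lapR q) * (1 - 2 * lapR x) := by
  have h2 : (1 : ZMod 2) + 1 = 0 := by decide
  rcases z2c x with rfl | rfl <;> rcases z2c p with rfl | rfl <;> rcases z2c q with rfl | rfl <;>
    simp only [add_zero, zero_add, h2, lapR_zero, lapR_one] <;> norm_num

private theorem lap_deg [Fintype V] (X : SimpleGraph V) {k : ℕ} (u : V)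
    (h : (X.neighborSet u).ncard = k) : ∑ w, lapR (s X u w) = k := by
  have e : ∀ w, lapR (s X u w) = if X.Adj u w then (1 : ℝ) else 0 := by
    intro w
    unfold lapR
    simp only [s_eq_one]
  rw [Finset.sum_congr rfl (fun w _ => e w), Finset.sum_boole, ← h]
  congr 1
  rw [← Set.ncard_coe_finset]
  congr 1
  ext w
  simp

theorem lap [Fintype V] (hn : 10 ≤ Fintype.card V) (hodd : Odd (Fintype.card V))
    {G H : SimpleGraph V} (h : DeckEq G H) {k : ℕ} (hk : ∀ v, (G.neighborSet v).ncard = k)
    {v : V}
    (hv : ¬ LaplaceEigenvalue G v (((Fintype.card V : ℝ) - 1) / 2)) : SwEq G H := by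
  obtain ⟨π, hπ⟩ := transport h
  obtain ⟨H', e, -, hoff⟩ := hπ v
  have hHH : SwEq H' H := swEq_iff.2 ⟨e.toEquiv, fun a b c => T_iso e a b c⟩
  have hdeck : DeckEq G H' := deck_congr_right hHH.symm h
  obtain ⟨d, -, hd⟩ := cut hoff
  have hEG := E_reg hodd hk
  have hEH := reg_E hn hodd hdeck hk
  have dG : ∀ u, ∑ w, lapR (s G u w) = k := fun u => lap_deg G u (hk u)
  have dH : ∀ u, ∑ w, lapR (s (E H') u w) = k := fun u => lap_deg (E H') u (hEH u)
  have hcard : (((univ : Finset V).erase v).card : ℝ) = (Fintype.card V : ℝ) - 1 := by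
    rw [Finset.card_erase_of_mem (Finset.mem_univ v), Finset.card_univ,
      Nat.cast_sub (by omega), Nat.cast_one]
  -- the neighbours of `v`
  have hnb : ∀ a, a ≠ v → s (E H') v a = s G v a := by
    intro a ha
    have p1 : oddThrough G a % 2 = oddThrough G v % 2 := reg_oddThrough hk a v
    have p2 : oddThrough (E H') a % 2 = oddThrough (E H') v % 2 := reg_oddThrough hEH a v
    rw [oddThrough_congr (T_E hodd H') a, oddThrough_congr (T_E hodd H') v] at p2
    have p4 := off_self (by omega) hdeck hoff
    have p5 := off_cd hoff ha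
    have p6 : cd H' v a % 2 = cd G v a % 2 := by
      rw [cd_comm H' v a, cd_comm G v a]
      omega
    have q1 : s (E H') v a = 1 ↔ s G v a = 1 := by
      have q2 := s_E_one G ha.symm
      rw [hEG] at q2
      rw [s_E_one H' ha.symm, q2, Nat.odd_iff, Nat.odd_iff, p6]
    have key : ∀ x y : ZMod 2, (x = 1 ↔ y = 1) → x = y := by decide
    exact key _ _ q1
  have hall : ∀ a b, a ≠ v → b ≠ v → s (E H') a b = s G a b + d a + d b := by
    intro a b ha hb
    have h1 := T_E hodd H' v a b
    rw [hd a b ha hb] at h1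
    unfold T at h1
    rw [hnb a ha, hnb b hb] at h1
    have key : ∀ p q r x y z : ZMod 2, p + x + q = p + r + q + y + z → x = r + y + z := by decide
    exact key _ _ _ _ _ _ h1
  -- the eigenfunction
  set t : V → ℝ := fun w => lapR (d w) with ht
  set μ : ℝ := (∑ w ∈ univ.erase v, t w) / ((Fintype.card V : ℝ) - 1) with hμ
  set f : V → ℝ := fun w => if w = v then 0 else t w - μ with hf
  have hn1 : (Fintype.card V : ℝ) - 1 ≠ 0 := by
    have h1 : (10 : ℝ) ≤ (Fintype.card V : ℝ) := by exact_mod_cast hn
    intro h0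
    linarith
  have hsum : ∀ u, u ≠ v → ∑ w ∈ univ.erase v, lapR (s G u w) * (t u - t w) =
      ((Fintype.card V : ℝ) - 1) / 2 * (t u - μ) := by
    intro u hu
    have h6 : ∀ X : SimpleGraph V, ∑ w ∈ univ.erase v, lapR (s X u w) =
        (∑ w, lapR (s X u w)) - lapR (s X u v) := by
      intro X
      rw [← Finset.add_sum_erase univ _ (Finset.mem_univ v)]
      ring
    have h7 : ∑ w ∈ univ.erase v, (lapR (s (E H') u w) - lapR (s G u w)) = 0 := by
      rw [Finset.sum_sub_distrib, h6, h6, dG, dH, s_comm (E H') u v, s_comm G u v, hnb u hu]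
      ring
    have h8 : ∑ w ∈ univ.erase v, (t u - t w) * (1 - 2 * lapR (s G u w)) = 0 := by
      have e1 : ∑ w ∈ univ.erase v, (t u - t w) * (1 - 2 * lapR (s G u w)) =
          ∑ w ∈ univ.erase v, (lapR (s (E H') u w) - lapR (s G u w)) * (2 * lapR (d u) - 1) := by
        apply Finset.sum_congr rfl
        intro w hw
        rw [hall u w hu (Finset.ne_of_mem_erase hw), lapR_cross]
      rw [e1, ← Finset.sum_mul, h7, zero_mul]
    have h9 : ∑ w ∈ univ.erase v, (t u - t w) * (1 - 2 * lapR (s G u w)) =
        (((Fintype.card V : ℝ) - 1) * t u - ∑ w ∈ univ.erase v, t w) -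
          2 * ∑ w ∈ univ.erase v, lapR (s G u w) * (t u - t w) := by
      rw [← hcard, ← nsmul_eq_mul, ← Finset.sum_const, ← Finset.sum_sub_distrib, Finset.mul_sum,
        ← Finset.sum_sub_distrib]
      apply Finset.sum_congr rfl
      intro w _
      ring
    rw [h8] at h9
    have h10 : ((Fintype.card V : ℝ) - 1) * μ = ∑ w ∈ univ.erase v, t w := by
      rw [hμ]
      exact mul_div_cancel₀ _ hn1
    linarith
  have hfv : f v = 0 := by
    rw [hf]
    exact if_pos rfl
  have hfn : ∀ w, w ≠ v → f w = t w - μ := by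
    intro w hw
    rw [hf]
    exact if_neg hw
  have hfe : ∀ u, u ≠ v → ∑ w, (if G.Adj u w ∧ w ≠ v then f u - f w else 0) =
      ((Fintype.card V : ℝ) - 1) / 2 * f u := by
    intro u hu
    rw [hfn u hu, ← hsum u hu, ← Finset.add_sum_erase univ _ (Finset.mem_univ v)]
    have e0 : (if G.Adj u v ∧ v ≠ v then (t u - μ) - f v else 0) = 0 :=
      if_neg (fun hh => hh.2 rfl)
    rw [e0, zero_add]
    apply Finset.sum_congr rfl
    intro w hw
    have hwv := Finset.ne_of_mem_erase hw
    rw [hfn w hwv]
    unfold lapR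
    simp only [s_eq_one]
    by_cases hadj : G.Adj u w
    · rw [if_pos ⟨hadj, hwv⟩, if_pos hadj]
      ring
    · rw [if_neg (fun hh => hadj hh.1), if_neg hadj, zero_mul]
  have hf0 : f = 0 := by
    by_contra hne
    exact hv ⟨f, hne, hfv, hfe⟩
  have hconst : ∀ a b, a ≠ v → b ≠ v → d a = d b := by
    intro a b ha hb
    have h1 := congrFun hf0 a
    have h3 := congrFun hf0 b
    rw [hfn a ha] at h1
    rw [hfn b hb] at h3
    simp only [Pi.zero_apply] at h1 h3
    apply lapR_inj
    show t a = t b
    linarith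
  exact (swEq_of_T (T_eq_of_cut hoff hd hconst)).trans hHH

end RGC
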