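import Pool.Agent.RGC.Inv
import Pool.Agent.RGC.Gle
import Pool.Agent.RGC.Cyc
import Pool.Agent.RGC.Cos

/-!
# RGC: transitive classes of prime order

MODULE Prm. Plan. `exists_cay` for `G`: `SwEq G (cay D)` on `ZMod p` (`NeZero p`, `Fintype`). Move `H` to
`ZMod p` along a bijection (`H₂ = H.comap`), `DeckEq (cay D) H₂` (`deck_congr`, `deck_congr_right`).
`invol` at every vertex, `gleason`: `H₂` is transitive; `exists_cay`: `SwEq H₂ (cay D')`; the Seidel
charpolys agree (`charpoly_eq` with `cay_reg`, `sd_swEq`); `cospectral`.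
-/

set_option autoImplicit false

namespace RGC

open Finset
open scoped Classical

variable {V W : Type}

theorem prime_case [Fintype V] (hn : 10 ≤ Fintype.card V) (hp : (Fintype.card V).Prime)
    {G H : SimpleGraph V} (h : DeckEq G H)
    (htr : ∀ u v, ∃ g : Equiv.Perm V, (∀ a b c, T G (g a) (g b) (g c) = T G a b c) ∧ g u = v) :
    SwEq G H := by
  obtain ⟨p, hpV⟩ : ∃ p, Fintype.card V = p := ⟨_, rfl⟩
  rw [hpV] at hp hn
  have : Fact p.Prime := ⟨hp⟩
  have : NeZero p := ⟨hp.ne_zero⟩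
  have hp2 : p ≠ 2 := by omega
  obtain ⟨D, hD⟩ := exists_cay hp hp2 hpV htr
  have hcard : Fintype.card (ZMod p) = p := ZMod.card p
  let φ : V ≃ ZMod p := Fintype.equivOfCardEq (by rw [hpV, hcard])
  let H₂ : SimpleGraph (ZMod p) := H.comap φ.symm
  have hH₂ : SwEq H H₂ := swEq_iff.2 ⟨φ, fun a b c => by
    show T H (φ.symm (φ a)) (φ.symm (φ b)) (φ.symm (φ c)) = _
    simp⟩
  have h₂ : DeckEq (cay D) H₂ := deck_congr_right hH₂ (deck_congr hD h)
  have hodd : Odd (Fintype.card (ZMod p)) := by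
    rw [hcard]
    exact hp.odd_of_ne_two hp2
  have hn' : 10 ≤ Fintype.card (ZMod p) := by rw [hcard]; exact hn
  have htr₂ := gleason (H := H₂) (fun v => invol hn' hodd D h₂ v)
  obtain ⟨D', hD'⟩ := exists_cay hp hp2 hcard htr₂
  have h3 := charpoly_eq hn' hodd h₂ (fun v => cay_reg D v)
  have h4 := sd_swEq hD'
  have h34 := h3.trans h4
  have hinst : ∀ (i j : DecidableEq (ZMod p)) (M : Matrix (ZMod p) (ZMod p) ℝ),
      @Matrix.charpoly ℝ _ (ZMod p) i _ M = @Matrix.charpoly ℝ _ (ZMod p) j _ M := by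
    intro i j M
    have : i = j := Subsingleton.elim i j
    subst this
    rfl
  have h5 : SwEq (cay D) (cay D') := by
    apply cospectral (by omega) D D'
    exact (hinst _ _ _).trans (h34.trans (hinst _ _ _))
  exact hD.trans (h5.trans (hD'.symm.trans hH₂.symm))

end RGC
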