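import Pool.Agent.RGC.Force
import Pool.Agent.RGC.RegEv
import Pool.Agent.RGC.GapA
import Pool.Agent.RGC.GapB
import Pool.Agent.RGC.AmpG
import Pool.Agent.RGC.Lap
import Pool.Agent.RGC.Glue
import Pool.Agent.RGC.Prm
import Pool.Agent.RGC.AblM
import Pool.Agent.RGC.Crit

/-!
# RGC: assembly
-/

set_option autoImplicit false

namespace RGC

open Finset
open scoped Classical

variable {V W : Type}

theorem recon_even [Fintype V] (G : SimpleGraph V) (hV : Even (Fintype.card V))
    (h4 : 4 ≤ Fintype.card V) (hpar : ∀ u v, oddThrough G u % 2 = oddThrough G v % 2) : Recon G :=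
  fun _ h => even_parity hV h4 hpar h

theorem recon_regular_even [Fintype V] (G : SimpleGraph V) (hV : Even (Fintype.card V))
    (h4 : 4 ≤ Fintype.card V) (k : ℕ) (hk : ∀ v, (G.neighborSet v).ncard = k) : Recon G :=
  recon_even G hV h4 (reg_oddThrough hk)

theorem recon_forced [Fintype V] (G : SimpleGraph V) (hn : 10 ≤ Fintype.card V) (v : V)
    (hv : ∀ a b, a ≠ v → b ≠ v → Relation.ReflTransGen (Forced G v) a b) : Recon G :=
  fun _ h => force hn h hv

theorem recon_crit [Fintype V] (G : SimpleGraph V) (hn : 10 ≤ Fintype.card V) (v : V)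
    (hv : ∀ D : Set V, v ∉ D → D.Nonempty → (∃ b, b ≠ v ∧ b ∉ D) → HalfCut G v D →
      ∃ a ∈ D, ∃ b, b ∉ D ∧ Forced G v a b) : Recon G :=
  fun _ h => crit hn h hv

theorem recon_gap [Fintype V] (G : SimpleGraph V) (hn : 10 ≤ Fintype.card V)
    (hodd : Odd (Fintype.card V))
    (hgap : (∀ a b c d, a ≠ b → c ≠ d → codeg G c d = codeg G a b + 1 → Even (codeg G a b)) ∨
      (∀ a b c d, a ≠ b → c ≠ d → codeg G c d = codeg G a b + 1 → Odd (codeg G a b))) :
    Recon G := by
  simp only [codeg_eq] at hgap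
  rcases hgap with hE | hE
  · exact fun _ h => gapA hn hodd h hE
  · exact fun _ h => gapB hn hodd h hE

theorem recon_amply [Fintype V] (G : SimpleGraph V) (hn : 10 ≤ Fintype.card V) (k l m : ℕ)
    (hG : AmplyRegular G k l m) : Recon G := by
  rcases Nat.even_or_odd (Fintype.card V) with hV | hV
  · exact recon_regular_even G hV (by omega) k hG.1
  · apply recon_gap G hn hV
    simp only [codeg_eq]
    exact amp_gap hn hV hG

theorem recon_lap [Fintype V] (G : SimpleGraph V) (hn : 10 ≤ Fintype.card V)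
    (hodd : Odd (Fintype.card V)) (k : ℕ) (hk : ∀ v, (G.neighborSet v).ncard = k)
    (v : V) (hv : ¬ LaplaceEigenvalue G v (((Fintype.card V : ℝ) - 1) / 2)) : Recon G :=
  fun _ h => lap hn hodd h hk hv

theorem recon_prime [Fintype V] (G : SimpleGraph V) (hn : 10 ≤ Fintype.card V)
    (hp : (Fintype.card V).Prime)
    (htr : ∀ u v, ∃ g : Equiv.Perm V,
      (∀ a b c, OddTriple G (g a) (g b) (g c) ↔ OddTriple G a b c) ∧ g u = v) : Recon G := by
  intro H h
  refine prime_case hn hp h ?_
  intro u v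
  obtain ⟨g, hg, hgu⟩ := htr u v
  refine ⟨g, fun a b c => ?_, hgu⟩
  have := hg a b c
  rw [oddTriple_iff, oddTriple_iff] at this
  have key : ∀ x y : ZMod 2, (x = 1 ↔ y = 1) → x = y := by decide
  exact key _ _ this

theorem sum_s [Fintype V] (G : SimpleGraph V) (a : V) :
    ∑ w, s G a w = (((G.neighborSet a).ncard : ℕ) : ZMod 2) := by
  have h1 : (G.neighborSet a).ncard = (univ.filter fun w => G.Adj a w).card := by
    rw [← Set.ncard_coe_finset]
    congr 1
    ext w
    simp
  rw [h1, natCast_card_filter]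
  rfl

theorem cd_even [Fintype V] (hV : Even (Fintype.card V)) {G : SimpleGraph V} {a b : V}
    (hab : ∑ w, s G a w = ∑ w, s G b w) : Even (cd G a b) := by
  have h1 : ((cd G a b : ℕ) : ZMod 2) = 0 := by
    unfold cd
    rw [natCast_card_filter]
    have h2 : ∀ a : ZMod 2, (if a = 1 then (1 : ZMod 2) else 0) = a := by decide
    simp only [h2]
    unfold T
    rw [sum_add_distrib, sum_add_distrib, sum_const, card_univ, nsmul_eq_mul, hab]
    obtain ⟨k, hk⟩ := hV
    have h3 : ((Fintype.card V : ℕ) : ZMod 2) = 0 := by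
      rw [hk, Nat.cast_add, z2]
    rw [h3, zero_mul, zero_add, z2]
  rw [ZMod.natCast_eq_zero_iff] at h1
  exact (even_iff_two_dvd).2 h1

/-- even order at least ten, all degrees of the same parity -/
theorem recon_degrees [Fintype V] (G : SimpleGraph V) (hV : Even (Fintype.card V))
    (hn : 10 ≤ Fintype.card V)
    (hdeg : ∀ u v, (G.neighborSet u).ncard % 2 = (G.neighborSet v).ncard % 2) : Recon G := by
  have hne : Nonempty V := Fintype.card_pos_iff.1 (by omega)
  obtain ⟨v⟩ := hne
  have hev : ∀ a b, Even (codeg G a b) := by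
    intro a b
    rw [codeg_eq]
    apply cd_even hV
    rw [sum_s, sum_s, ZMod.natCast_eq_natCast_iff]
    exact hdeg a b
  apply recon_forced G hn v
  intro a b ha hb
  by_cases hab : a = b
  · subst hab
    exact Relation.ReflTransGen.refl
  · apply Relation.ReflTransGen.single
    refine ⟨hab, ha, hb, ?_⟩
    have h1 : ∀ x y, codeg G x y ≠ codeg G a b + 1 := by
      intro x y h
      obtain ⟨p, hp⟩ := hev x y
      obtain ⟨q, hq⟩ := hev a b
      omega
    have h2 : ∀ x y, codeg G x y + 1 ≠ codeg G a b := by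
      intro x y h
      obtain ⟨p, hp⟩ := hev x y
      obtain ⟨q, hq⟩ := hev a b
      omega
    by_cases h : OddTriple G a b v
    · exact Or.inr ⟨h, fun x y _ => h2 x y⟩
    · exact Or.inl ⟨h, fun x y _ => h1 x y⟩

theorem recon_glue [Fintype V] (G : SimpleGraph V) (hn : 10 ≤ Fintype.card V) (u v : V)
    (huv : u ≠ v) (h1 : ∀ a b, a ≠ b → codeg G a b ≠ 0 ∧ codeg G a b + 2 ≠ Fintype.card V)
    (h2 : 2 * codeg G u v + 2 ≠ Fintype.card V) (h3 : Extends G u v) : Recon G := by
  simp only [codeg_eq] at h1 h2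
  exact fun _ h => glue hn h huv h1 h2 h3

end RGC
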