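import Pool.Agent.RGC.Dist
import Pool.Agent.RGC.Eul

/-!
# RGC: regular classes of odd order

The even graph of a regular graph of odd order is the graph itself (`E_reg`), and the even graph of every hypomorphic mate is regular
of the same degree (`reg_E`): its degrees are `k` or `n - 1 - k`, and their sum is `n k`.
-/

set_option autoImplicit false

namespace RGC

open Finset
open scoped Classical

variable {V W : Type}

private theorem rg_nc [Fintype V] (G : SimpleGraph V) (v : V) :
    (G.neighborSet v).ncard = (univ.filter fun w => G.Adj v w).card := by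
  rw [← Set.ncard_coe_finset]
  congr 1
  ext w
  simp

private theorem rg_sum [Fintype V] (G : SimpleGraph V) (v : V) :
    ∑ w, s G v w = ((univ.filter fun w => G.Adj v w).card : ZMod 2) := by
  unfold s
  rw [Finset.sum_boole]

private theorem rg_even [Fintype V] (hodd : Odd (Fintype.card V)) {G : SimpleGraph V} {k : ℕ}
    (hk : ∀ v, (G.neighborSet v).ncard = k) : Even k := by
  have h1 := G.sum_degrees_eq_twice_card_edges
  have h2 : ∀ v, G.degree v = k := by
    intro v
    rw [← hk v, rg_nc, ← SimpleGraph.card_neighborFinset_eq_degree]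
    congr 1
    ext w
    simp
  rw [Finset.sum_congr rfl fun v _ => h2 v, sum_const, card_univ, smul_eq_mul] at h1
  have h3 : Even (Fintype.card V * k) := ⟨G.edgeFinset.card, by omega⟩
  rcases Nat.even_mul.1 h3 with h | h
  · exact absurd h (Nat.not_even_iff_odd.2 hodd)
  · exact h

/-- the degree sum of the even graph -/
private theorem rg_dsum [Fintype V] (G : SimpleGraph V) :
    ∑ v, (univ.filter fun w => (E G).Adj v w).card =
      ∑ p ∈ (univ : Finset V).offDiag, cd G p.1 p.2 % 2 := by
  have h1 : (univ : Finset V).offDiag = ((univ : Finset V) ×ˢ (univ : Finset V)).filter fun p => p.1 ≠ p.2 := by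
    ext p
    simp
  rw [h1, sum_filter, sum_product]
  refine sum_congr rfl fun v _ => ?_
  rw [card_filter]
  refine sum_congr rfl fun w _ => ?_
  by_cases h2 : v ≠ w
  · rw [if_pos (c := (v, w).1 ≠ (v, w).2) h2]
    by_cases h3 : Odd (cd G v w)
    · rw [if_pos (c := (E G).Adj v w) ⟨h2, h3⟩]
      exact (Nat.odd_iff.1 h3).symm
    · rw [if_neg (c := (E G).Adj v w) fun h => h3 h.2]
      exact (Nat.even_iff.1 (Nat.not_odd_iff_even.1 h3)).symm
  · rw [if_neg (c := (v, w).1 ≠ (v, w).2) h2, if_neg (c := (E G).Adj v w) fun h => h2 h.1]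

/-- the degree at the deleted vertex -/
private theorem rg_off [Fintype V] (hodd : Odd (Fintype.card V)) {G H : SimpleGraph V} {v : V}
    (h : OffEq G H v) (hn : 2 ≤ Fintype.card V) {k : ℕ}
    (hk : (univ.filter fun w => (E G).Adj v w).card = k) :
    (univ.filter fun w => (E H).Adj v w).card = k ∨
      (univ.filter fun w => (E H).Adj v w).card + k + 1 = Fintype.card V := by
  obtain ⟨c, hc⟩ : ∃ c, c ≠ v := by
    have : Nontrivial V := Fintype.one_lt_card_iff_nontrivial.1 (by omega)
    exact exists_ne v
  have h1 : ∀ a, a ≠ v → s (E H) v a = s (E G) v a + (s (E H) v c + s (E G) v c) := by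
    intro a ha
    have h2 := E_off hodd h ha hc
    have h3 : ∀ x y z : ZMod 2, x + y = z → x = y + z := by decide
    exact h3 _ _ _ h2
  rcases z2c (s (E H) v c + s (E G) v c) with h2 | h2
  · left
    rw [← hk]
    congr 1
    ext a
    simp only [mem_filter, mem_univ, true_and]
    by_cases ha : a = v
    · rw [ha]
      exact iff_of_false ((E H).loopless.irrefl v) ((E G).loopless.irrefl v)
    · rw [← s_eq_one, ← s_eq_one, h1 a ha, h2, add_zero]
  · right
    have h3 : (univ.filter fun w => (E H).Adj v w) = (univ.erase v) \ (univ.filter fun w => (E G).Adj v w) := by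
      ext a
      simp only [mem_filter, mem_univ, true_and, mem_sdiff, mem_erase, and_true]
      by_cases ha : a = v
      · rw [ha]
        exact iff_of_false ((E H).loopless.irrefl v) fun hh => hh.1 rfl
      · rw [← s_eq_one, ← s_eq_one, h1 a ha, h2]
        have h4 : ∀ x : ZMod 2, x + 1 = 1 ↔ ¬ x = 1 := by decide
        rw [h4]
        exact ⟨fun hh => ⟨ha, hh⟩, fun hh => hh.2⟩
    have h5 : (univ.filter fun w => (E G).Adj v w) ⊆ univ.erase v := by
      intro a ha
      rw [mem_filter] at ha
      refine mem_erase.2 ⟨?_, mem_univ _⟩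
      rintro rfl
      exact (E G).loopless.irrefl a ha.2
    have h6 := card_sdiff_add_card_eq_card h5
    rw [← h3, card_erase_of_mem (mem_univ v), card_univ, hk] at h6
    omega

private theorem rg_iso [Fintype V] {G H : SimpleGraph V} (e : G ≃g H) (v : V) :
    (univ.filter fun w => (E H).Adj (e v) w).card = (univ.filter fun w => (E G).Adj v w).card := by
  have h1 : ∀ a b, (E H).Adj (e a) (e b) ↔ (E G).Adj a b := by
    intro a b
    rw [← s_eq_one, ← s_eq_one]
    have := E_iso (G := G) (H := H) e.toEquiv (fun a b c => T_iso e a b c) a b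
    rw [← this]
    rfl
  symm
  apply card_bij (fun w _ => e w)
  · intro w hw
    rw [mem_filter] at hw ⊢
    exact ⟨mem_univ _, (h1 _ _).2 hw.2⟩
  · intro x _ y _ hxy
    exact e.injective hxy
  · intro w hw
    rw [mem_filter] at hw
    refine ⟨e.symm w, ?_, by simp⟩
    rw [mem_filter]
    refine ⟨mem_univ _, ?_⟩
    rw [← h1]
    simpa using hw.2

theorem E_reg [Fintype V] (hodd : Odd (Fintype.card V)) {G : SimpleGraph V} {k : ℕ}
    (hk : ∀ v, (G.neighborSet v).ncard = k) : E G = G := by
  obtain ⟨m, hm⟩ := rg_even hodd hk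
  refine E_unique hodd (fun a => ?_) (fun _ _ _ => rfl)
  rw [rg_sum, ← rg_nc, hk a, hm]
  push_cast
  exact z2 _

theorem reg_E [Fintype V] (hn : 10 ≤ Fintype.card V) (hodd : Odd (Fintype.card V))
    {G H : SimpleGraph V} (h : DeckEq G H) {k : ℕ} (hk : ∀ v, (G.neighborSet v).ncard = k) :
    ∀ v, ((E H).neighborSet v).ncard = k := by
  have hE := E_reg hodd hk
  have hkG : ∀ v, (univ.filter fun w => (E G).Adj v w).card = k := by
    intro v
    rw [hE, ← rg_nc, hk v]
  obtain ⟨π, hπ⟩ := transport h
  have hdeg : ∀ v, (univ.filter fun w => (E H).Adj v w).card = k ∨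
      (univ.filter fun w => (E H).Adj v w).card + k + 1 = Fintype.card V := by
    intro v
    obtain ⟨H', e, h1, h2⟩ := hπ (π.symm v)
    have h3 := rg_off hodd h2 (by omega) (hkG _)
    have h4 := rg_iso e (π.symm v)
    rw [h1, Equiv.apply_symm_apply] at h4
    rw [h4]
    exact h3
  have hsum : ∑ v, (univ.filter fun w => (E H).Adj v w).card = ∑ _v : V, k := by
    rw [rg_dsum, ← dist_sum hn h (fun c => c % 2), ← rg_dsum]
    exact sum_congr rfl fun v _ => hkG v
  intro v
  rw [rg_nc]
  rcases le_total (2 * k + 1) (Fintype.card V) with h5 | h5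
  · have h6 := (Finset.sum_eq_sum_iff_of_le (s := (univ : Finset V)) (f := fun _ => k)
      (g := fun v => (univ.filter fun w => (E H).Adj v w).card) (by
        intro v _
        show k ≤ (univ.filter fun w => (E H).Adj v w).card
        rcases hdeg v with h7 | h7 <;> omega)).1 hsum.symm
    exact (h6 v (mem_univ v)).symm
  · have h6 := (Finset.sum_eq_sum_iff_of_le (s := (univ : Finset V))
      (f := fun v => (univ.filter fun w => (E H).Adj v w).card) (g := fun _ => k) (by
        intro v _
        show (univ.filter fun w => (E H).Adj v w).card ≤ k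
        rcases hdeg v with h7 | h7 <;> omega)).1 hsum
    exact h6 v (mem_univ v)

end RGC
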