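import Pool.Agent.RGC.Trn

/-!
# RGC: Seidel matrices

Switching conjugates the Seidel matrix by a diagonal matrix of signs.
-/

set_option autoImplicit false

namespace RGC

open Finset
open scoped Classical

variable {V W : Type}

theorem sd_swEq [Fintype V] [Fintype W] {G : SimpleGraph V} {H : SimpleGraph W} (h : SwEq G H) :
    (Sd G).charpoly = (Sd H).charpoly := by
  obtain ⟨τ, ⟨e⟩⟩ := h
  have h1 : Sd H = Matrix.reindex e.toEquiv.symm e.toEquiv.symm (Sd (sw G τ)) := by
    ext a b
    show Sd H a b = Sd (sw G τ) (e a) (e b)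
    unfold Sd
    have h2 : (e a = e b) = (a = b) := propext e.toEquiv.injective.eq_iff
    have h3 : (sw G τ).Adj (e a) (e b) = H.Adj a b := propext e.map_adj_iff
    rw [h2, h3]
  have h4 : Sd (sw G τ) = Matrix.diagonal (fun x : V => if x ∈ τ then (-1 : ℝ) else 1) * Sd G *
      Matrix.diagonal (fun x : V => if x ∈ τ then (-1 : ℝ) else 1) := by
    ext a b
    rw [Matrix.mul_diagonal, Matrix.diagonal_mul]
    unfold Sd
    by_cases hab : a = b
    · simp [hab]
    · have h5 : (sw G τ).Adj a b ↔ Xor (G.Adj a b) (Xor (a ∈ τ) (b ∈ τ)) := by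
        unfold sw
        simp [hab]
      by_cases h6 : G.Adj a b <;> by_cases h7 : a ∈ τ <;> by_cases h8 : b ∈ τ <;>
        simp [hab, h5, h6, h7, h8, Xor]
  have h9 : Matrix.diagonal (fun x : V => if x ∈ τ then (-1 : ℝ) else 1) *
      Matrix.diagonal (fun x : V => if x ∈ τ then (-1 : ℝ) else 1) = 1 := by
    rw [Matrix.diagonal_mul_diagonal, ← Matrix.diagonal_one]
    congr 1
    funext x
    split_ifs <;> norm_num
  rw [h1, Matrix.charpoly_reindex, h4, Matrix.charpoly_mul_comm, ← mul_assoc, h9, one_mul]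

theorem sd_card (G : SimpleGraph V) (v : V) :
    Sd (cardOf G v) = (Sd G).submatrix Subtype.val Subtype.val := by
  ext a b
  show Sd (cardOf G v) a b = Sd G a.1 b.1
  unfold Sd
  have h2 : (a = b) = (a.1 = b.1) := propext Subtype.ext_iff
  rw [h2]
  rfl

theorem sd_symm (G : SimpleGraph V) : (Sd G).IsSymm := by
  ext a b
  show Sd G b a = Sd G a b
  unfold Sd
  have h2 : (b = a) = (a = b) := propext eq_comm
  rw [h2, G.adj_comm b a]

end RGC
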