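import Pool.Agent.RGC.Sei

/-!
# RGC: Kelly's lemma for the Seidel polynomial

MODULE SeiK. Double counting of principal minors.
-/

set_option autoImplicit false

namespace RGC

open Finset
open scoped Classical

variable {V W : Type}

/-- sum of the principal minors of size `k` -/
private noncomputable def sk_cf {U : Type} [Fintype U] (A : Matrix U U ℝ) (k : ℕ) : ℝ :=
  ∑ K ∈ (univ : Finset U).powersetCard k, (A.submatrix (Subtype.val : K → U) Subtype.val).det

private theorem sk_coeff {U : Type} [Fintype U] (A : Matrix U U ℝ) {k : ℕ}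
    (hk : k ≤ Fintype.card U) :
    A.charpoly.coeff (Fintype.card U - k) = (-1) ^ k * sk_cf A k :=
  Matrix.charpoly_coeff_eq_sum_minors A k hk

private theorem sk_dec {U : Type} [Fintype U] (d1 d2 : DecidableEq U) (M : Matrix U U ℝ) :
    @Matrix.det U d1 _ ℝ _ M = @Matrix.det U d2 _ ℝ _ M := by
  rw [Subsingleton.elim d1 d2]

private theorem sk_sub [Fintype V] (A : Matrix V V ℝ) (v : V) (k : ℕ) :
    sk_cf (A.submatrix (Subtype.val : {x : V // x ≠ v} → V) Subtype.val) k =
      ∑ K ∈ ((univ : Finset V).erase v).powersetCard k,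
        (A.submatrix (Subtype.val : K → V) Subtype.val).det := by
  unfold sk_cf
  refine Finset.sum_bij (fun K _ => K.map (Function.Embedding.subtype _)) ?_ ?_ ?_ ?_
  · intro K hK
    rw [mem_powersetCard] at hK ⊢
    refine ⟨?_, by rw [card_map]; exact hK.2⟩
    intro x hx
    rw [mem_map] at hx
    obtain ⟨y, -, rfl⟩ := hx
    exact mem_erase.2 ⟨y.2, mem_univ _⟩
  · intro K _ K' _ h
    exact map_injective _ h
  · intro K hK
    rw [mem_powersetCard] at hK
    have h1 : ∀ x ∈ K, x ≠ v := fun x hx => (mem_erase.1 (hK.1 hx)).1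
    refine ⟨K.subtype (fun x => x ≠ v), ?_, subtype_map_of_mem h1⟩
    rw [mem_powersetCard]
    refine ⟨subset_univ _, ?_⟩
    rw [card_subtype, filter_true_of_mem h1]
    exact hK.2
  · intro K _
    rw [← Matrix.det_submatrix_equiv_self
      (K.equivMap (Function.Embedding.subtype (fun x : V => x ≠ v)))]
    exact sk_dec _ _ _

private theorem sk_count [Fintype V] (A : Matrix V V ℝ) {k : ℕ} (_ : k ≤ Fintype.card V) :
    ∑ v : V, sk_cf (A.submatrix (Subtype.val : {x : V // x ≠ v} → V) Subtype.val) k =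
      ((Fintype.card V - k : ℕ) : ℝ) * sk_cf A k := by
  simp only [sk_sub]
  rw [Finset.sum_comm' (s' := fun K => Kᶜ) (t' := (univ : Finset V).powersetCard k)]
  · unfold sk_cf
    rw [mul_sum]
    refine sum_congr rfl fun K hK => ?_
    rw [mem_powersetCard] at hK
    rw [sum_const, nsmul_eq_mul, card_compl, hK.2]
  · intro v K
    simp only [mem_univ, true_and, mem_powersetCard, mem_compl, subset_univ]
    constructor
    · rintro ⟨h1, h2⟩
      exact ⟨fun h => (mem_erase.1 (h1 h)).1 rfl, h2⟩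
    · rintro ⟨h1, h2⟩
      exact ⟨fun x hx => mem_erase.2 ⟨fun h => h1 (h ▸ hx), mem_univ _⟩, h2⟩

private theorem sk_eq {U U' : Type} [Fintype U] [Fintype U'] {X : SimpleGraph U}
    {Y : SimpleGraph U'} (h : SwEq X Y) {k : ℕ} (hk : k ≤ Fintype.card U) :
    sk_cf (Sd X) k = sk_cf (Sd Y) k := by
  have hc : Fintype.card U = Fintype.card U' := by
    obtain ⟨e, -⟩ := swEq_iff.1 h
    exact Fintype.card_congr e
  have h1 := sk_coeff (Sd X) hk
  have h2 := sk_coeff (Sd Y) (hc ▸ hk)
  rw [sd_swEq h, hc, h2] at h1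
  exact (mul_left_cancel₀ (pow_ne_zero k (by norm_num)) h1).symm

theorem coeff_eq [Fintype V] {G H : SimpleGraph V} (h : DeckEq G H) {j : ℕ} (hj : j ≠ 0) :
    (Sd G).charpoly.coeff j = (Sd H).charpoly.coeff j := by
  obtain ⟨π, hπ⟩ := h
  by_cases hjn : Fintype.card V < j
  · rw [Polynomial.coeff_eq_zero_of_natDegree_lt, Polynomial.coeff_eq_zero_of_natDegree_lt]
    · rw [Matrix.charpoly_natDegree_eq_dim]
      exact hjn
    · rw [Matrix.charpoly_natDegree_eq_dim]
      exact hjn
  push Not at hjn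
  obtain ⟨k, hk⟩ : ∃ k, k = Fintype.card V - j := ⟨_, rfl⟩
  have hkj : j = Fintype.card V - k := by omega
  have hkn : k ≤ Fintype.card V := by omega
  have hk1 : k ≤ Fintype.card V - 1 := by omega
  rw [hkj, sk_coeff _ hkn, sk_coeff _ hkn]
  congr 1
  have hG := sk_count (Sd G) hkn
  have hH := sk_count (Sd H) hkn
  have h1 : ∀ v, sk_cf ((Sd G).submatrix (Subtype.val : {x : V // x ≠ v} → V) Subtype.val) k =
      sk_cf ((Sd H).submatrix (Subtype.val : {x : V // x ≠ π v} → V) Subtype.val) k := by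
    intro v
    rw [← sd_card, ← sd_card]
    apply sk_eq (hπ v)
    have h2 : Fintype.card {x : V // x ≠ v} = Fintype.card V - 1 := by
      rw [Fintype.card_subtype_compl, Fintype.card_subtype_eq]
    rw [h2]
    exact hk1
  have h3 : ∑ v : V, sk_cf ((Sd G).submatrix (Subtype.val : {x : V // x ≠ v} → V)
      Subtype.val) k = ∑ v : V, sk_cf ((Sd H).submatrix (Subtype.val : {x : V // x ≠ v} → V)
      Subtype.val) k := by
    rw [← Equiv.sum_comp π (fun v => sk_cf ((Sd H).submatrix
      (Subtype.val : {x : V // x ≠ v} → V) Subtype.val) k)]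
    exact sum_congr rfl fun v _ => h1 v
  rw [hG, hH] at h3
  refine mul_left_cancel₀ ?_ h3
  have h4 : Fintype.card V - k ≠ 0 := by omega
  exact_mod_cast h4

end RGC
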