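import Pool.Agent.RGC.SeiK
import Pool.Agent.RGC.Reg

/-!
# RGC: the Seidel polynomial of a regular class of odd order is reconstructible

MODULE SeiR. Plan. Both `G` (`E G = G`, `k`-regular) and `E H` (`k`-regular by `reg_E`) have the
eigenvector `1` of the Seidel matrix with eigenvalue `θ = n - 1 - 2 k`: so `θ` is a root of both
charpolys (`(Sd H).charpoly = (Sd (E H)).charpoly` by `sd_swEq`, `T_E`). The two charpolys agree
except possibly in the constant coefficient (`coeff_eq`), so their difference is a constant which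
vanishes at `θ`.
-/

set_option autoImplicit false

namespace RGC

open Finset
open scoped Classical

variable {V W : Type}

private theorem sr_row [Fintype V] {X : SimpleGraph V} {k : ℕ}
    (hk : ∀ v, (X.neighborSet v).ncard = k) (a : V) :
    ∑ b, Sd X a b = (Fintype.card V : ℝ) - 1 - 2 * k := by
  have h1 : ∀ b, Sd X a b = (1 - if a = b then 1 else 0) - 2 * (if X.Adj a b then 1 else 0) := by
    intro b
    unfold Sd
    by_cases h : a = b
    · subst h
      rw [if_pos rfl, if_pos rfl, if_neg (X.loopless.irrefl a)]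
      norm_num
    · rw [if_neg h, if_neg h]
      by_cases h2 : X.Adj a b
      · rw [if_pos h2, if_pos h2]
        norm_num
      · rw [if_neg h2, if_neg h2]
        norm_num
  have h2 : (∑ b, if X.Adj a b then (1 : ℝ) else 0) = k := by
    rw [Finset.sum_boole, ← hk a, ← Set.ncard_coe_finset]
    congr 2
    ext b
    simp
  rw [sum_congr rfl fun b _ => h1 b, sum_sub_distrib, sum_sub_distrib, ← mul_sum, h2,
    Finset.sum_ite_eq, if_pos (mem_univ a), sum_const, card_univ, nsmul_eq_mul, mul_one]

private theorem sr_root [Fintype V] [Nonempty V] {X : SimpleGraph V} {k : ℕ}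
    (hk : ∀ v, (X.neighborSet v).ncard = k) :
    (Sd X).charpoly.eval ((Fintype.card V : ℝ) - 1 - 2 * k) = 0 := by
  rw [Matrix.eval_charpoly]
  refine Matrix.exists_mulVec_eq_zero_iff.1 ⟨fun _ => 1, ?_, ?_⟩
  · intro h
    have := congrFun h (Classical.arbitrary V)
    simp at this
  · rw [Matrix.sub_mulVec]
    funext a
    have h1 := sr_row hk a
    rw [Pi.sub_apply, Pi.zero_apply]
    have h2 : (Sd X).mulVec (fun _ => (1 : ℝ)) a = ∑ b, Sd X a b := by
      show ∑ b, Sd X a b * 1 = _
      simp only [mul_one]
    rw [h2, h1]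
    simp [Matrix.scalar_apply, Matrix.mulVec_diagonal]

theorem charpoly_eq [Fintype V] (hn : 10 ≤ Fintype.card V) (hodd : Odd (Fintype.card V))
    {G H : SimpleGraph V} (h : DeckEq G H) {k : ℕ} (hk : ∀ v, (G.neighborSet v).ncard = k) :
    (Sd G).charpoly = (Sd H).charpoly := by
  have hne : Nonempty V := Fintype.card_pos_iff.1 (by omega)
  have h1 : (Sd H).charpoly = (Sd (E H)).charpoly :=
    sd_swEq (swEq_of_T fun a b c => T_E hodd H a b c)
  have h2 := sr_root hk
  have h3 := sr_root (reg_E hn hodd h hk)
  rw [← h1] at h3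
  have h4 : (Sd G).charpoly - (Sd H).charpoly
      = Polynomial.C (((Sd G).charpoly - (Sd H).charpoly).coeff 0) := by
    ext j
    rw [Polynomial.coeff_C]
    split_ifs with hj
    · rw [hj]
    · rw [Polynomial.coeff_sub, coeff_eq h hj, sub_self]
  have h5 := congrArg (Polynomial.eval ((Fintype.card V : ℝ) - 1 - 2 * k)) h4
  rw [Polynomial.eval_sub, h2, h3, sub_self, Polynomial.eval_C] at h5
  rw [← h5, Polynomial.C_0] at h4
  exact sub_eq_zero.1 h4

end RGC
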